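import Pool.Agent.CCG.Stmts2

/-!
# ARI: arithmetic of the recursion
-/

set_option autoImplicit false

namespace Pool.Agent.CCG

namespace ARI

/-- the bounds for the numbers of colours -/
def f (k : ℕ) : ℕ := if k = 2 then 97 else if k = 3 then 9667 else 100 ^ (k - 1)

lemma f_le (k : ℕ) : f k ≤ 100 ^ (k - 1) := by
  unfold f
  split_ifs with h1 h2
  · subst h1; norm_num
  · subst h2; norm_num
  · exact le_rfl

/-- the tail of the sum -/
def a (n : ℕ) : ℕ := ∑ k ∈ Finset.range n, 2 * (n + 2 - k) * (n + 3 - k) * 100 ^ k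

lemma a_succ (n : ℕ) : a (n + 1) = 100 * a n + 2 * (n + 3) * (n + 4) := by
  unfold a
  rw [Finset.sum_range_succ', Finset.mul_sum]
  have e3 : 2 * (n + 1 + 2 - 0) * (n + 1 + 3 - 0) * 100 ^ 0 = 2 * (n + 3) * (n + 4) := by
    simp
  rw [e3]
  congr 1
  apply Finset.sum_congr rfl
  intro i _
  have e1 : n + 1 + 2 - (i + 1) = n + 2 - i := by omega
  have e2 : n + 1 + 3 - (i + 1) = n + 3 - i := by omega
  rw [e1, e2, pow_succ]
  ring

lemma a_le (n : ℕ) : 4 * a n + (n + 1) ^ 2 ≤ 100 ^ n := by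
  induction n with
  | zero => simp [a]
  | succ n ih =>
    have e : (100 : ℕ) ^ (n + 1) = 100 * 100 ^ n := by ring
    rw [a_succ, e]
    nlinarith [ih]

lemma div_le {w k : ℕ} (h1 : 1 ≤ k) (h2 : k ≤ w) : w / k ≤ w - k + 1 := by
  obtain ⟨d, rfl⟩ := Nat.exists_eq_add_of_le h2
  rw [Nat.add_div_left d (by omega)]
  have := Nat.div_le_self d k
  omega

end ARI

open ARI in
theorem ARI_thm : Stmt_ARI := by
  refine ⟨f, by simp [f], fun w _ => f_le w, ?_⟩
  intro w hw
  by_cases h5 : w < 5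
  · interval_cases w
    · decide
    · decide
    · decide
  obtain ⟨n, rfl⟩ : ∃ n, w = n + 3 := ⟨w - 3, by omega⟩
  have hn : 2 ≤ n := by omega
  have hI : Finset.Icc 1 (n + 3 - 1) = Finset.Ico 1 (n + 3) := by
    ext x
    simp only [Finset.mem_Icc, Finset.mem_Ico]
    omega
  have hfw : f (n + 3) = 100 ^ (n + 2) := by
    unfold f
    rw [if_neg (by omega), if_neg (by omega)]
    rfl
  rw [hI, Finset.sum_Ico_eq_sum_range, hfw]
  have e0 : n + 3 - 1 = n + 1 + 1 := by omega
  rw [e0, Finset.sum_range_succ, Finset.sum_range_succ]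
  have h1 : nbk (n + 3) (1 + (n + 1)) ≤ 2 := by
    unfold nbk
    refine (min_le_left _ _).trans ?_
    have e1 : n + 3 - (1 + (n + 1)) = 1 := by omega
    have e2 : (n + 3) / (1 + (n + 1)) = 1 := by
      rw [Nat.div_eq_iff (by omega)]
      omega
    rw [e1, e2]
  have h2 : nbk (n + 3) (1 + n) ≤ 4 := by
    unfold nbk
    refine (min_le_left _ _).trans ?_
    have e1 : n + 3 - (1 + n) = 2 := by omega
    have e2 : (n + 3) / (1 + n) = 1 := by
      rw [Nat.div_eq_iff (by omega)]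
      omega
    rw [e1, e2]
  have h3 : f (1 + (n + 1)) ≤ 100 * 100 ^ n := by
    have := f_le (1 + (n + 1))
    have e : 1 + (n + 1) - 1 = n + 1 := by omega
    rw [e, pow_succ] at this
    omega
  have h4 : f (1 + n) ≤ 100 ^ n := by
    have := f_le (1 + n)
    have e : 1 + n - 1 = n := by omega
    rwa [e] at this
  have h6 : ∑ x ∈ Finset.range n, nbk (n + 3) (1 + x) * f (1 + x) ≤ a n := by
    unfold a
    apply Finset.sum_le_sum
    intro i hi
    rw [Finset.mem_range] at hi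
    have g1 : f (1 + i) ≤ 100 ^ i := by
      have := f_le (1 + i)
      have e : 1 + i - 1 = i := by omega
      rwa [e] at this
    have g2 : nbk (n + 3) (1 + i) ≤ 2 * (n + 2 - i) * (n + 3 - i) := by
      unfold nbk
      refine (min_le_left _ _).trans ?_
      have g3 := div_le (w := n + 3) (k := 1 + i) (by omega) (by omega)
      have e1 : n + 3 - (1 + i) = n + 2 - i := by omega
      have e2 : n + 3 - (1 + i) + 1 = n + 3 - i := by omega
      rw [e2] at g3
      rw [e1]
      calc (n + 2 - i) * (2 * ((n + 3) / (1 + i))) ≤ (n + 2 - i) * (2 * (n + 3 - i)) :=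
            Nat.mul_le_mul_left _ (Nat.mul_le_mul_left _ g3)
        _ = 2 * (n + 2 - i) * (n + 3 - i) := by ring
    exact Nat.mul_le_mul g2 g1
  have h7 := a_le n
  have g3 : nbk (n + 3) (1 + (n + 1)) * f (1 + (n + 1)) ≤ 2 * (100 * 100 ^ n) :=
    Nat.mul_le_mul h1 h3
  have g4 : nbk (n + 3) (1 + n) * f (1 + n) ≤ 4 * 100 ^ n := Nat.mul_le_mul h2 h4
  have e9 : 1 + (n + 1) = n + 1 + 1 := by omega
  have g5 : f (n + 1 + 1) ≤ 100 * 100 ^ n := by rw [← e9]; exact h3
  have e10 : (100 : ℕ) ^ (n + 2) = 10000 * 100 ^ n := by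
    rw [pow_add]; ring
  rw [e10]
  set P := (100 : ℕ) ^ n with hP
  nlinarith [h6, h7, g3, g4, g5]

end Pool.Agent.CCG
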