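import Mathlib

/-!
# Closure properties of computable predicates, choice and recursive choice
-/

namespace Pool.Agent.CCG

open Computable

variable {α β σ : Type*} [Primcodable α] [Primcodable β] [Primcodable σ]

theorem cp_of_bool {p : α → Prop} {f : α → Bool} (hf : Computable f) (h : ∀ a, f a = true ↔ p a) :
    ComputablePred p :=
  ComputablePred.computable_iff.2 ⟨f, hf, funext fun a => propext (h a).symm⟩

theorem cp_bool {p : α → Prop} (hp : ComputablePred p) :
    ∃ f : α → Bool, Computable f ∧ ∀ a, f a = true ↔ p a := by
  obtain ⟨f, hf, h⟩ := ComputablePred.computable_iff.1 hp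
  exact ⟨f, hf, fun a => by rw [h]⟩

theorem cp_comp {p : β → Prop} (hp : ComputablePred p) {f : α → β} (hf : Computable f) :
    ComputablePred fun a => p (f a) := by
  obtain ⟨g, hg, h⟩ := cp_bool hp
  exact cp_of_bool (hg.comp hf) fun a => h (f a)

theorem cp_not {p : α → Prop} (hp : ComputablePred p) : ComputablePred fun a => ¬ p a := hp.not

theorem cp_and {p q : α → Prop} (hp : ComputablePred p) (hq : ComputablePred q) :
    ComputablePred fun a => p a ∧ q a := by
  obtain ⟨f, hf, h⟩ := cp_bool hp
  obtain ⟨g, hg, h'⟩ := cp_bool hq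
  refine cp_of_bool (f := fun a => cond (f a) (g a) false) (Computable.cond hf hg (const false))
    fun a => ?_
  rw [← h, ← h']
  cases f a <;> simp

theorem cp_or {p q : α → Prop} (hp : ComputablePred p) (hq : ComputablePred q) :
    ComputablePred fun a => p a ∨ q a :=
  (cp_not (cp_and (cp_not hp) (cp_not hq))).of_eq fun a => by tauto

theorem cp_imp {p q : α → Prop} (hp : ComputablePred p) (hq : ComputablePred q) :
    ComputablePred fun a => p a → q a :=
  (cp_or (cp_not hp) hq).of_eq fun a => by tauto

theorem cp_iff {p q : α → Prop} (hp : ComputablePred p) (hq : ComputablePred q) :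
    ComputablePred fun a => (p a ↔ q a) :=
  (cp_and (cp_imp hp hq) (cp_imp hq hp)).of_eq fun a => by tauto

theorem cp_const (P : Prop) : ComputablePred fun _ : α => P := by
  by_cases h : P
  · exact cp_of_bool (const true) fun a => by simp [h]
  · exact cp_of_bool (const false) fun a => by simp [h]

theorem cp_eq {f g : α → ℕ} (hf : Computable f) (hg : Computable g) :
    ComputablePred fun a => f a = g a :=
  cp_of_bool (f := fun a => decide (f a = g a))
    ((Primrec.eq.decide.to_comp).comp hf hg) fun a => by simp

theorem cp_le {f g : α → ℕ} (hf : Computable f) (hg : Computable g) :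
    ComputablePred fun a => f a ≤ g a :=
  cp_of_bool (f := fun a => decide (f a ≤ g a))
    ((Primrec.nat_le.decide.to_comp).comp hf hg) fun a => by simp

theorem cp_lt {f g : α → ℕ} (hf : Computable f) (hg : Computable g) :
    ComputablePred fun a => f a < g a :=
  cp_of_bool (f := fun a => decide (f a < g a))
    ((Primrec.nat_lt.decide.to_comp).comp hf hg) fun a => by simp

/-- Bounded universal quantifier. -/
theorem cp_ball {t : α → ℕ} {p : α → ℕ → Prop} (ht : Computable t)
    (hp : ComputablePred fun x : α × ℕ => p x.1 x.2) :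
    ComputablePred fun a => ∀ m, m < t a → p a m := by
  obtain ⟨f, hf, h⟩ := cp_bool hp
  have h1 : Computable fun a : α => Nat.rec (motive := fun _ => Bool) true
      (fun y IH => cond IH (f (a, y)) false) (t a) :=
    Computable.nat_rec ht (const true)
      ((Computable.cond (snd.comp snd) (hf.comp (fst.pair (fst.comp snd))) (const false)).to₂)
  refine cp_of_bool h1 fun a => ?_
  have key : ∀ n, (Nat.rec (motive := fun _ => Bool) true
      (fun y IH => cond IH (f (a, y)) false) n = true) ↔ ∀ m, m < n → p a m := by
    intro n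
    induction n with
    | zero => simp
    | succ n ih =>
      simp only
      cases hr : (Nat.rec (motive := fun _ => Bool) true (fun y IH => cond IH (f (a, y)) false) n)
      · rw [hr] at ih
        simp only [cond_false, Bool.false_eq_true, false_iff] at ih ⊢
        intro h2
        exact ih fun m hm => h2 m (by omega)
      · rw [hr] at ih
        simp only [cond_true]
        rw [h (a, n)]
        constructor
        · intro h2 m hm
          rcases Nat.lt_succ_iff_lt_or_eq.1 hm with h3 | rfl
          · exact ih.1 rfl m h3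
          · exact h2
        · intro h2
          exact h2 n (by omega)
  exact key (t a)

/-- Bounded existential quantifier. -/
theorem cp_bex {t : α → ℕ} {p : α → ℕ → Prop} (ht : Computable t)
    (hp : ComputablePred fun x : α × ℕ => p x.1 x.2) :
    ComputablePred fun a => ∃ m, m < t a ∧ p a m :=
  (cp_not (cp_ball (p := fun a m => ¬ p a m) ht (cp_not hp))).of_eq fun a => by
    push Not
    rfl

theorem cp_ball_le {t : α → ℕ} {p : α → ℕ → Prop} (ht : Computable t)
    (hp : ComputablePred fun x : α × ℕ => p x.1 x.2) :
    ComputablePred fun a => ∀ m, m ≤ t a → p a m :=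
  (cp_ball (t := fun a => t a + 1) (succ.comp ht) hp).of_eq fun a =>
    ⟨fun h m hm => h m (by omega), fun h m hm => h m (by omega)⟩

theorem cp_bex_le {t : α → ℕ} {p : α → ℕ → Prop} (ht : Computable t)
    (hp : ComputablePred fun x : α × ℕ => p x.1 x.2) :
    ComputablePred fun a => ∃ m, m ≤ t a ∧ p a m :=
  (cp_bex (t := fun a => t a + 1) (succ.comp ht) hp).of_eq fun a =>
    ⟨fun ⟨m, h, h'⟩ => ⟨m, by omega, h'⟩, fun ⟨m, h, h'⟩ => ⟨m, by omega, h'⟩⟩

/-- Quantifier over the members of a list of natural numbers. -/
theorem cp_ball_list {l : α → List ℕ} {p : α → ℕ → Prop} (hl : Computable l)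
    (hp : ComputablePred fun x : α × ℕ => p x.1 x.2) :
    ComputablePred fun a => ∀ x ∈ l a, p a x := by
  have h1 : ComputablePred fun a => ∀ m, m < (l a).length → p a ((l a).getD m 0) :=
    cp_ball (p := fun a m => p a ((l a).getD m 0)) (list_length.comp hl)
      (cp_comp hp (fst.pair ((Primrec.list_getD 0).to_comp.comp (hl.comp fst) snd)))
  refine h1.of_eq fun a => ⟨fun h x hx => ?_, fun h m hm => h _ ?_⟩
  · obtain ⟨i, hi, rfl⟩ := List.mem_iff_getElem.1 hx
    have := h i hi
    rwa [List.getD_eq_getElem _ _ hi] at this
  · rw [List.getD_eq_getElem _ _ hm]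
    exact List.getElem_mem hm

theorem cp_bex_list {l : α → List ℕ} {p : α → ℕ → Prop} (hl : Computable l)
    (hp : ComputablePred fun x : α × ℕ => p x.1 x.2) :
    ComputablePred fun a => ∃ x ∈ l a, p a x :=
  (cp_not (cp_ball_list (p := fun a m => ¬ p a m) hl (cp_not hp))).of_eq fun a => by
    push Not
    rfl

/-- A list is pairwise related. -/
theorem cp_pairwise {l : α → List ℕ} {r : ℕ → ℕ → Prop} (hl : Computable l)
    (hr : ComputablePred fun x : ℕ × ℕ => r x.1 x.2) :
    ComputablePred fun a => (l a).Pairwise r := by
  have h1 : ComputablePred fun a => ∀ j, j < (l a).length → ∀ i, i < j →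
      r ((l a).getD i 0) ((l a).getD j 0) :=
    cp_ball (p := fun a j => ∀ i, i < j → r ((l a).getD i 0) ((l a).getD j 0))
      (list_length.comp hl)
      (cp_ball (α := α × ℕ) (t := fun x => x.2)
        (p := fun x i => r ((l x.1).getD i 0) ((l x.1).getD x.2 0)) snd
        (cp_comp hr
          (((Primrec.list_getD 0).to_comp.comp (hl.comp (fst.comp fst)) snd).pair
            ((Primrec.list_getD 0).to_comp.comp (hl.comp (fst.comp fst)) (snd.comp fst)))))
  refine h1.of_eq fun a => ?_
  rw [List.pairwise_iff_getElem]
  constructor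
  · intro h i j hi hj hij
    have := h j hj i hij
    rwa [List.getD_eq_getElem _ _ hi, List.getD_eq_getElem _ _ hj] at this
  · intro h j hj i hij
    have hi : i < (l a).length := by omega
    rw [List.getD_eq_getElem _ _ hi, List.getD_eq_getElem _ _ hj]
    exact h i j hi hj hij

/-- Quantifier over the lists of a fixed length with bounded entries. -/
theorem cp_tuple (w : ℕ) : ∀ {α : Type*} [Primcodable α] {t : α → ℕ} {p : α → List ℕ → Prop},
    Computable t → (ComputablePred fun x : α × List ℕ => p x.1 x.2) →
    ComputablePred fun a => ∃ s : List ℕ, s.length = w ∧ (∀ x ∈ s, x ≤ t a) ∧ p a s := by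
  induction w with
  | zero =>
    intro α _ t p ht hp
    refine (cp_comp hp (Computable.id.pair (const []))).of_eq fun a => ?_
    constructor
    · intro h
      exact ⟨[], rfl, by simp, h⟩
    · rintro ⟨s, hs, -, h⟩
      rw [List.length_eq_zero_iff] at hs
      subst hs
      exact h
  | succ w ih =>
    intro α _ t p ht hp
    have h1 : ComputablePred fun a => ∃ m, m ≤ t a ∧ ∃ s : List ℕ, s.length = w ∧
        (∀ x ∈ s, x ≤ t a) ∧ p a (m :: s) := by
      refine cp_bex_le (p := fun a m => ∃ s : List ℕ, s.length = w ∧
        (∀ x ∈ s, x ≤ t a) ∧ p a (m :: s)) ht ?_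
      refine ih (α := α × ℕ) (t := fun x => t x.1) (p := fun x s => p x.1 (x.2 :: s))
        (ht.comp fst) ?_
      exact cp_comp hp ((fst.comp fst).pair (list_cons.comp (snd.comp fst) snd))
    refine h1.of_eq fun a => ?_
    constructor
    · rintro ⟨m, hm, s, hs, hb, h⟩
      refine ⟨m :: s, by simp [hs], ?_, h⟩
      intro x hx
      rcases List.mem_cons.1 hx with rfl | hx
      · exact hm
      · exact hb x hx
    · rintro ⟨s, hs, hb, h⟩
      match s, hs with
      | m :: s, hs =>
        refine ⟨m, hb m (by simp), s, by simpa using hs, fun x hx => hb x (by simp [hx]), h⟩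

/-- Case distinction. -/
theorem cp_ite {c : α → Prop} [DecidablePred c] (hc : ComputablePred c) {f g : α → σ}
    (hf : Computable f) (hg : Computable g) : Computable fun a => if c a then f a else g a := by
  obtain ⟨b, hb, h⟩ := cp_bool hc
  refine (Computable.cond hb hf hg).of_eq fun a => ?_
  by_cases h2 : c a
  · rw [if_pos h2, (h a).2 h2]; rfl
  · rw [if_neg h2]
    have : b a = false := by
      rw [← Bool.not_eq_true]
      exact fun h3 => h2 ((h a).1 h3)
    rw [this]; rfl

/-- Choice: a total computable relation contains the graph of a computable function. -/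
theorem choice {p : α → σ → Prop} (hp : ComputablePred fun x : α × σ => p x.1 x.2)
    (h : ∀ a, ∃ m, p a m) : ∃ f : α → σ, Computable f ∧ ∀ a, p a (f a) := by
  obtain ⟨b, hb, hb'⟩ := cp_bool hp
  have h1 : Computable₂ fun (a : α) (n : ℕ) =>
      (Encodable.decode (α := σ) n).bind fun s => cond (b (a, s)) (some s) none := by
    refine Computable.option_bind (Computable.decode.comp snd) ?_
    exact (Computable.cond (hb.comp ((fst.comp fst).pair snd)) (option_some.comp snd)
      (const none)).to₂
  have h2 : Partrec fun a => Nat.rfindOpt fun n =>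
      (Encodable.decode (α := σ) n).bind fun s => cond (b (a, s)) (some s) none :=
    Partrec.rfindOpt h1
  have h3 : ∀ a, (Nat.rfindOpt fun n =>
      (Encodable.decode (α := σ) n).bind fun s => cond (b (a, s)) (some s) none).Dom := by
    intro a
    rw [Nat.rfindOpt_dom]
    obtain ⟨m, hm⟩ := h a
    refine ⟨Encodable.encode m, m, ?_⟩
    have : b (a, m) = true := (hb' (a, m)).2 hm
    simp [this]
  refine ⟨fun a => (Nat.rfindOpt fun n =>
      (Encodable.decode (α := σ) n).bind fun s => cond (b (a, s)) (some s) none).get (h3 a),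
    h2.of_eq_tot fun a => Part.get_mem _, fun a => ?_⟩
  have h4 := Part.get_mem (h3 a)
  obtain ⟨n, hn⟩ := Nat.rfindOpt_spec h4
  rw [Option.mem_def, Option.bind_eq_some_iff] at hn
  obtain ⟨s, -, hs⟩ := hn
  cases hbs : b (a, s)
  · rw [hbs] at hs
    simp at hs
  · rw [hbs] at hs
    simp only [cond_true, Option.some.injEq] at hs
    beta_reduce
    rw [← hs]
    exact (hb' (a, s)).1 hbs

/-- Recursive choice: the value at `n` may depend on the list of all earlier values. -/
theorem rec_choice {Φ : List σ → σ → Prop}
    (hΦ : ComputablePred fun x : List σ × σ => Φ x.1 x.2) (h : ∀ l, ∃ a, Φ l a) :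
    ∃ f : ℕ → σ, Computable f ∧ ∀ n, Φ ((List.range n).map f) (f n) := by
  obtain ⟨g, hg, hg'⟩ := choice hΦ h
  let L : ℕ → List σ := fun n => Nat.rec (motive := fun _ => List σ) [] (fun _ l => l ++ [g l]) n
  have hL : ∀ n, L (n + 1) = L n ++ [g (L n)] := fun n => rfl
  let f : ℕ → σ := fun n => g (L n)
  have h1 : ∀ n, (List.range n).map f = L n := by
    intro n
    induction n with
    | zero => rfl
    | succ n ih => rw [List.range_succ, List.map_append, ih, hL]; rfl
  have hLc : Computable L :=
    Computable.nat_rec Computable.id (const [])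
      ((list_concat.comp (snd.comp snd) (hg.comp (snd.comp snd))).to₂)
  refine ⟨f, hg.comp hLc, fun n => ?_⟩
  rw [h1]
  exact hg' (L n)

omit [Primcodable σ] in
/-- The values of the history. -/
theorem hist_getD (f : ℕ → σ) (d : σ) (n m : ℕ) :
    ((List.range n).map f).getD m d = if m < n then f m else d := by
  by_cases h : m < n
  · rw [if_pos h, List.getD_eq_getElem _ _ (by simpa using h)]
    simp
  · rw [if_neg h, List.getD_eq_default _ _ (by simpa using h)]

omit [Primcodable σ] in
theorem hist_length (f : ℕ → σ) (n : ℕ) : ((List.range n).map f).length = n := by simp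

/-- Finitely many computable functions can be combined. -/
theorem finite_glue (r : ℕ) (c : ℕ → ℕ → ℕ) (hc : ∀ k, k < r → Computable (c k)) :
    ∃ C : ℕ → ℕ → ℕ, Computable₂ C ∧ ∀ k, k < r → ∀ x, C k x = c k x := by
  induction r with
  | zero => exact ⟨fun _ _ => 0, (const 0).to₂, by simp⟩
  | succ r ih =>
    obtain ⟨C, hC, h⟩ := ih fun k hk => hc k (by omega)
    refine ⟨fun k x => if k = r then c r x else C k x, ?_, ?_⟩
    · exact cp_ite (α := ℕ × ℕ) (c := fun p => p.1 = r) (cp_eq fst (const r))
        ((hc r (by omega)).comp snd) (hC.comp fst snd)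
    · intro k hk x
      by_cases h2 : k = r
      · simp [h2]
      · simp only [if_neg h2]
        exact h k (by omega) x

end Pool.Agent.CCG
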