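import Pool.Agent.CCG.Stmts
import Pool.Agent.CCG.Comp

/-!
# Computable colourings of co-comparability graphs: the centres can be computed
-/

namespace Pool.Agent.CCG

namespace CEN

open Computable

/-- `s` may be recorded as a centre after the history `l`. -/
def G (E : ℕ → ℕ → Prop) (l : List (List ℕ)) (s : List ℕ) : Prop :=
  s.Pairwise E ∧ (∃ x ∈ s, x = l.length) ∧
    ∀ m, m < l.length → ∀ x ∈ s, ¬ ∃ y ∈ l.getD m [], E x y

/-- The rule which the recorded lists satisfy. -/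
def Phi (E : ℕ → ℕ → Prop) (w : ℕ) (l : List (List ℕ)) (a : List ℕ) : Prop :=
  (a.length = 0 ∧ ¬ ∃ s : List ℕ, s.length = w ∧ (∀ x ∈ s, x ≤ l.length) ∧ G E l s) ∨
    (a.length = w ∧ (∀ x ∈ a, x ≤ l.length) ∧ G E l a)

theorem cp_G {E : ℕ → ℕ → Prop} (hE : ComputablePred fun p : ℕ × ℕ => E p.1 p.2) :
    ComputablePred fun x : List (List ℕ) × List ℕ => G E x.1 x.2 := by
  have h1 : ComputablePred fun x : List (List ℕ) × List ℕ => x.2.Pairwise E :=
    cp_pairwise (l := fun x : List (List ℕ) × List ℕ => x.2) snd hE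
  have h2 : ComputablePred fun x : List (List ℕ) × List ℕ => ∃ y ∈ x.2, y = x.1.length :=
    cp_bex_list (l := fun x : List (List ℕ) × List ℕ => x.2)
      (p := fun x y => y = x.1.length) snd (cp_eq snd (list_length.comp (fst.comp fst)))
  have h3 : ComputablePred fun x : List (List ℕ) × List ℕ =>
      ∀ m, m < x.1.length → ∀ z ∈ x.2, ¬ ∃ y ∈ x.1.getD m [], E z y := by
    refine cp_ball (t := fun x : List (List ℕ) × List ℕ => x.1.length)
      (p := fun x m => ∀ z ∈ x.2, ¬ ∃ y ∈ x.1.getD m [], E z y) (list_length.comp fst) ?_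
    refine cp_ball_list (l := fun x : (List (List ℕ) × List ℕ) × ℕ => x.1.2)
      (p := fun x z => ¬ ∃ y ∈ x.1.1.getD x.2 [], E z y) (snd.comp fst) ?_
    refine cp_not ?_
    refine cp_bex_list (l := fun x : ((List (List ℕ) × List ℕ) × ℕ) × ℕ => x.1.1.1.getD x.1.2 [])
      (p := fun x y => E x.2 y) ?_ ?_
    · exact (Primrec.list_getD []).to_comp.comp (fst.comp (fst.comp fst)) (snd.comp fst)
    · exact cp_comp hE ((snd.comp fst).pair snd)
  exact cp_and h1 (cp_and h2 h3)

theorem cp_Phi {E : ℕ → ℕ → Prop} (w : ℕ) (hE : ComputablePred fun p : ℕ × ℕ => E p.1 p.2) :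
    ComputablePred fun x : List (List ℕ) × List ℕ => Phi E w x.1 x.2 := by
  have h1 : ComputablePred fun x : List (List ℕ) × List ℕ => x.2.length = 0 :=
    cp_eq (list_length.comp snd) (const 0)
  have h2 : ComputablePred fun x : List (List ℕ) × List ℕ =>
      ∃ s : List ℕ, s.length = w ∧ (∀ y ∈ s, y ≤ x.1.length) ∧ G E x.1 s :=
    cp_tuple w (t := fun x : List (List ℕ) × List ℕ => x.1.length)
      (p := fun x s => G E x.1 s) (list_length.comp fst)
      (cp_comp (cp_G hE) ((fst.comp fst).pair snd))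
  have h3 : ComputablePred fun x : List (List ℕ) × List ℕ => x.2.length = w :=
    cp_eq (list_length.comp snd) (const w)
  have h4 : ComputablePred fun x : List (List ℕ) × List ℕ => ∀ y ∈ x.2, y ≤ x.1.length :=
    cp_ball_list (l := fun x : List (List ℕ) × List ℕ => x.2)
      (p := fun x y => y ≤ x.1.length) snd (cp_le snd (list_length.comp (fst.comp fst)))
  exact cp_or (cp_and h1 (cp_not h2)) (cp_and h3 (cp_and h4 (cp_G hE)))

theorem phi_ex (E : ℕ → ℕ → Prop) (w : ℕ) (l : List (List ℕ)) : ∃ a, Phi E w l a := by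
  by_cases h : ∃ s : List ℕ, s.length = w ∧ (∀ x ∈ s, x ≤ l.length) ∧ G E l s
  · obtain ⟨s, hs⟩ := h
    exact ⟨s, Or.inr hs⟩
  · exact ⟨[], Or.inl ⟨rfl, h⟩⟩

theorem exists_max : ∀ t : List ℕ, t ≠ [] → ∃ m ∈ t, ∀ x ∈ t, x ≤ m
  | [], h => absurd rfl h
  | [a], _ => ⟨a, by simp, by simp⟩
  | a :: b :: r, _ => by
    obtain ⟨m, hm, hm'⟩ := exists_max (b :: r) (by simp)
    rcases le_total a m with h | h
    · refine ⟨m, List.mem_cons_of_mem _ hm, fun x hx => ?_⟩
      rcases List.mem_cons.1 hx with rfl | hx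
      · exact h
      · exact hm' x hx
    · refine ⟨a, by simp, fun x hx => ?_⟩
      rcases List.mem_cons.1 hx with rfl | hx
      · exact le_rfl
      · exact (hm' x hx).trans h

theorem touch_self {E : ℕ → ℕ → Prop} (hs : ∀ x y, E x y → E y x) :
    ∀ s : List ℕ, 2 ≤ s.length → s.Pairwise E → ∀ m ∈ s, ∃ y ∈ s, E m y
  | [], h, _, _, _ => by simp at h
  | [_], h, _, _, _ => by simp at h
  | a :: b :: r, _, hp, m, hm => by
    rw [List.pairwise_cons] at hp
    rcases List.mem_cons.1 hm with rfl | hm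
    · exact ⟨b, by simp, hp.1 b (by simp)⟩
    · exact ⟨a, by simp, hs _ _ (hp.1 m hm)⟩

end CEN

open CEN in
theorem CEN_thm : Stmt_CEN := by
  intro E lt w hw hco hE
  have hsym : ∀ x y, E x y → E y x := fun x y h => by
    rw [hco.2.2] at h ⊢
    exact ⟨fun h' => h.1 h'.symm, h.2.2, h.2.1⟩
  obtain ⟨f, hf, hf'⟩ := rec_choice (cp_Phi w hE) (phi_ex E w)
  have hgood : ∀ n, (f n).length = w → (∀ x ∈ f n, x ≤ n) ∧ (f n).Pairwise E ∧ n ∈ f n ∧
      ∀ m, m < n → ∀ x ∈ f n, ¬ ∃ y ∈ f m, E x y := by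
    intro n hn
    rcases hf' n with h | h
    · have := h.1
      omega
    · obtain ⟨-, h1, h2, ⟨x, hx, hx'⟩, h4⟩ := h
      rw [hist_length] at h1 hx' h4
      subst hx'
      refine ⟨h1, h2, hx, fun m hm y hy => ?_⟩
      have := h4 m hm y hy
      rwa [hist_getD, if_pos hm] at this
  have hnot : ∀ n, (f n).length ≠ w → ((f n).length = 0) ∧ ∀ s : List ℕ, s.length = w →
      (∀ x ∈ s, x ≤ n) → s.Pairwise E → n ∈ s → ∃ m, m < n ∧ ∃ x ∈ s, ∃ y ∈ f m, E x y := by
    intro n hn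
    rcases hf' n with h | h
    · refine ⟨h.1, fun s hs hs1 hs2 hs3 => ?_⟩
      by_contra hcon
      refine h.2 ⟨s, hs, ?_, hs2, ⟨n, hs3, ?_⟩, ?_⟩
      · rwa [hist_length]
      · rw [hist_length]
      · rw [hist_length]
        intro m hm x hx hy
        rw [hist_getD, if_pos hm] at hy
        exact hcon ⟨m, hm, x, hx, hy⟩
    · exact absurd h.1 hn
  refine ⟨fun n => (f n).length = w, f, cp_eq (Computable.list_length.comp hf)
    (Computable.const w), hf, ?_⟩
  have hap : ∀ m m', (f m).length = w → (f m').length = w → m < m' →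
      ∀ x ∈ f m, ∀ y ∈ f m', ¬ E x y := by
    intro m m' _ hm' hlt x hx y hy hxy
    exact (hgood m' hm').2.2.2 m hlt y hy ⟨x, hx, hsym _ _ hxy⟩
  refine ⟨fun m hm => ⟨hm, (hgood m hm).2.1⟩, fun m hm => (hgood m hm).1,
    fun m hm => (hgood m hm).2.2.1, ?_, ?_⟩
  · intro m m' hm hm' hne x hx ⟨y, hy, hxy⟩
    rcases lt_or_gt_of_ne hne with h | h
    · exact hap m m' hm hm' h x hx y hy hxy
    · exact hap m' m hm' hm h y hy x hx (hsym _ _ hxy)
  · intro n t ht htn
    have htne : t ≠ [] := by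
      intro h
      have := ht.1
      rw [h, List.length_nil] at this
      omega
    obtain ⟨m₀, hm₀, hmax⟩ := exists_max t htne
    by_cases hc : (f m₀).length = w
    · refine ⟨m₀, htn m₀ hm₀, hc, m₀, hm₀, ?_⟩
      exact touch_self hsym (f m₀) (by omega) (hgood m₀ hc).2.1 m₀ (hgood m₀ hc).2.2.1
    · obtain ⟨m, hm, x, hx, y, hy, hxy⟩ := (hnot m₀ hc).2 t ht.1 hmax ht.2 hm₀
      have hmw : (f m).length = w := by
        by_contra h
        have h0 := (hnot m h).1
        rw [List.length_eq_zero_iff] at h0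
        rw [h0] at hy
        simp at hy
      exact ⟨m, (hm.trans_le (htn m₀ hm₀)).le, hmw, x, hx, y, hy, hxy⟩

end Pool.Agent.CCG
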