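import Pool.Agent.CCG.Stmts

/-!
# CLQ: no class of one step contains a maximum clique
-/

namespace Pool.Agent.CCG

namespace CLQ

section

variable {E lt : ℕ → ℕ → Prop} {w : ℕ} {isC : ℕ → Prop} {ce : ℕ → List ℕ}
  {κ γ idx ℓ lam : ℕ → ℕ}

theorem E_symm (h : CoComp E lt) : ∀ x y, E x y → E y x := by
  intro x y hxy
  obtain ⟨_, _, h3⟩ := h
  rw [h3] at hxy ⊢
  exact ⟨hxy.1.symm, hxy.2.2, hxy.2.1⟩

theorem cls_A {v : ℕ} (hv : Z0 E isC ce v) :
    cls E w isC ce κ γ idx ℓ lam v = 1 + (ℓ v * w + idx v) := by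
  unfold cls
  rw [if_pos hv]

theorem cls_B {v : ℕ} (hv : ¬ Z0 E isC ce v) (h2 : ∃ m, Nb E isC ce v m ∧ m ≠ κ v) :
    cls E w isC ce κ γ idx ℓ lam v = 1 + 211 * w + (ℓ v * 4 + lam (γ v)) := by
  unfold cls
  rw [if_neg hv, if_pos h2]

theorem cls_C {v : ℕ} (hv : ¬ Z0 E isC ce v) (h2 : ¬ ∃ m, Nb E isC ce v m ∧ m ≠ κ v)
    (h1 : ∃ m, Nb E isC ce v m) :
    cls E w isC ce κ γ idx ℓ lam v = 1 + 211 * w + (ℓ v * 4 + 3) := by
  unfold cls
  rw [if_neg hv, if_neg h2, if_pos h1]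

theorem cls_D {v : ℕ} (hv : ¬ Z0 E isC ce v) (h2 : ¬ ∃ m, Nb E isC ce v m ∧ m ≠ κ v)
    (h1 : ¬ ∃ m, Nb E isC ce v m) :
    cls E w isC ce κ γ idx ℓ lam v = 0 := by
  unfold cls
  rw [if_neg hv, if_neg h2, if_neg h1]

theorem A_le (S : StepData E w isC ce κ γ idx ℓ lam) {v : ℕ} (hv : Z0 E isC ce v) :
    1 + (ℓ v * w + idx v) ≤ 211 * w := by
  have h1 := S.lab_le v
  have h2 := (S.idx v hv).1
  have h3 : ℓ v * w ≤ 210 * w := Nat.mul_le_mul_right w h1
  omega

/-- The four kinds of vertices. -/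
theorem kinds (κ : ℕ → ℕ) (v : ℕ) : Z0 E isC ce v ∨
    (¬ Z0 E isC ce v ∧ ∃ m, Nb E isC ce v m ∧ m ≠ κ v) ∨
    (¬ Z0 E isC ce v ∧ (¬ ∃ m, Nb E isC ce v m ∧ m ≠ κ v) ∧ ∃ m, Nb E isC ce v m) ∨
    (¬ Z0 E isC ce v ∧ (¬ ∃ m, Nb E isC ce v m ∧ m ≠ κ v) ∧ ¬ ∃ m, Nb E isC ce v m) := by
  by_cases h0 : Z0 E isC ce v
  · exact Or.inl h0
  · by_cases h2 : ∃ m, Nb E isC ce v m ∧ m ≠ κ v
    · exact Or.inr (Or.inl ⟨h0, h2⟩)
    · by_cases h1 : ∃ m, Nb E isC ce v m
      · exact Or.inr (Or.inr (Or.inl ⟨h0, h2, h1⟩))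
      · exact Or.inr (Or.inr (Or.inr ⟨h0, h2, h1⟩))

theorem cls_lt (S : StepData E w isC ce κ γ idx ℓ lam) (v : ℕ) :
    cls E w isC ce κ γ idx ℓ lam v < 211 * (w + 4) + 1 := by
  have h1 := S.lab_le v
  rcases kinds (E := E) (isC := isC) (ce := ce) κ v with h | h | h | h
  · rw [cls_A h]
    have := A_le S h
    omega
  · rw [cls_B h.1 h.2]
    have := S.lam_le (γ v)
    omega
  · rw [cls_C h.1 h.2.1 h.2.2]
    omega
  · rw [cls_D h.1 h.2.1 h.2.2]
    omega

theorem pair_eq {a b i j w : ℕ} (hi : i < w) (hj : j < w) (h : a * w + i = b * w + j) :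
    a = b ∧ i = j := by
  have hw : 0 < w := by omega
  have h1 : (i + a * w) / w = a := by
    rw [Nat.add_mul_div_right _ _ hw, Nat.div_eq_of_lt hi]; omega
  have h2 : (j + b * w) / w = b := by
    rw [Nat.add_mul_div_right _ _ hw, Nat.div_eq_of_lt hj]; omega
  have h3 : i + a * w = j + b * w := by omega
  have hab : a = b := by rw [← h1, ← h2, h3]
  subst hab
  exact ⟨rfl, by omega⟩

theorem no_clique (h : Stmt_NB2) (hw : 2 ≤ w) (hco : CoComp E lt) (hnb : NoBig E w)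
    (S : StepData E w isC ce κ γ idx ℓ lam) (t : List ℕ) (ht : Cl E w t) (k : ℕ)
    (hk : ∀ x ∈ t, cls E w isC ce κ γ idx ℓ lam x = k) : False := by
  have hsym := E_symm hco
  obtain ⟨htl, htp⟩ := ht
  have hadj : ∀ x ∈ t, ∀ y ∈ t, x ≠ y → E x y := by
    intro x hx y hy hxy
    have : Std.Symm E := ⟨hsym⟩
    exact htp.forall hx hy hxy
  have hne : t.toFinset.Nonempty := by
    rw [List.toFinset_nonempty_iff]
    intro h0
    rw [h0] at htl
    simp at htl
    omega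
  obtain ⟨d, hd0, hmax0⟩ := t.toFinset.exists_max_image id hne
  have hd : d ∈ t := List.mem_toFinset.mp hd0
  have hmax : ∀ x ∈ t, x ≤ d := fun x hx => hmax0 x (List.mem_toFinset.mpr hx)
  have hlt : ∀ x ∈ t, x ≠ d → x < d ∧ E d x := by
    intro x hx hxd
    exact ⟨lt_of_le_of_ne (hmax x hx) hxd, hadj d hd x hx (Ne.symm hxd)⟩
  obtain ⟨m, hmd, hmC, x, hx, hTx⟩ := S.cen.meets d t ⟨htl, htp⟩ hmax
  have hkd := hk d hd
  -- if `x ≠ d` then `m` is a centre at distance two from `d`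
  have hNb : x ≠ d → Nb E isC ce d m := by
    intro hxd
    exact ⟨hmd, hmC, x, (hlt x hx hxd).1, (hlt x hx hxd).2, hTx⟩
  have hZd : x = d → Z0 E isC ce d := by
    intro hxd
    exact ⟨m, hmd, hmC, hxd ▸ hTx⟩
  rcases kinds (E := E) (isC := isC) (ce := ce) κ d with hA | hB | hC | hD
  · -- all members touch a common vertex of one centre
    rw [cls_A hA] at hkd
    have hk1 := A_le S hA
    have hall : ∀ y ∈ t, Z0 E isC ce y ∧ ℓ y = ℓ d ∧ idx y = idx d := by
      intro y hy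
      have hky := hk y hy
      rcases kinds (E := E) (isC := isC) (ce := ce) κ y with h' | h' | h' | h'
      · rw [cls_A h'] at hky
        have := pair_eq (S.idx y h').1 (S.idx d hA).1
          (by omega : ℓ y * w + idx y = ℓ d * w + idx d)
        exact ⟨h', this.1, this.2⟩
      · rw [cls_B h'.1 h'.2] at hky
        omega
      · rw [cls_C h'.1 h'.2.1 h'.2.2] at hky
        omega
      · rw [cls_D h'.1 h'.2.1 h'.2.2] at hky
        omega
    have hkap : ∀ y ∈ t, κ y = κ d := by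
      intro y hy
      by_cases hyd : y = d
      · rw [hyd]
      · by_contra hne'
        exact S.lab y d (Or.inl (hall y hy).1) (Or.inl hA) (hadj y hy d hd hyd) hne'
          (hall y hy).2.1
    apply hnb (((ce (κ d)).getD (idx d) 0) :: t)
    refine ⟨by simp [htl], List.pairwise_cons.mpr ⟨?_, htp⟩⟩
    intro y hy
    have h1 := (S.idx y (hall y hy).1).2
    rw [hkap y hy, (hall y hy).2.2] at h1
    exact hsym _ _ h1
  · -- second kind
    have hxd : x ≠ d := fun e => hB.1 (hZd e)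
    rw [cls_B hB.1 hB.2] at hkd
    have hld := S.lam_le (γ d)
    have hall : ∀ y ∈ t, ¬ Z0 E isC ce y ∧ (∃ m, Nb E isC ce y m ∧ m ≠ κ y) ∧ ℓ y = ℓ d ∧
        lam (γ y) = lam (γ d) := by
      intro y hy
      have hky := hk y hy
      rcases kinds (E := E) (isC := isC) (ce := ce) κ y with h' | h' | h' | h'
      · rw [cls_A h'] at hky
        have := A_le S h'
        omega
      · rw [cls_B h'.1 h'.2] at hky
        have := S.lam_le (γ y)
        exact ⟨h'.1, h'.2, by omega, by omega⟩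
      · rw [cls_C h'.1 h'.2.1 h'.2.2] at hky
        omega
      · rw [cls_D h'.1 h'.2.1 h'.2.2] at hky
        omega
    have hP1 : ∀ y ∈ t, ∃ m, Nb E isC ce y m := by
      intro y hy
      obtain ⟨_, ⟨m', hm', _⟩, _⟩ := hall y hy
      exact ⟨m', hm'⟩
    have hkx : κ x = κ d := by
      by_contra hne'
      exact S.lab x d (Or.inr (hP1 x hx)) (Or.inr (hP1 d hd)) (hadj x hx d hd hxd) hne'
        (hall x hx).2.2.1
    have hNA : Nb E isC ce x (κ d) := by
      have := S.kap1 x (hall x hx).1 (hP1 x hx)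
      rwa [hkx] at this
    have hnA : ∀ B, T E x (ce B) → B ≠ κ d := by
      intro B hB' hBe
      apply (hall x hx).1
      exact ⟨κ d, hNA.1, hNA.2.1, hBe ▸ hB'⟩
    have hNd := S.kap1 d hB.1 (hP1 d hd)
    obtain ⟨hg1, hg2⟩ := S.gam d hB.1 hB.2
    have huniq : ∀ B, B ≤ m → isC B → T E x (ce B) → B = γ d := by
      intro B hBm hBC hBT
      have hN : Nb E isC ce d B :=
        ⟨le_trans hBm hmd, hBC, x, (hlt x hx hxd).1, (hlt x hx hxd).2, hBT⟩
      rcases h E lt w isC ce hw hco hnb S.cen d hB.1 B (κ d) (γ d) hN hNd hg1 with e | e | e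
      · exact absurd e (hnA B hBT)
      · exact e
      · exact absurd e.symm hg2
    have hmg : m = γ d := huniq m le_rfl hmC hTx
    have hxm : x < m := by
      by_contra hle
      exact (hall x hx).1 ⟨m, by omega, hmC, hTx⟩
    apply S.lam m x hmC hxm (hall x hx).1 (hall x hx).2.1 hTx
    · intro B hBm hBC hBT
      rw [huniq B hBm hBC hBT, hmg]
    · rw [hmg, (hall x hx).2.2.2]
  · -- third kind
    have hxd : x ≠ d := fun e => hC.1 (hZd e)
    rw [cls_C hC.1 hC.2.1 hC.2.2] at hkd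
    have hall : ∀ y ∈ t, ¬ Z0 E isC ce y ∧ (∃ m, Nb E isC ce y m) ∧ ℓ y = ℓ d := by
      intro y hy
      have hky := hk y hy
      rcases kinds (E := E) (isC := isC) (ce := ce) κ y with h' | h' | h' | h'
      · rw [cls_A h'] at hky
        have := A_le S h'
        omega
      · rw [cls_B h'.1 h'.2] at hky
        have := S.lam_le (γ y)
        omega
      · rw [cls_C h'.1 h'.2.1 h'.2.2] at hky
        exact ⟨h'.1, h'.2.2, by omega⟩
      · rw [cls_D h'.1 h'.2.1 h'.2.2] at hky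
        omega
    have hkx : κ x = κ d := by
      by_contra hne'
      exact S.lab x d (Or.inr (hall x hx).2.1) (Or.inr (hall d hd).2.1) (hadj x hx d hd hxd) hne'
        (hall x hx).2.2
    have hNA : Nb E isC ce x (κ d) := by
      have := S.kap1 x (hall x hx).1 (hall x hx).2.1
      rwa [hkx] at this
    apply hC.2.1
    refine ⟨m, hNb hxd, ?_⟩
    intro hme
    exact (hall x hx).1 ⟨κ d, hNA.1, hNA.2.1, hme ▸ hTx⟩
  · -- class zero
    by_cases hxd : x = d
    · exact hD.1 (hZd hxd)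
    · exact hD.2.2 ⟨m, hNb hxd⟩

end

end CLQ

/-- No class contains a `w`-clique. -/
theorem CLQ_thm (h : Stmt_NB2) : Stmt_CLQ := by
  intro E lt w isC ce κ γ idx ℓ lam hw hco hnb S
  exact ⟨fun v => CLQ.cls_lt S v, fun t ht k hk => CLQ.no_clique h hw hco hnb S t ht k hk⟩

end Pool.Agent.CCG
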