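import Pool.Agent.CCG.Stmts

/-!
# DEG: a cluster is joined to at most 14 other clusters
-/

set_option autoImplicit false

namespace Pool.Agent.CCG

namespace DEG

/-- All members of `s` are below all members of `t`. -/
def LL (lt : ℕ → ℕ → Prop) (s t : List ℕ) : Prop := ∀ x ∈ s, ∀ y ∈ t, lt x y

section Basic

variable {E lt : ℕ → ℕ → Prop} {w : ℕ} {isC : ℕ → Prop} {ce : ℕ → List ℕ}

theorem not_lt (h : CoComp E lt) {x y : ℕ} (hxy : E x y) : ¬ lt x y := ((h.2.2 x y).mp hxy).2.1

theorem not_gt (h : CoComp E lt) {x y : ℕ} (hxy : E x y) : ¬ lt y x := ((h.2.2 x y).mp hxy).2.2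

theorem LL_trans (h : CoComp E lt) (hC : Centres E w isC ce) {a b c : ℕ} (hb : isC b)
    (h1 : LL lt (ce a) (ce b)) (h2 : LL lt (ce b) (ce c)) : LL lt (ce a) (ce c) :=
  fun x hx y hy => h.2.1 x b y (h1 x hx b (hC.mem b hb)) (h2 b (hC.mem b hb) y hy)

theorem total (hO : Stmt_ORD) (hw : 2 ≤ w) (h : CoComp E lt) (hN : NoBig E w)
    (hC : Centres E w isC ce) {a b : ℕ} (ha : isC a) (hb : isC b) (hab : a ≠ b) :
    LL lt (ce a) (ce b) ∨ LL lt (ce b) (ce a) := by
  rcases (hO E lt w hw h hN).2.2 (ce a) (ce b) (hC.clique a ha) (hC.clique b hb)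
    (hC.apart a b ha hb hab) with h1 | h1
  · exact Or.inl h1
  · exact Or.inr fun x hx y hy => h1 y hy x hx

theorem chain3 (hO : Stmt_ORD) (hw : 2 ≤ w) (h : CoComp E lt) (hN : NoBig E w)
    (hC : Centres E w isC ce) {v a b c : ℕ} (hb : isC b) (h1 : LL lt (ce a) (ce b))
    (h2 : LL lt (ce b) (ce c)) (ta : T E v (ce a)) (tc : T E v (ce c)) : False := by
  obtain ⟨p, hp, hvp⟩ := ta
  obtain ⟨q, hq, hvq⟩ := tc
  exact (hO E lt w hw h hN).1 (ce b) p q v (hC.clique b hb) (fun x hx => h1 p hp x hx)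
    (fun x hx => h2 x hx q hq) hvp hvq

/-- A vertex touches at most two centres. -/
theorem card_two (hO : Stmt_ORD) (hw : 2 ≤ w) (h : CoComp E lt) (hN : NoBig E w)
    (hC : Centres E w isC ce) {v : ℕ} {S : Finset ℕ} (hS : ∀ b ∈ S, isC b ∧ T E v (ce b)) :
    S.card ≤ 2 := by
  by_contra hcard
  have hcard' : 2 < S.card := not_le.mp hcard
  obtain ⟨a, ha, b, hb, c, hc, hab, hac, hbc⟩ := Finset.two_lt_card.mp hcard'
  obtain ⟨ca, ta⟩ := hS a ha
  obtain ⟨cb, tb⟩ := hS b hb
  obtain ⟨cc, tc⟩ := hS c hc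
  rcases total hO hw h hN hC ca cb hab with h1 | h1
  · rcases total hO hw h hN hC cb cc hbc with h2 | h2
    · exact chain3 hO hw h hN hC cb h1 h2 ta tc
    · rcases total hO hw h hN hC ca cc hac with h3 | h3
      · exact chain3 hO hw h hN hC cc h3 h2 ta tb
      · exact chain3 hO hw h hN hC ca h3 h1 tc tb
  · rcases total hO hw h hN hC cb cc hbc with h2 | h2
    · rcases total hO hw h hN hC ca cc hac with h3 | h3
      · exact chain3 hO hw h hN hC ca h1 h3 tb tc
      · exact chain3 hO hw h hN hC cc h2 h3 tb ta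
    · exact chain3 hO hw h hN hC cb h2 h1 tc ta

/-- The greatest centre of a finite set. -/
theorem exists_max (hO : Stmt_ORD) (hw : 2 ≤ w) (h : CoComp E lt) (hN : NoBig E w)
    (hC : Centres E w isC ce) (S : Finset ℕ) :
    (∀ b ∈ S, isC b) → S.Nonempty → ∃ m ∈ S, ∀ b ∈ S, b ≠ m → LL lt (ce b) (ce m) := by
  classical
  induction S using Finset.induction_on with
  | empty =>
    intro _ hne
    exact absurd hne Finset.not_nonempty_empty
  | insert a s ha ih =>
    intro hS _
    have hca : isC a := hS a (Finset.mem_insert_self a s)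
    have hs : ∀ b ∈ s, isC b := fun b hb => hS b (Finset.mem_insert_of_mem hb)
    rcases s.eq_empty_or_nonempty with rfl | hne
    · refine ⟨a, Finset.mem_insert_self _ _, ?_⟩
      intro b hb hba
      rcases Finset.mem_insert.mp hb with h1 | h1
      · exact absurd h1 hba
      · exact absurd h1 (Finset.notMem_empty b)
    · obtain ⟨m, hm, hmax⟩ := ih hs hne
      have ham : a ≠ m := by
        rintro rfl
        exact ha hm
      rcases total hO hw h hN hC hca (hs m hm) ham with h1 | h1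
      · refine ⟨m, Finset.mem_insert_of_mem hm, ?_⟩
        intro b hb hbm
        rcases Finset.mem_insert.mp hb with rfl | h2
        · exact h1
        · exact hmax b h2 hbm
      · refine ⟨a, Finset.mem_insert_self _ _, ?_⟩
        intro b hb hba
        rcases Finset.mem_insert.mp hb with h2 | h2
        · exact absurd h2 hba
        · by_cases hbm : b = m
          · rw [hbm]
            exact h1
          · exact LL_trans h hC (hs m hm) (hmax b h2 hbm) h1

/-- The path lemma. -/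
theorem path (hO : Stmt_ORD) (hw : 2 ≤ w) (h : CoComp E lt) (hN : NoBig E w)
    (hC : Centres E w isC ce) {A A' B v u x1 x4 : ℕ} (hB : isC B)
    (h1 : LL lt (ce A) (ce B)) (h2 : LL lt (ce B) (ce A')) (hvu : E v u)
    (t1 : T E x1 (ce A)) (e1 : x1 = v ∨ E v x1) (t4 : T E x4 (ce A')) (e4 : x4 = u ∨ E u x4) :
    T E x1 (ce B) ∨ T E v (ce B) ∨ T E u (ce B) ∨ T E x4 (ce B) := by
  by_contra hcon
  rw [not_or, not_or, not_or] at hcon
  obtain ⟨n1, nv, nu, n4⟩ := hcon
  have hb := hC.mem B hB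
  have ord := fun z hz => (hO E lt w hw h hN).2.1 (ce B) z (hC.clique B hB) hz
  -- `x1` is below `B`
  have b1 : lt x1 B := by
    rcases ord x1 n1 with h3 | h3
    · exact h3 B hb
    · obtain ⟨a, ha, hxa⟩ := t1
      exact absurd (h.2.1 a B x1 (h1 a ha B hb) (h3 B hb)) (not_gt h hxa)
  have bv : lt v B := by
    rcases ord v nv with h3 | h3
    · exact h3 B hb
    · rcases e1 with rfl | e1
      · exact b1
      · exact absurd (h.2.1 x1 B v b1 (h3 B hb)) (not_gt h e1)
  have b4 : lt B x4 := by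
    rcases ord x4 n4 with h3 | h3
    · obtain ⟨a, ha, hxa⟩ := t4
      exact absurd (h.2.1 x4 B a (h3 B hb) (h2 B hb a ha)) (not_lt h hxa)
    · exact h3 B hb
  have bu : lt B u := by
    rcases ord u nu with h3 | h3
    · rcases e4 with rfl | e4
      · exact b4
      · exact absurd (h.2.1 u B x4 (h3 B hb) b4) (not_lt h e4)
    · exact h3 B hb
  exact not_lt h hvu (h.2.1 v B u bv bu)

theorem anch_choose {v m : ℕ} (hA : Anch E ce v m) :
    ∃ x, T E x (ce m) ∧ (x = v ∨ E v x) := by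
  rcases hA with h1 | ⟨f, h1, h2⟩
  · exact ⟨v, h1, Or.inl rfl⟩
  · exact ⟨f, h2, Or.inr h1⟩

/-- The clusters on one side. -/
theorem half (hO : Stmt_ORD) (hw : 2 ≤ w) (h : CoComp E lt) (hN : NoBig E w)
    (hC : Centres E w isC ce) {act : ℕ → Prop} {κ : ℕ → ℕ}
    (hact : ∀ v, act v → isC (κ v) ∧ Anch E ce v (κ v)) {A : ℕ} {F : Finset ℕ}
    (hF : ∀ B ∈ F, Conf E act κ A B ∧ LL lt (ce A) (ce B)) : F.card ≤ 7 := by
  classical
  rcases F.eq_empty_or_nonempty with rfl | hne
  · simp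
  have hFC : ∀ B ∈ F, isC B := by
    intro B hB
    obtain ⟨_, x, y, _, hy, _, rfl, _⟩ := (hF B hB).1
    exact (hact y hy).1
  obtain ⟨A', hA', hmax⟩ := exists_max hO hw h hN hC F hFC hne
  obtain ⟨⟨_, v, u, hv, hu, hκv, hκu, hvu⟩, hAA'⟩ := hF A' hA'
  obtain ⟨hcA, anA⟩ := hact v hv
  obtain ⟨hcA', anA'⟩ := hact u hu
  rw [hκv] at hcA anA
  rw [hκu] at hcA' anA'
  obtain ⟨x1, t1, e1⟩ := anch_choose anA
  obtain ⟨x4, t4, e4⟩ := anch_choose anA'
  set S := F.erase A' with hS
  have hSF : ∀ B ∈ S, B ∈ F := fun B hB => Finset.mem_of_mem_erase hB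
  have hSC : ∀ B ∈ S, isC B := fun B hB => hFC B (hSF B hB)
  have hSA : ∀ B ∈ S, LL lt (ce A) (ce B) := fun B hB => (hF B (hSF B hB)).2
  have hSA' : ∀ B ∈ S, LL lt (ce B) (ce A') :=
    fun B hB => hmax B (hSF B hB) (Finset.ne_of_mem_erase hB)
  have c1 : (S.filter fun B => T E x1 (ce B)).card ≤ 1 := by
    rw [Finset.card_le_one]
    intro a ha b hb
    by_contra hab
    rw [Finset.mem_filter] at ha hb
    rcases total hO hw h hN hC (hSC a ha.1) (hSC b hb.1) hab with h3 | h3
    · exact chain3 hO hw h hN hC (hSC a ha.1) (hSA a ha.1) h3 t1 hb.2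
    · exact chain3 hO hw h hN hC (hSC b hb.1) (hSA b hb.1) h3 t1 ha.2
  have c4 : (S.filter fun B => T E x4 (ce B)).card ≤ 1 := by
    rw [Finset.card_le_one]
    intro a ha b hb
    by_contra hab
    rw [Finset.mem_filter] at ha hb
    rcases total hO hw h hN hC (hSC a ha.1) (hSC b hb.1) hab with h3 | h3
    · exact chain3 hO hw h hN hC (hSC b hb.1) h3 (hSA' b hb.1) ha.2 t4
    · exact chain3 hO hw h hN hC (hSC a ha.1) h3 (hSA' a ha.1) hb.2 t4
  have cv : (S.filter fun B => T E v (ce B)).card ≤ 2 := by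
    apply card_two hO hw h hN hC (v := v)
    intro b hb
    rw [Finset.mem_filter] at hb
    exact ⟨hSC b hb.1, hb.2⟩
  have cu : (S.filter fun B => T E u (ce B)).card ≤ 2 := by
    apply card_two hO hw h hN hC (v := u)
    intro b hb
    rw [Finset.mem_filter] at hb
    exact ⟨hSC b hb.1, hb.2⟩
  have hsub : S ⊆ (S.filter fun B => T E x1 (ce B)) ∪ ((S.filter fun B => T E v (ce B)) ∪
      ((S.filter fun B => T E u (ce B)) ∪ (S.filter fun B => T E x4 (ce B)))) := by
    intro B hB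
    rw [Finset.mem_union, Finset.mem_union, Finset.mem_union, Finset.mem_filter,
      Finset.mem_filter, Finset.mem_filter, Finset.mem_filter]
    rcases path hO hw h hN hC (hSC B hB) (hSA B hB) (hSA' B hB) hvu t1 e1 t4 e4 with
      h3 | h3 | h3 | h3
    · exact Or.inl ⟨hB, h3⟩
    · exact Or.inr (Or.inl ⟨hB, h3⟩)
    · exact Or.inr (Or.inr (Or.inl ⟨hB, h3⟩))
    · exact Or.inr (Or.inr (Or.inr ⟨hB, h3⟩))
  have h5 := Finset.card_le_card hsub
  have h6 := Finset.card_union_le (S.filter fun B => T E x1 (ce B))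
    ((S.filter fun B => T E v (ce B)) ∪
      ((S.filter fun B => T E u (ce B)) ∪ (S.filter fun B => T E x4 (ce B))))
  have h7 := Finset.card_union_le (S.filter fun B => T E v (ce B))
      ((S.filter fun B => T E u (ce B)) ∪ (S.filter fun B => T E x4 (ce B)))
  have h8 := Finset.card_union_le (S.filter fun B => T E u (ce B))
    (S.filter fun B => T E x4 (ce B))
  have h9 : S.card + 1 = F.card := Finset.card_erase_add_one hA'
  omega

end Basic

end DEG

open DEG in
theorem DEG_thm (hO : Stmt_ORD) : Stmt_DEG := by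
  classical
  intro E lt w isC ce act κ hw h hN hC hact A F hF
  have h' : CoComp E (fun x y => lt y x) := by
    refine ⟨h.1, fun x y z h1 h2 => h.2.1 z y x h2 h1, fun x y => ?_⟩
    rw [h.2.2]
    exact ⟨fun h1 => ⟨h1.1, h1.2.2, h1.2.1⟩, fun h1 => ⟨h1.1, h1.2.2, h1.2.1⟩⟩
  have c1 : (F.filter fun B => LL lt (ce A) (ce B)).card ≤ 7 := by
    apply half hO hw h hN hC hact (A := A)
    intro B hB
    rw [Finset.mem_filter] at hB
    exact ⟨hF B hB.1, hB.2⟩
  have c2 : (F.filter fun B => ¬ LL lt (ce A) (ce B)).card ≤ 7 := by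
    apply half hO hw h' hN hC hact (A := A)
    intro B hB
    rw [Finset.mem_filter] at hB
    have hc := hF B hB.1
    refine ⟨hc, ?_⟩
    obtain ⟨hAB, x, y, hx, hy, hκx, hκy, _⟩ := hc
    have hA1 : isC A := hκx ▸ (hact x hx).1
    have hB1 : isC B := hκy ▸ (hact y hy).1
    rcases total hO hw h hN hC hA1 hB1 hAB with h3 | h3
    · exact absurd h3 hB.2
    · exact fun a ha b hb => h3 b hb a ha
  have h3 := Finset.card_filter_add_card_filter_not (s := F) (fun B => LL lt (ce A) (ce B))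
  omega

end Pool.Agent.CCG
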