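import Pool.Agent.CCG.Stmts

/-!
# MP_a65679_lc, module ORD: a maximum clique separates what lies below it from what lies above it
-/

namespace Pool.Agent.CCG.ORD

variable {E lt : ℕ → ℕ → Prop} {w : ℕ}

/-- The co-comparability graph is symmetric. -/
theorem esymm (h : CoComp E lt) {x y : ℕ} (hxy : E x y) : E y x := by
  have h1 := (h.2.2 x y).1 hxy
  exact (h.2.2 y x).2 ⟨fun e => h1.1 e.symm, h1.2.2, h1.2.1⟩

/-- Two members of a clique are equal or adjacent. -/
theorem mem2 (h : CoComp E lt) : ∀ {t : List ℕ}, t.Pairwise E → ∀ {x y : ℕ}, x ∈ t → y ∈ t →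
    x = y ∨ E x y := by
  intro t
  induction t with
  | nil =>
    intro _ x y hx _
    cases hx
  | cons a t ih =>
    intro ht x y hx hy
    rw [List.pairwise_cons] at ht
    rcases List.mem_cons.1 hx with hxa | hxt
    · rcases List.mem_cons.1 hy with hya | hyt
      · left
        rw [hxa, hya]
      · right
        rw [hxa]
        exact ht.1 y hyt
    · rcases List.mem_cons.1 hy with hya | hyt
      · right
        rw [hya]
        exact esymm h (ht.1 x hxt)
      · exact ih ht.2 hxt hyt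

/-- Vertices which are different and not adjacent are comparable. -/
theorem comp (h : CoComp E lt) {x y : ℕ} (hne : x ≠ y) (hxy : ¬ E x y) : lt x y ∨ lt y x := by
  by_contra hc
  exact hxy ((h.2.2 x y).2 ⟨hne, fun h1 => hc (Or.inl h1), fun h1 => hc (Or.inr h1)⟩)

/-- Adjacent vertices are not comparable. -/
theorem not_lt (h : CoComp E lt) {x y : ℕ} (hxy : E x y) : ¬ lt x y :=
  ((h.2.2 x y).1 hxy).2.1

/-- Every member of a clique with at least two elements is adjacent to a member. -/
theorem ex_adj (h : CoComp E lt) (hw : 2 ≤ w) {B : List ℕ} (hB : Cl E w B) {v : ℕ}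
    (hv : v ∈ B) : ∃ x ∈ B, E v x := by
  obtain ⟨hl, hp⟩ := hB
  match B, hl, hp, hv with
  | [], hl, _, _ =>
    simp only [List.length_nil] at hl
    omega
  | [a], hl, _, _ =>
    simp only [List.length_cons, List.length_nil] at hl
    omega
  | a :: b :: t, _, hp, hv =>
    rw [List.pairwise_cons] at hp
    by_cases hva : v = a
    · refine ⟨b, by simp, ?_⟩
      rw [hva]
      exact hp.1 b (by simp)
    · refine ⟨a, by simp, ?_⟩
      have hvt : v ∈ b :: t := by
        rcases List.mem_cons.1 hv with h1 | h1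
        · exact absurd h1 hva
        · exact h1
      exact esymm h (hp.1 v hvt)

/-- A maximum clique between `p` and `q` separates them. -/
theorem partA (h : CoComp E lt) (hN : NoBig E w) (B : List ℕ) (p q f : ℕ)
    (hB : Cl E w B) (hp : ∀ x ∈ B, lt p x) (hq : ∀ x ∈ B, lt x q) (hfp : E f p) (hfq : E f q) :
    False := by
  have hpf : ¬ lt p f := not_lt h (esymm h hfp)
  have hfq' : ¬ lt f q := not_lt h hfq
  have hadj : ∀ x ∈ B, E f x := by
    intro x hx
    by_contra hne
    have hxf : f ≠ x := by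
      intro hfx
      exact hpf (hfx ▸ hp x hx)
    rcases comp h hxf hne with h1 | h1
    · exact hfq' (h.2.1 f x q h1 (hq x hx))
    · exact hpf (h.2.1 p x f (hp x hx) h1)
  refine hN (f :: B) ⟨?_, ?_⟩
  · rw [List.length_cons, hB.1]
  · rw [List.pairwise_cons]
    exact ⟨hadj, hB.2⟩

/-- A vertex which does not touch a clique lies below it or above it. -/
theorem partB (h : CoComp E lt) (hw : 2 ≤ w) (B : List ℕ) (v : ℕ) (hB : Cl E w B)
    (hv : ¬ T E v B) : (∀ x ∈ B, lt v x) ∨ (∀ x ∈ B, lt x v) := by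
  have hvB : v ∉ B := fun hm => hv (ex_adj h hw hB hm)
  have hc : ∀ x ∈ B, lt v x ∨ lt x v := by
    intro x hx
    refine comp h (fun e => hvB (e ▸ hx)) (fun he => hv ⟨x, hx, he⟩)
  by_contra hcon
  have h1 : ∃ y ∈ B, lt y v := by
    by_contra hno
    refine hcon (Or.inl fun x hx => ?_)
    rcases hc x hx with h2 | h2
    · exact h2
    · exact absurd ⟨x, hx, h2⟩ hno
  have h2 : ∃ x ∈ B, lt v x := by
    by_contra hno
    refine hcon (Or.inr fun x hx => ?_)
    rcases hc x hx with h2 | h2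
    · exact absurd ⟨x, hx, h2⟩ hno
    · exact h2
  obtain ⟨y, hy, hyv⟩ := h1
  obtain ⟨x, hx, hvx⟩ := h2
  have hyx : lt y x := h.2.1 y v x hyv hvx
  rcases mem2 h hB.2 hy hx with h3 | h3
  · rw [h3] at hyx
    exact h.1 x hyx
  · exact not_lt h h3 hyx

/-- Two cliques without edges between them are ordered. -/
theorem partC (h : CoComp E lt) (hw : 2 ≤ w) (A B : List ℕ) (hA : Cl E w A) (hB : Cl E w B)
    (hAB : ∀ x ∈ A, ¬ T E x B) :
    (∀ x ∈ A, ∀ y ∈ B, lt x y) ∨ (∀ x ∈ A, ∀ y ∈ B, lt y x) := by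
  have hb : ∃ b, b ∈ B := by
    match B, hB.1 with
    | [], hl =>
      simp only [List.length_nil] at hl
      omega
    | a :: t, _ => exact ⟨a, by simp⟩
  obtain ⟨b, hb⟩ := hb
  by_contra hcon
  have h1 : ∃ x ∈ A, ∀ y ∈ B, lt x y := by
    by_contra hno
    refine hcon (Or.inr fun x hx => ?_)
    rcases partB h hw B x hB (hAB x hx) with h2 | h2
    · exact absurd ⟨x, hx, h2⟩ hno
    · exact h2
  have h2 : ∃ x ∈ A, ∀ y ∈ B, lt y x := by
    by_contra hno
    refine hcon (Or.inl fun x hx => ?_)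
    rcases partB h hw B x hB (hAB x hx) with h2 | h2
    · exact h2
    · exact absurd ⟨x, hx, h2⟩ hno
  obtain ⟨x, hx, hxb⟩ := h1
  obtain ⟨y, hy, hyb⟩ := h2
  have hxy : lt x y := h.2.1 x b y (hxb b hb) (hyb b hb)
  rcases mem2 h hA.2 hx hy with h3 | h3
  · rw [h3] at hxy
    exact h.1 y hxy
  · exact not_lt h h3 hxy

end Pool.Agent.CCG.ORD

namespace Pool.Agent.CCG

theorem ORD_thm : Stmt_ORD := by
  intro E lt w hw h hN
  exact ⟨fun B p q f hB hp hq hfp hfq => ORD.partA h hN B p q f hB hp hq hfp hfq,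
    fun B v hB hv => ORD.partB h hw B v hB hv,
    fun A B hA hB hAB => ORD.partC h hw A B hA hB hAB⟩

end Pool.Agent.CCG
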