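import Pool.Agent.CCG.Stmts2
import Pool.Agent.CCG.ORD
import Pool.Agent.CCG.CEN
import Pool.Agent.CCG.DEG

/-!
# CLZ: the classes outside `Z0` contain no `w`-cliques
-/

set_option autoImplicit false

namespace Pool.Agent.CCG

namespace CLZ

open DEG

variable {E lt : ℕ → ℕ → Prop} {w : ℕ} {isC : ℕ → Prop} {ce : ℕ → List ℕ}

/-- A centre between the centre `M` and the vertex `v`, `M` below. -/
theorem sepA (hO : Stmt_ORD) (hw : 2 ≤ w) (h : CoComp E lt) (hN : NoBig E w)
    (hC : Centres E w isC ce) {v f B M : ℕ} (hB : isC B) (h1 : LL lt (ce M) (ce B))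
    (h2 : ∀ y ∈ ce B, lt y v) (hvf : E v f) (hf : T E f (ce M)) : False := by
  obtain ⟨p, hp, hfp⟩ := hf
  exact (hO E lt w hw h hN).1 (ce B) p v f (hC.clique B hB) (fun x hx => h1 p hp x hx) h2 hfp
    (ORD.esymm h hvf)

/-- A centre between the centre `M` and the vertex `v`, `M` above. -/
theorem sepB (hO : Stmt_ORD) (hw : 2 ≤ w) (h : CoComp E lt) (hN : NoBig E w)
    (hC : Centres E w isC ce) {v f B M : ℕ} (hB : isC B) (h1 : LL lt (ce B) (ce M))
    (h2 : ∀ y ∈ ce B, lt v y) (hvf : E v f) (hf : T E f (ce M)) : False := by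
  obtain ⟨q, hq, hfq⟩ := hf
  exact (hO E lt w hw h hN).1 (ce B) v q f (hC.clique B hB) h2 (fun x hx => h1 x hx q hq)
    (ORD.esymm h hvf) hfq

/-- The side of a centre which is not touched. -/
theorem side (hO : Stmt_ORD) (hw : 2 ≤ w) (h : CoComp E lt) (hN : NoBig E w)
    (hC : Centres E w isC ce) {v B : ℕ} (hB : isC B) (hv : ¬ T E v (ce B)) :
    (∀ y ∈ ce B, lt v y) ∨ (∀ y ∈ ce B, lt y v) :=
  (hO E lt w hw h hN).2.1 (ce B) v (hC.clique B hB) hv

/-- A centre which exists at time `z` is not touched by `z` if `z` is outside `Z0`. -/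
theorem no_touch {z m : ℕ} (hz : ¬ Z0 E isC ce z) (hm : m ≤ z) (hc : isC m) :
    ¬ T E z (ce m) := fun h => hz ⟨m, hm, hc, h⟩

/-- Two centres at distance two lie on different sides. -/
theorem opp (hO : Stmt_ORD) (hw : 2 ≤ w) (h : CoComp E lt) (hN : NoBig E w)
    (hC : Centres E w isC ce) {z a b : ℕ} (hz : ¬ Z0 E isC ce z) (ha : Nb E isC ce z a)
    (hb : Nb E isC ce z b) (hab : a ≠ b) :
    ((∀ y ∈ ce a, lt y z) ∧ ∀ y ∈ ce b, lt z y) ∨ ((∀ y ∈ ce b, lt y z) ∧ ∀ y ∈ ce a, lt z y) := by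
  obtain ⟨ha1, ha2, fa, -, ha4, ha5⟩ := ha
  obtain ⟨hb1, hb2, fb, -, hb4, hb5⟩ := hb
  rcases side hO hw h hN hC ha2 (no_touch hz ha1 ha2) with sa | sa
  · rcases side hO hw h hN hC hb2 (no_touch hz hb1 hb2) with sb | sb
    · exfalso
      rcases total hO hw h hN hC ha2 hb2 hab with h1 | h1
      · exact sepB hO hw h hN hC ha2 h1 sa hb4 hb5
      · exact sepB hO hw h hN hC hb2 h1 sb ha4 ha5
    · exact Or.inr ⟨sb, sa⟩
  · rcases side hO hw h hN hC hb2 (no_touch hz hb1 hb2) with sb | sb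
    · exact Or.inl ⟨sa, sb⟩
    · exfalso
      rcases total hO hw h hN hC ha2 hb2 hab with h1 | h1
      · exact sepA hO hw h hN hC hb2 h1 sb ha4 ha5
      · exact sepA hO hw h hN hC ha2 h1 sa hb4 hb5

/-- The main claim: the younger centre `Y` at distance two of `d` is touched by `x`. -/
theorem claim (hO : Stmt_ORD) (hw : 2 ≤ w) (h : CoComp E lt) (hN : NoBig E w)
    (hC : Centres E w isC ce) {x d m Y A X : ℕ} (hd : ¬ Z0 E isC ce d)
    (hxd : x < d) (hxm : x < m) (hmY : m < Y) (hm : Nb E isC ce d m) (hY : Nb E isC ce d Y)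
    (hT : T E x (ce m)) (hA : Nb E isC ce x A) (hX : Nb E isC ce x X)
    (sA : ∀ y ∈ ce A, lt y x) (sX : ∀ y ∈ ce X, lt x y) : T E x (ce Y) := by
  by_contra hnT
  have hAC : isC A := hA.2.1
  have hXC : isC X := hX.2.1
  have hmC : isC m := hm.2.1
  have hYC : isC Y := hY.2.1
  have hAx : A ≤ x := hA.1
  have hXx : X ≤ x := hX.1
  obtain ⟨fA, -, eA, tA⟩ := hA.2.2
  obtain ⟨fX, -, eX, tX⟩ := hX.2.2
  obtain ⟨fm, -, em, tm⟩ := hm.2.2
  obtain ⟨fY, -, eY, tY⟩ := hY.2.2
  obtain ⟨p, hp, hxp⟩ := hT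
  have hAm : LL lt (ce A) (ce m) := by
    rcases total hO hw h hN hC hAC hmC (by omega) with h1 | h1
    · exact h1
    · exfalso
      have hb := hC.mem A hAC
      exact not_gt h hxp (h.2.1 p A x (h1 p hp A hb) (sA A hb))
  have hmX : LL lt (ce m) (ce X) := by
    rcases total hO hw h hN hC hmC hXC (by omega) with h1 | h1
    · exact h1
    · exfalso
      have hb := hC.mem X hXC
      exact not_lt h hxp (h.2.1 x X p (sX X hb) (h1 X hb p hp))
  have sY := side hO hw h hN hC hYC hnT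
  -- if `A`, `Y`, `X` are ordered then `Y` separates `x` from `A` or `X`
  have fin : LL lt (ce A) (ce Y) → LL lt (ce Y) (ce X) → False := by
    intro h1 h2
    rcases sY with s | s
    · exact sepB hO hw h hN hC hYC h2 s eX tX
    · exact sepA hO hw h hN hC hYC h1 s eA tA
  rcases opp hO hw h hN hC hd hm hY (by omega) with ⟨s1, s2⟩ | ⟨s1, s2⟩
  · -- `m < d < Y`
    have hmY' : LL lt (ce m) (ce Y) := fun a ha b hb => h.2.1 a d b (s1 a ha) (s2 b hb)
    have hYX : LL lt (ce Y) (ce X) := by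
      rcases total hO hw h hN hC hYC hXC (by omega) with h1 | h1
      · exact h1
      · exfalso
        rcases side hO hw h hN hC hXC (no_touch hd (by omega) hXC) with s | s
        · exact sepB hO hw h hN hC hXC h1 s eY tY
        · exact sepA hO hw h hN hC hXC hmX s em tm
    exact fin (LL_trans h hC hmC hAm hmY') hYX
  · -- `Y < d < m`
    have hYm : LL lt (ce Y) (ce m) := fun a ha b hb => h.2.1 a d b (s1 a ha) (s2 b hb)
    have hAY : LL lt (ce A) (ce Y) := by
      rcases total hO hw h hN hC hAC hYC (by omega) with h1 | h1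
      · exact h1
      · exfalso
        rcases side hO hw h hN hC hAC (no_touch hd (by omega) hAC) with s | s
        · exact sepB hO hw h hN hC hAC hAm s em tm
        · exact sepA hO hw h hN hC hAC h1 s eY tY
    exact fin hAY (LL_trans h hC hmC hYm hmX)

end CLZ

open CLZ in
theorem CLZ_thm (h : Stmt_ORD) (_ : Stmt_NB2) : Stmt_CLZ := by
  intro E lt w isC ce γ μ hw hco hN hC hγ hμ t ht hz
  have htne : t ≠ [] := by
    intro h0
    have h1 := ht.1
    rw [h0, List.length_nil] at h1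
    omega
  obtain ⟨d, hd, hmax⟩ := CEN.exists_max t htne
  obtain ⟨m, hmd, hmC, x, hx, hxT⟩ := hC.meets d t ht hmax
  have hzx := hz x hx
  have hzd := hz d hd
  have hne : d ≠ x := by
    rintro rfl
    exact hzd ⟨m, hmd, hmC, hxT⟩
  have hxd : x < d := by
    have := hmax x hx
    omega
  have hE : E d x := by
    rcases ORD.mem2 hco ht.2 hd hx with h1 | h1
    · exact absurd h1 hne
    · exact h1
  have hxm : x < m := by
    by_contra h1
    exact hzx ⟨m, not_lt.1 h1, hmC, hxT⟩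
  have hNb : Nb E isC ce d m := ⟨hmd, hmC, x, hxd, hE, hxT⟩
  obtain ⟨hY, hYmax⟩ := hγ d hzd ⟨m, hNb⟩
  refine ⟨fun hall => hall d hd ⟨m, hNb⟩, fun j hall => ?_, fun j hall => ?_⟩
  · have hmY : γ d = m := by
      by_contra h1
      exact (hall d hd).2.1 ⟨γ d, m, hY, hNb, h1⟩
    have h1 := hμ m x hmC hxm hzx (hall x hx).1 hxT
    apply h1
    rw [(hall x hx).2.2, ← hmY, (hall d hd).2.2]
  · have hcl : x < γ d ∧ T E x (ce (γ d)) := by
      by_cases h1 : m = γ d
      · rw [← h1]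
        exact ⟨hxm, hxT⟩
      · have h2 := hYmax m hNb
        refine ⟨by omega, ?_⟩
        obtain ⟨a, b, ha, hb, hab⟩ := (hall x hx).1
        rcases opp h hw hco hN hC hzx ha hb hab with ⟨s1, s2⟩ | ⟨s1, s2⟩
        · exact claim h hw hco hN hC hzd hxd hxm (by omega) hNb hY hxT ha hb s1 s2
        · exact claim h hw hco hN hC hzd hxd hxm (by omega) hNb hY hxT hb ha s1 s2
    obtain ⟨a, b, ha, -, -⟩ := (hall x hx).1
    have h1 := hμ (γ d) x hY.2.1 hcl.1 hzx ⟨a, ha⟩ hcl.2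
    apply h1
    rw [(hall x hx).2, (hall d hd).2]

end Pool.Agent.CCG
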