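import Pool.Agent.CCG.Stmts2

/-!
# Compression of a computable function with finitely many values
-/

namespace Pool.Agent.CCG

namespace CMP

/-- The number of members of a fixed finite set below `n` is primitive recursive. -/
theorem prim (S : Finset ℕ) : Primrec fun n : ℕ => (S.filter (· < n)).card := by
  induction S using Finset.induction_on with
  | empty => simpa using Primrec.const 0
  | insert a S ha ih =>
    have h : (fun n => ((insert a S).filter (· < n)).card) =
        fun n => (S.filter (· < n)).card + (if a < n then 1 else 0) := by
      funext n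
      rw [Finset.filter_insert]
      split_ifs with h
      · rw [Finset.card_insert_of_notMem]
        simp [ha]
      · simp
    rw [h]
    exact Primrec.nat_add.comp ih (Primrec.ite
      (Primrec.nat_lt.comp (Primrec.const a) Primrec.id) (Primrec.const 1) (Primrec.const 0))

theorem lt_of_lt (S : Finset ℕ) {a b : ℕ} (ha : a ∈ S) (h : a < b) :
    (S.filter (· < a)).card < (S.filter (· < b)).card := by
  refine Finset.card_lt_card ⟨?_, ?_⟩
  · intro x hx
    simp only [Finset.mem_filter] at hx ⊢
    exact ⟨hx.1, hx.2.trans h⟩
  · intro hs
    have h1 : a ∈ S.filter (· < b) := by simp [ha, h]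
    have h2 := hs h1
    simp at h2

end CMP

theorem CMP_thm : Stmt_CMP := by
  intro c S hc hS
  refine ⟨fun v => (S.filter (· < c v)).card, (CMP.prim S).to_comp.comp hc, ?_, ?_⟩
  · intro v
    refine Finset.card_lt_card ⟨Finset.filter_subset _ _, ?_⟩
    intro hs
    have h2 := hs (hS v)
    simp at h2
  · intro x y hxy
    rcases lt_trichotomy (c x) (c y) with h | h | h
    · exact absurd hxy (CMP.lt_of_lt S (hS x) h).ne
    · exact h
    · exact absurd hxy (CMP.lt_of_lt S (hS y) h).ne'

end Pool.Agent.CCG
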