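import Pool.Agent.CCG.Stmts2

/-!
# CNT: cliques in distinct type classes
-/

namespace Pool.Agent.CCG

namespace CNT

variable {E lt : ℕ → ℕ → Prop}

theorem dual (h : CoComp E lt) : CoComp E fun x y => lt y x :=
  ⟨h.1, fun x y z hxy hyz => h.2.1 z y x hyz hxy, fun x y => by
    rw [h.2.2 x y]
    exact ⟨fun ⟨a, b, c⟩ => ⟨a, c, b⟩, fun ⟨a, b, c⟩ => ⟨a, c, b⟩⟩⟩

theorem symm (h : CoComp E lt) {x y : ℕ} (hxy : E x y) : E y x := by
  rw [h.2.2] at hxy ⊢
  exact ⟨fun e => hxy.1 e.symm, hxy.2.2, hxy.2.1⟩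

theorem le_of_nobig {w : ℕ} (h : NoBig E w) (l : List ℕ) (hl : l.Pairwise E) : l.length ≤ w := by
  by_contra hc
  push Not at hc
  refine h (l.take (w + 1)) ⟨?_, hl.sublist (List.take_sublist _ _)⟩
  rw [List.length_take]
  omega

theorem pair_adj (h : CoComp E lt) {A : List ℕ} (hA : A.Pairwise E) {a b : ℕ} (ha : a ∈ A)
    (hb : b ∈ A) (hab : a ≠ b) : E a b := by
  have h1 : A.Pairwise (fun a b => a ≠ b → E a b) := by
    refine hA.imp ?_
    intro a b h' _
    exact h'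
  have h2 : A.Pairwise (flip fun a b => a ≠ b → E a b) := by
    refine hA.imp ?_
    intro a b h' _
    exact symm h h'
  exact List.Pairwise.forall_of_forall_of_flip (R := fun a b => a ≠ b → E a b)
    (fun _ _ e => absurd rfl e) h1 h2 ha hb hab

theorem clique_adj (h : CoComp E lt) {w : ℕ} {A : List ℕ} (hA : Cl E w A) {a b : ℕ} (ha : a ∈ A)
    (hb : b ∈ A) (hab : a ≠ b) : E a b :=
  pair_adj h hA.2 ha hb hab

theorem not_lt (h : CoComp E lt) {w : ℕ} {A : List ℕ} (hA : Cl E w A) {a b : ℕ} (ha : a ∈ A)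
    (hb : b ∈ A) : ¬ lt a b := by
  intro hlt
  by_cases hab : a = b
  · subst hab; exact h.1 a hlt
  · exact ((h.2.2 a b).1 (clique_adj h hA ha hb hab)).2.1 hlt

theorem mem_Ty {A : List ℕ} {u a : ℕ} : a ∈ Ty E A u ↔ a ∈ A ∧ E u a := by
  classical
  unfold Ty
  rw [Finset.mem_filter, List.mem_toFinset]

theorem Ty_sub (A : List ℕ) (u : ℕ) : Ty E A u ⊆ A.toFinset := by
  intro a ha
  rw [List.mem_toFinset]
  exact (mem_Ty.1 ha).1

/-- Not below `y` when `y` has a neighbour on `A` which is not a neighbour of `x`. -/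
theorem half (h : CoComp E lt) {A : List ℕ} {x y a : ℕ}
    (hx : ∀ a ∈ A, ¬ lt x a) (ha : a ∈ Ty E A y) (ha' : a ∉ Ty E A x) : ¬ lt x y := by
  intro hxy
  obtain ⟨haA, hya⟩ := mem_Ty.1 ha
  have hya' := (h.2.2 y a).1 hya
  have hxa : ¬ E x a := fun he => ha' (mem_Ty.2 ⟨haA, he⟩)
  by_cases e : x = a
  · subst e; exact hya'.2.2 hxy
  · by_cases e2 : lt a x
    · exact hya'.2.2 (h.2.1 _ _ _ e2 hxy)
    · exact hxa ((h.2.2 x a).2 ⟨e, hx a haA, e2⟩)

theorem adj (h : CoComp E lt) {A : List ℕ} {x y a b : ℕ}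
    (hx : ∀ a ∈ A, ¬ lt x a) (hy : ∀ a ∈ A, ¬ lt y a) (ha : a ∈ Ty E A y) (ha' : a ∉ Ty E A x)
    (hb : b ∈ Ty E A x) (hb' : b ∉ Ty E A y) : E x y := by
  rw [h.2.2]
  refine ⟨?_, half h hx ha ha', half h hy hb hb'⟩
  rintro rfl
  exact ha' ha

theorem half_card (h : CoComp E lt) {w : ℕ} (hw : NoBig E w) {A : List ℕ} (t k : ℕ) (U : Finset ℕ)
    (K : ℕ → List ℕ) (hk : 1 ≤ k)
    (hK : ∀ u ∈ U, (K u).length = k ∧ (K u).Pairwise E ∧ ∀ x ∈ K u, Ty E A x = Ty E A u)
    (ht : ∀ u ∈ U, (Ty E A u).card = t)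
    (hinj : ∀ u ∈ U, ∀ v ∈ U, Ty E A u = Ty E A v → u = v)
    (hd : ∀ u ∈ U, ∀ x ∈ K u, ∀ a ∈ A, ¬ lt x a) : U.card ≤ w / k := by
  rw [Nat.le_div_iff_mul_le (by omega)]
  have h1 : (U.toList.flatMap K).Pairwise E := by
    rw [List.pairwise_flatMap]
    refine ⟨fun u hu => (hK u (Finset.mem_toList.1 hu)).2.1, ?_⟩
    have hn := U.nodup_toList
    refine List.Pairwise.imp_of_mem ?_ hn
    intro u v hu hv huv x hx y hy
    rw [Finset.mem_toList] at hu hv
    have hxu := (hK u hu).2.2 x hx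
    have hyv := (hK v hv).2.2 y hy
    have hne : Ty E A u ≠ Ty E A v := fun e => huv (hinj u hu v hv e)
    have hcu := ht u hu
    have hcv := ht v hv
    obtain ⟨a, ha, ha'⟩ : ∃ a, a ∈ Ty E A v ∧ a ∉ Ty E A u := by
      by_contra hc
      push Not at hc
      exact hne (Finset.eq_of_subset_of_card_le (fun a ha => hc a ha) (by omega)).symm
    obtain ⟨b, hb, hb'⟩ : ∃ b, b ∈ Ty E A u ∧ b ∉ Ty E A v := by
      by_contra hc
      push Not at hc
      exact hne (Finset.eq_of_subset_of_card_le (fun a ha => hc a ha) (by omega))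
    refine adj h (hd u hu x hx) (hd v hv y hy) (a := a) (b := b) ?_ ?_ ?_ ?_
    · rw [hyv]; exact ha
    · rw [hxu]; exact ha'
    · rw [hxu]; exact hb
    · rw [hyv]; exact hb'
  have h2 : (U.toList.flatMap K).length = U.card * k := by
    rw [List.length_flatMap]
    have : (U.toList.map fun u => (K u).length) = U.toList.map fun _ => k :=
      List.map_congr_left fun u hu => (hK u (Finset.mem_toList.1 hu)).1
    rw [this, List.map_const', List.sum_replicate, Finset.length_toList, smul_eq_mul]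
  rw [← h2]
  exact le_of_nobig hw _ h1

end CNT

open CNT in
theorem CNT_thm : Stmt_CNT := by
  classical
  intro E lt w A hco hnb hA t k U K hk hK ht hinj
  have hAn : A.Nodup := hA.2.imp fun {a b} hab => ((hco.2.2 a b).1 hab).1
  have hAc : A.toFinset.card = w := by rw [List.toFinset_card_of_nodup hAn, hA.1]
  have htk : ∀ u ∈ U, t + k ≤ w := by
    intro u hu
    obtain ⟨h1, h2, h3⟩ := hK u hu
    have h4 : (K u ++ (Ty E A u).toList).Pairwise E := by
      rw [List.pairwise_append]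
      refine ⟨h2, ?_, ?_⟩
      · refine List.Pairwise.imp_of_mem ?_ (Ty E A u).nodup_toList
        intro a b ha hb hab
        rw [Finset.mem_toList] at ha hb
        exact clique_adj hco hA (mem_Ty.1 ha).1 (mem_Ty.1 hb).1 hab
      · intro x hx a ha
        rw [Finset.mem_toList, ← h3 x hx] at ha
        exact (mem_Ty.1 ha).2
    have h5 := le_of_nobig hnb _ h4
    rw [List.length_append, Finset.length_toList, h1, ht u hu] at h5
    omega
  refine ⟨?_, fun ⟨u, hu⟩ => htk u hu⟩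
  -- dichotomy
  have hdi : ∀ u ∈ U, (∀ x ∈ K u, ∀ a ∈ A, ¬ lt x a) ∨ (∀ x ∈ K u, ∀ a ∈ A, ¬ lt a x) := by
    intro u hu
    by_contra hc
    push Not at hc
    obtain ⟨⟨x, hx, a, ha, hxa⟩, y, hy, b, hb, hby⟩ := hc
    obtain ⟨h1, h2, h3⟩ := hK u hu
    obtain ⟨c, hc, hcT⟩ : ∃ c, c ∈ A.toFinset ∧ c ∉ Ty E A u := by
      by_contra hc
      push Not at hc
      have h4 : A.toFinset.card ≤ (Ty E A u).card := Finset.card_le_card fun a ha => hc a ha
      have h5 := htk u hu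
      rw [hAc, ht u hu] at h4
      omega
    rw [List.mem_toFinset] at hc
    have e1 : lt x c := by
      have hxc : ¬ E x c := fun he => hcT (by rw [← h3 x hx]; exact mem_Ty.2 ⟨hc, he⟩)
      by_contra hl
      by_cases e : x = c
      · subst e; exact not_lt hco hA hc ha hxa
      · by_cases e2 : lt c x
        · exact not_lt hco hA hc ha (hco.2.1 _ _ _ e2 hxa)
        · exact hxc ((hco.2.2 x c).2 ⟨e, hl, e2⟩)
    have e2 : lt c y := by
      have hyc : ¬ E y c := fun he => hcT (by rw [← h3 y hy]; exact mem_Ty.2 ⟨hc, he⟩)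
      by_contra hl
      by_cases e : y = c
      · subst e; exact not_lt hco hA hb hc hby
      · by_cases e2 : lt y c
        · exact not_lt hco hA hb hc (hco.2.1 _ _ _ hby e2)
        · exact hyc ((hco.2.2 y c).2 ⟨e, e2, hl⟩)
    have e3 : lt x y := hco.2.1 _ _ _ e1 e2
    by_cases e : x = y
    · subst e; exact hco.1 x e3
    · have h6 : E x y := pair_adj hco h2 hx hy e
      exact ((hco.2.2 x y).1 h6).2.1 e3
  have hc1 : (U.filter fun u => ∀ x ∈ K u, ∀ a ∈ A, ¬ lt x a).card ≤ w / k := by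
    refine half_card (A := A) hco hnb t k _ K hk ?_ ?_ ?_ ?_
    · exact fun u hu => hK u (Finset.mem_filter.1 hu).1
    · exact fun u hu => ht u (Finset.mem_filter.1 hu).1
    · exact fun u hu v hv => hinj u (Finset.mem_filter.1 hu).1 v (Finset.mem_filter.1 hv).1
    · exact fun u hu => (Finset.mem_filter.1 hu).2
  have hc2 : (U.filter fun u => ∀ x ∈ K u, ∀ a ∈ A, ¬ lt a x).card ≤ w / k := by
    refine half_card (A := A) (dual hco) hnb t k _ K hk ?_ ?_ ?_ ?_
    · exact fun u hu => hK u (Finset.mem_filter.1 hu).1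
    · exact fun u hu => ht u (Finset.mem_filter.1 hu).1
    · exact fun u hu v hv => hinj u (Finset.mem_filter.1 hu).1 v (Finset.mem_filter.1 hv).1
    · exact fun u hu => (Finset.mem_filter.1 hu).2
  have hsub : U ⊆ (U.filter fun u => ∀ x ∈ K u, ∀ a ∈ A, ¬ lt x a) ∪
      (U.filter fun u => ∀ x ∈ K u, ∀ a ∈ A, ¬ lt a x) := by
    intro u hu
    rw [Finset.mem_union, Finset.mem_filter, Finset.mem_filter]
    rcases hdi u hu with h1 | h1
    · exact Or.inl ⟨hu, h1⟩
    · exact Or.inr ⟨hu, h1⟩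
  have h9 := (Finset.card_le_card hsub).trans (Finset.card_union_le _ _)
  omega

end Pool.Agent.CCG
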