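import Pool.Agent.CCG.Stmts2
import Pool.Agent.CCG.Comp

/-!
# DAT2: the data of one step can be computed
-/

namespace Pool.Agent.CCG

namespace DAT2

/-- Vertices `d < C` outside the zones which touch the new centre `C` and whose youngest centre at
distance two is `X`. -/
def Q (E : ℕ → ℕ → Prop) (isC : ℕ → Prop) (ce : ℕ → List ℕ) (γ : ℕ → ℕ) (C X : ℕ) : Prop :=
  isC C ∧ ∃ d, d < C ∧ (¬ Z0 E isC ce d ∧ ((∃ m, Nb E isC ce d m) ∧
    (γ d = X ∧ T E d (ce C))))

theorem Q_comp (E : ℕ → ℕ → Prop) (isC : ℕ → Prop) (ce : ℕ → List ℕ) (γ : ℕ → ℕ)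
    (hC : ComputablePred isC)
    (hZ : ComputablePred fun v => Z0 E isC ce v)
    (hT : ComputablePred fun p : ℕ × ℕ => T E p.1 (ce p.2))
    (hγ : Computable γ)
    (hN : ComputablePred fun v => ∃ m, Nb E isC ce v m) :
    ComputablePred fun p : ℕ × ℕ => Q E isC ce γ p.1 p.2 := by
  refine cp_and (cp_comp hC Computable.fst) ?_
  refine cp_bex (α := ℕ × ℕ) (t := fun p => p.1)
    (p := fun p d => ¬ Z0 E isC ce d ∧ ((∃ m, Nb E isC ce d m) ∧
      (γ d = p.2 ∧ T E d (ce p.1))))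
    Computable.fst ?_
  refine cp_and (cp_not (cp_comp hZ Computable.snd)) ?_
  refine cp_and (cp_comp hN Computable.snd) ?_
  refine cp_and (cp_eq (hγ.comp Computable.snd) (Computable.snd.comp Computable.fst)) ?_
  exact cp_comp (p := fun p : ℕ × ℕ => T E p.1 (ce p.2)) hT
    (Computable.snd.pair (Computable.fst.comp Computable.fst))

open Classical in
/-- The class of a vertex outside the zones. -/
noncomputable def zcf (E : ℕ → ℕ → Prop) (isC : ℕ → Prop) (ce : ℕ → List ℕ) (γ μ : ℕ → ℕ)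
    (v : ℕ) : ℕ :=
  if Z0 E isC ce v then 0
  else if Two E isC ce v then 6 + μ (γ v)
  else if ∃ m, Nb E isC ce v m then 1 + μ (γ v)
  else 0

theorem zcf_comp (E : ℕ → ℕ → Prop) (isC : ℕ → Prop) (ce : ℕ → List ℕ) (γ μ : ℕ → ℕ)
    (hZ : ComputablePred fun v => Z0 E isC ce v)
    (hN : ComputablePred fun v => ∃ m, Nb E isC ce v m)
    (h2 : ComputablePred fun v => Two E isC ce v)
    (hγ : Computable γ) (hμ : Computable μ) : Computable (zcf E isC ce γ μ) := by
  classical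
  have hadd : ∀ f g : ℕ → ℕ, Computable f → Computable g → Computable fun v => f v + g v :=
    fun f g hf hg => (Primrec.nat_add.to_comp).comp hf hg
  have e2 : Computable fun v => 6 + μ (γ v) :=
    hadd (fun _ => 6) (fun v => μ (γ v)) (Computable.const 6) (hμ.comp hγ)
  have e1 : Computable fun v => 1 + μ (γ v) :=
    hadd (fun _ => 1) (fun v => μ (γ v)) (Computable.const 1) (hμ.comp hγ)
  have e4 := cp_ite (c := fun v => Z0 E isC ce v) hZ (Computable.const 0)
    (cp_ite (c := fun v => Two E isC ce v) h2 e2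
      (cp_ite (c := fun v => ∃ m, Nb E isC ce v m) hN e1 (Computable.const 0)))
  refine e4.of_eq fun v => ?_
  unfold zcf
  rfl

end DAT2

theorem DAT2_thm (h1 : Stmt_CEN) (h2 : Stmt_SEL2) (h3 : Stmt_LABC) (h4 : Stmt_LABB)
    (h5 : Stmt_GRE) (h6 : Stmt_GAM4) (h7 : Stmt_DEG6) (h8 : Stmt_CLZ) : Stmt_DAT2 := by
  classical
  intro E lt w hw hco hnb hE
  obtain ⟨isC, ce, hC, hce, hcen⟩ := h1 E lt w hw hco hE
  obtain ⟨hZ, hNb, hNe, h2w, hT, κ, γ, hκ, hγ, k0, g1⟩ := h2 E isC ce hE hC hce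
  have hsymm : ∀ x y, E x y → E y x := fun x y h => by
    have := (hco.2.2 x y).1 h
    exact (hco.2.2 y x).2 ⟨fun e => this.1 e.symm, this.2.2, this.2.1⟩
  have hanch : ∀ v, Z0 E isC ce v → isC (κ v) ∧ T E v (ce (κ v)) := fun v hv => (k0 v hv).2
  have hdeg := h7 E lt w isC ce (fun v => Z0 E isC ce v) κ hw hco hnb hcen hanch
  obtain ⟨ℓ, hℓ, hrule⟩ := h3 E (fun v => Z0 E isC ce v) κ hE hZ hκ
  obtain ⟨hℓ1, hℓ2⟩ := h4 E (fun v => Z0 E isC ce v) κ ℓ 6 hsymm hrule hdeg
  obtain ⟨μ, hμ, hμ1, hμ2⟩ := h5 (DAT2.Q E isC ce γ) 4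
    (DAT2.Q_comp E isC ce γ hC hZ hT hγ hNe) (by
      intro C F hF
      by_cases hFe : F = ∅
      · subst hFe; simp
      obtain ⟨X0, hX0⟩ := Finset.nonempty_iff_ne_empty.2 hFe
      have hCC : isC C := (hF X0 hX0).2.1
      refine h6 E lt w isC ce hw hco hnb hcen C hCC F fun X hX => ?_
      obtain ⟨-, -, d, hd, hz, hn, hg, ht⟩ := hF X hX
      exact ⟨d, hd, hz, hg ▸ (g1 d hz hn).1, ht⟩)
  have hμ3 : ∀ C d, isC C → d < C → ¬ Z0 E isC ce d → (∃ m, Nb E isC ce d m) →
      T E d (ce C) → μ C ≠ μ (γ d) := by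
    intro C d hCC hd hz hn ht
    have hγd : γ d ≤ d := (g1 d hz hn).1.1
    exact hμ2 C (γ d) (by omega) ⟨hCC, d, hd, hz, hn, rfl, ht⟩
  refine ⟨isC, ce, κ, ℓ, DAT2.zcf E isC ce γ μ, hC, hce, hκ, hℓ,
    DAT2.zcf_comp E isC ce γ μ hZ hNe h2w hγ hμ, hZ, hcen, k0, fun v => ?_, hℓ2, fun v => ?_, ?_⟩
  · have := hℓ1 v
    omega
  · have := hμ1 (γ v)
    unfold DAT2.zcf
    split_ifs <;> omega
  · intro t ht htz j hj
    obtain ⟨c1, c2, c3⟩ := h8 E lt w isC ce γ μ hw hco hnb hcen g1 hμ3 t ht htz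
    have hval : ∀ x ∈ t, DAT2.zcf E isC ce γ μ x = j := hj
    rcases Nat.eq_zero_or_pos j with h0 | h0
    · apply c1
      intro x hx hn
      have h := hval x hx
      unfold DAT2.zcf at h
      rw [if_neg (htz x hx)] at h
      split_ifs at h <;> omega
    · rcases Nat.lt_or_ge j 6 with h6' | h6'
      · apply c2 (j - 1)
        intro x hx
        have h := hval x hx
        unfold DAT2.zcf at h
        rw [if_neg (htz x hx)] at h
        split_ifs at h with a b
        · omega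
        · exact ⟨b, a, by omega⟩
        · omega
      · apply c3 (j - 6)
        intro x hx
        have h := hval x hx
        have hm := hμ1 (γ x)
        unfold DAT2.zcf at h
        rw [if_neg (htz x hx)] at h
        split_ifs at h with a b
        · exact ⟨a, by omega⟩
        · omega
        · omega

end Pool.Agent.CCG
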