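import Pool.Agent.CCG.Stmts2
import Pool.Agent.CCG.DEG

/-!
# DEG6: a cluster of vertices which touch their centre is joined to at most 6 others
-/

set_option autoImplicit false

namespace Pool.Agent.CCG

namespace DEG6

open DEG

section Basic

variable {E lt : ℕ → ℕ → Prop} {w : ℕ} {isC : ℕ → Prop} {ce : ℕ → List ℕ}

/-- The clusters on one side. -/
theorem half (hO : Stmt_ORD) (hw : 2 ≤ w) (h : CoComp E lt) (hN : NoBig E w)
    (hC : Centres E w isC ce) {act : ℕ → Prop} {κ : ℕ → ℕ}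
    (hact : ∀ v, act v → isC (κ v) ∧ T E v (ce (κ v))) {A : ℕ} {F : Finset ℕ}
    (hF : ∀ B ∈ F, Conf E act κ A B ∧ LL lt (ce A) (ce B)) : F.card ≤ 3 := by
  classical
  rcases F.eq_empty_or_nonempty with rfl | hne
  · simp
  have hFC : ∀ B ∈ F, isC B := by
    intro B hB
    obtain ⟨_, x, y, _, hy, _, rfl, _⟩ := (hF B hB).1
    exact (hact y hy).1
  obtain ⟨A', hA', hmax⟩ := exists_max hO hw h hN hC F hFC hne
  obtain ⟨⟨_, v, u, hv, hu, hκv, hκu, hvu⟩, hAA'⟩ := hF A' hA'
  obtain ⟨hcA, t1⟩ := hact v hv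
  obtain ⟨hcA', t4⟩ := hact u hu
  rw [hκv] at hcA t1
  rw [hκu] at hcA' t4
  set S := F.erase A' with hS
  have hSF : ∀ B ∈ S, B ∈ F := fun B hB => Finset.mem_of_mem_erase hB
  have hSC : ∀ B ∈ S, isC B := fun B hB => hFC B (hSF B hB)
  have hSA : ∀ B ∈ S, LL lt (ce A) (ce B) := fun B hB => (hF B (hSF B hB)).2
  have hSA' : ∀ B ∈ S, LL lt (ce B) (ce A') :=
    fun B hB => hmax B (hSF B hB) (Finset.ne_of_mem_erase hB)
  have c1 : (S.filter fun B => T E v (ce B)).card ≤ 1 := by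
    rw [Finset.card_le_one]
    intro a ha b hb
    by_contra hab
    rw [Finset.mem_filter] at ha hb
    rcases total hO hw h hN hC (hSC a ha.1) (hSC b hb.1) hab with h3 | h3
    · exact chain3 hO hw h hN hC (hSC a ha.1) (hSA a ha.1) h3 t1 hb.2
    · exact chain3 hO hw h hN hC (hSC b hb.1) (hSA b hb.1) h3 t1 ha.2
  have c4 : (S.filter fun B => T E u (ce B)).card ≤ 1 := by
    rw [Finset.card_le_one]
    intro a ha b hb
    by_contra hab
    rw [Finset.mem_filter] at ha hb
    rcases total hO hw h hN hC (hSC a ha.1) (hSC b hb.1) hab with h3 | h3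
    · exact chain3 hO hw h hN hC (hSC b hb.1) h3 (hSA' b hb.1) ha.2 t4
    · exact chain3 hO hw h hN hC (hSC a ha.1) h3 (hSA' a ha.1) hb.2 t4
  have hsub : S ⊆ (S.filter fun B => T E v (ce B)) ∪ (S.filter fun B => T E u (ce B)) := by
    intro B hB
    rw [Finset.mem_union, Finset.mem_filter, Finset.mem_filter]
    rcases path hO hw h hN hC (hSC B hB) (hSA B hB) (hSA' B hB) hvu t1 (Or.inl rfl) t4
      (Or.inl rfl) with h3 | h3 | h3 | h3
    · exact Or.inl ⟨hB, h3⟩
    · exact Or.inl ⟨hB, h3⟩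
    · exact Or.inr ⟨hB, h3⟩
    · exact Or.inr ⟨hB, h3⟩
  have h5 := Finset.card_le_card hsub
  have h6 := Finset.card_union_le (S.filter fun B => T E v (ce B))
    (S.filter fun B => T E u (ce B))
  have h9 : S.card + 1 = F.card := Finset.card_erase_add_one hA'
  omega

end Basic

end DEG6

open DEG DEG6 in
theorem DEG6_thm (hO : Stmt_ORD) : Stmt_DEG6 := by
  classical
  intro E lt w isC ce act κ hw h hN hC hact A F hF
  have h' : CoComp E (fun x y => lt y x) := by
    refine ⟨h.1, fun x y z h1 h2 => h.2.1 z y x h2 h1, fun x y => ?_⟩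
    rw [h.2.2]
    exact ⟨fun h1 => ⟨h1.1, h1.2.2, h1.2.1⟩, fun h1 => ⟨h1.1, h1.2.2, h1.2.1⟩⟩
  have c1 : (F.filter fun B => LL lt (ce A) (ce B)).card ≤ 3 := by
    apply DEG6.half hO hw h hN hC hact (A := A)
    intro B hB
    rw [Finset.mem_filter] at hB
    exact ⟨hF B hB.1, hB.2⟩
  have c2 : (F.filter fun B => ¬ LL lt (ce A) (ce B)).card ≤ 3 := by
    apply DEG6.half hO hw h' hN hC hact (A := A)
    intro B hB
    rw [Finset.mem_filter] at hB
    have hc := hF B hB.1
    refine ⟨hc, ?_⟩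
    obtain ⟨hAB, x, y, hx, hy, hκx, hκy, _⟩ := hc
    have hA1 : isC A := hκx ▸ (hact x hx).1
    have hB1 : isC B := hκy ▸ (hact y hy).1
    rcases total hO hw h hN hC hA1 hB1 hAB with h3 | h3
    · exact absurd h3 hB.2
    · exact fun a ha b hb => h3 b hb a ha
  have h3 := Finset.card_filter_add_card_filter_not (s := F) (fun B => LL lt (ce A) (ce B))
  omega

end Pool.Agent.CCG
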