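import Pool.Agent.CCG.Stmts2
import Pool.Agent.CCG.Comp

/-!
# DIS: the disjoint union of the parts of a co-comparability graph
-/

namespace Pool.Agent.CCG

/-- Keeping only the edges inside the parts `blk = const` gives a co-comparability graph. -/
theorem dis_coComp {E lt : ℕ → ℕ → Prop} (h : CoComp E lt) (blk : ℕ → ℕ) :
    CoComp (fun x y => E x y ∧ blk x = blk y)
      (fun x y => blk x < blk y ∨ (blk x = blk y ∧ lt x y)) := by
  obtain ⟨h1, h2, h3⟩ := h
  refine ⟨?_, ?_, ?_⟩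
  · rintro x (h | ⟨-, h⟩)
    · omega
    · exact h1 x h
  · rintro x y z (h | ⟨h, h'⟩) (g | ⟨g, g'⟩)
    · exact Or.inl (by omega)
    · exact Or.inl (by omega)
    · exact Or.inl (by omega)
    · exact Or.inr ⟨by omega, h2 x y z h' g'⟩
  · intro x y
    constructor
    · rintro ⟨h, hb⟩
      obtain ⟨g1, g2, g3⟩ := (h3 x y).1 h
      refine ⟨g1, ?_, ?_⟩
      · rintro (g | ⟨-, g⟩)
        · omega
        · exact g2 g
      · rintro (g | ⟨-, g⟩)
        · omega
        · exact g3 g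
    · rintro ⟨g1, g2, g3⟩
      have hb : blk x = blk y := by
        by_contra hne
        rcases Nat.lt_or_gt_of_ne hne with h | h
        · exact g2 (Or.inl h)
        · exact g3 (Or.inl h)
      exact ⟨(h3 x y).2 ⟨g1, fun h => g2 (Or.inr ⟨hb, h⟩), fun h => g3 (Or.inr ⟨hb.symm, h⟩)⟩, hb⟩

theorem dis_comp {E : ℕ → ℕ → Prop} (hE : ComputablePred (fun p : ℕ × ℕ => E p.1 p.2))
    {blk : ℕ → ℕ} (hb : Computable blk) :
    ComputablePred (fun p : ℕ × ℕ => E p.1 p.2 ∧ blk p.1 = blk p.2) :=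
  cp_and hE (cp_eq (hb.comp Computable.fst) (hb.comp Computable.snd))

/-- The colouring theorem for `Col w N` applied to the parts of a computable function. -/
theorem col_parts {w N : ℕ} (hc : Col w N) {E lt : ℕ → ℕ → Prop} (h : CoComp E lt)
    (hE : ComputablePred (fun p : ℕ × ℕ => E p.1 p.2)) {blk : ℕ → ℕ} (hb : Computable blk)
    (hn : NoBig (fun x y => E x y ∧ blk x = blk y) w) :
    ∃ c : ℕ → ℕ, Computable c ∧ (∀ v, c v < N) ∧
      ∀ x y, E x y → blk x = blk y → c x ≠ c y := by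
  obtain ⟨c, h1, h2, h3⟩ := hc _ _ (dis_coComp h blk) hn (dis_comp hE hb)
  exact ⟨c, h1, h2, fun x y hxy hxy' => h3 x y ⟨hxy, hxy'⟩⟩

end Pool.Agent.CCG
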