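import Mathlib

/-!
# Computable colourings of co-comparability graphs (MP_a65679_lc): definitions and statements

Vertices are natural numbers and arrive in the order `0, 1, 2, ...`.
-/

namespace Pool.Agent.CCG

/-- `E` is the co-comparability graph of the strict partial order `lt` on `ℕ`. -/
def CoComp (E lt : ℕ → ℕ → Prop) : Prop :=
  (∀ x, ¬ lt x x) ∧ (∀ x y z, lt x y → lt y z → lt x z) ∧
    ∀ x y, E x y ↔ (x ≠ y ∧ ¬ lt x y ∧ ¬ lt y x)

/-- `t` lists the members of a clique with `w` elements. -/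
def Cl (E : ℕ → ℕ → Prop) (w : ℕ) (t : List ℕ) : Prop :=
  t.length = w ∧ t.Pairwise E

/-- `v` is adjacent to a member of `t`. -/
def T (E : ℕ → ℕ → Prop) (v : ℕ) (t : List ℕ) : Prop := ∃ x ∈ t, E v x

/-- A family of pairwise non-touching `w`-cliques: the centre `m` (if `isC m`) is the `w`-clique
`ce m`, created at time `m`; every `w`-clique inside `{0, ..., n}` touches a centre created at time
at most `n`. -/
structure Centres (E : ℕ → ℕ → Prop) (w : ℕ) (isC : ℕ → Prop) (ce : ℕ → List ℕ) : Prop where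
  clique : ∀ m, isC m → Cl E w (ce m)
  le : ∀ m, isC m → ∀ x ∈ ce m, x ≤ m
  mem : ∀ m, isC m → m ∈ ce m
  apart : ∀ m m', isC m → isC m' → m ≠ m' → ∀ x ∈ ce m, ¬ T E x (ce m')
  meets : ∀ n t, Cl E w t → (∀ x ∈ t, x ≤ n) → ∃ m, m ≤ n ∧ isC m ∧ ∃ x ∈ t, T E x (ce m)

/-- `v` touches a centre which exists at time `v`. -/
def Z0 (E : ℕ → ℕ → Prop) (isC : ℕ → Prop) (ce : ℕ → List ℕ) (v : ℕ) : Prop :=
  ∃ m, m ≤ v ∧ isC m ∧ T E v (ce m)

/-- `m` is a centre which exists at time `z` and touches an earlier neighbour of `z`. -/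
def Nb (E : ℕ → ℕ → Prop) (isC : ℕ → Prop) (ce : ℕ → List ℕ) (z m : ℕ) : Prop :=
  m ≤ z ∧ isC m ∧ ∃ f, f < z ∧ E z f ∧ T E f (ce m)

/-- `v` touches the centre `m` or has a neighbour which touches it. -/
def Anch (E : ℕ → ℕ → Prop) (ce : ℕ → List ℕ) (v m : ℕ) : Prop :=
  T E v (ce m) ∨ ∃ f, E v f ∧ T E f (ce m)

/-- The clusters `A` and `B` (vertices `v` with `act v` and `κ v = A`, resp. `B`) are joined by an
edge. -/
def Conf (E : ℕ → ℕ → Prop) (act : ℕ → Prop) (κ : ℕ → ℕ) (A B : ℕ) : Prop :=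
  A ≠ B ∧ ∃ x y, act x ∧ act y ∧ κ x = A ∧ κ y = B ∧ E x y

/-- The clusters `A` and `B` are joined by an edge inside `{0, ..., n}`. -/
def ConfAt (E : ℕ → ℕ → Prop) (act : ℕ → Prop) (κ : ℕ → ℕ) (n A B : ℕ) : Prop :=
  A ≠ B ∧ ∃ x, x ≤ n ∧ ∃ y, y ≤ n ∧ act x ∧ act y ∧ κ x = A ∧ κ y = B ∧ E x y

/-- The label `c` was used before time `n` in a cluster joined to the cluster of `n`. -/
def Forb (E : ℕ → ℕ → Prop) (act : ℕ → Prop) (κ : ℕ → ℕ) (ℓ : ℕ → ℕ) (n c : ℕ) : Prop :=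
  ∃ u, u < n ∧ act u ∧ ConfAt E act κ n (κ n) (κ u) ∧ ℓ u = c

/-- `v` is the vertex which precedes `n` in the cluster of `n`. -/
def Prev (act : ℕ → Prop) (κ : ℕ → ℕ) (n v : ℕ) : Prop :=
  v < n ∧ act v ∧ κ v = κ n ∧ ∀ v', v' < n → v < v' → act v' → κ v' ≠ κ n

/-- The rule which defines the labels: keep the label of the preceding vertex of the cluster if it
is not forbidden, otherwise take the least label which is not forbidden. -/
def LabelRule (E : ℕ → ℕ → Prop) (act : ℕ → Prop) (κ : ℕ → ℕ) (ℓ : ℕ → ℕ) : Prop :=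
  ∀ n, (¬ act n → ℓ n = 0) ∧ (act n →
    ¬ Forb E act κ ℓ n (ℓ n) ∧
    (∀ v, Prev act κ n v → ¬ Forb E act κ ℓ n (ℓ v) → ℓ n = ℓ v) ∧
    ((∃ v, Prev act κ n v ∧ ℓ n = ℓ v) ∨ ∀ c, c < ℓ n → Forb E act κ ℓ n c))

end Pool.Agent.CCG
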