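import Pool.Agent.CCG.Stmts2

/-!
# EXP: the exponential bound, and its form for graphs on a computable set
-/

namespace Pool.Agent.CCG

theorem col_mono {w N N' : ℕ} (h : N ≤ N') (hc : Col w N) : Col w N' := by
  intro E lt h1 h2 h3
  obtain ⟨c, hc1, hc2, hc3⟩ := hc E lt h1 h2 h3
  exact ⟨c, hc1, fun v => lt_of_lt_of_le (hc2 v) h, hc3⟩

theorem col_one : Col 1 1 := by
  intro E lt h1 h2 _
  refine ⟨fun _ => 0, Computable.const 0, fun _ => Nat.one_pos, ?_⟩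
  intro x y hxy
  exact absurd ⟨rfl, by simpa using hxy⟩ (h2 [x, y])

theorem EXP_thm (h1 : Stmt_EXS) (h2 : Stmt_ARI) : Stmt_EXP := by
  obtain ⟨f, hf1, hf2, hf3⟩ := h2
  have key : ∀ w, 1 ≤ w → Col w (f w) := by
    intro w
    induction w using Nat.strong_induction_on with
    | _ w ih =>
      intro hw
      rcases Nat.lt_or_ge 1 w with h | h
      · exact col_mono (hf3 w h) (h1 w f h fun k hk hkw => ih k hkw hk)
      · have : w = 1 := by omega
        subst this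
        rw [hf1]
        exact col_one
  intro w hw
  exact col_mono (hf2 w hw) (key w hw)

/-- The colouring theorem for a graph on a set of natural numbers. -/
theorem fin_col {w N : ℕ} (hw : 1 ≤ w) (hI : Col w N) (V : ℕ → Prop) (E lt : ℕ → ℕ → Prop)
    (hE : ComputablePred fun p : ℕ × ℕ => V p.1 ∧ V p.2 ∧ E p.1 p.2)
    (hirr : ∀ x, V x → ¬ lt x x)
    (htr : ∀ x y z, V x → V y → V z → lt x y → lt y z → lt x z)
    (hco : ∀ x y, V x → V y → (E x y ↔ (x ≠ y ∧ ¬ lt x y ∧ ¬ lt y x)))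
    (hcl : ∀ t : List ℕ, t.length = w + 1 → (∀ x ∈ t, V x) → ¬ t.Pairwise E) :
    ∃ c : ℕ → ℕ, Computable c ∧ (∀ x, V x → c x < N) ∧
      ∀ x y, V x → V y → E x y → c x ≠ c y := by
  classical
  have hE2 : ∀ x y, (V x ∧ V y ∧ E x y) ↔ (x ≠ y ∧
      ¬ ((V x ∧ V y ∧ lt x y) ∨ (V x ∧ ¬ V y) ∨ (¬ V x ∧ ¬ V y ∧ x < y)) ∧
      ¬ ((V y ∧ V x ∧ lt y x) ∨ (V y ∧ ¬ V x) ∨ (¬ V y ∧ ¬ V x ∧ y < x))) := by
    intro x y
    by_cases hx : V x <;> by_cases hy : V y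
    · simp only [hx, hy, true_and, not_true_eq_false, and_false, false_and, or_false]
      exact hco x y hx hy
    · simp [hx, hy]
    · simp [hx, hy]
    · simp only [hx, hy, false_and, not_false_eq_true, true_and, false_or, false_iff]
      omega
  have hcc : CoComp (fun x y => V x ∧ V y ∧ E x y)
      (fun x y => (V x ∧ V y ∧ lt x y) ∨ (V x ∧ ¬ V y) ∨ (¬ V x ∧ ¬ V y ∧ x < y)) := by
    refine ⟨?_, ?_, hE2⟩
    · rintro x (⟨h1, -, h2⟩ | ⟨h1, h2⟩ | ⟨-, -, h⟩)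
      · exact hirr x h1 h2
      · exact h2 h1
      · omega
    · rintro x y z (⟨h1, h2, h3⟩ | ⟨h1, h2⟩ | ⟨h1, h2, h3⟩) (⟨h4, h5, h6⟩ | ⟨h4, h5⟩ | ⟨h4, h5, h6⟩)
      · exact Or.inl ⟨h1, h5, htr x y z h1 h2 h5 h3 h6⟩
      · exact Or.inr (Or.inl ⟨h1, h5⟩)
      · exact absurd h2 h4
      · exact absurd h4 h2
      · exact absurd h4 h2
      · exact Or.inr (Or.inl ⟨h1, h5⟩)
      · exact absurd h4 h2
      · exact absurd h4 h2
      · exact Or.inr (Or.inr ⟨h1, h5, by omega⟩)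
  have hnb : NoBig (fun x y => V x ∧ V y ∧ E x y) w := by
    rintro t ⟨h1, h2⟩
    refine hcl t h1 ?_ (h2.imp fun h => h.2.2)
    intro x hx
    obtain ⟨i, hi, rfl⟩ := List.mem_iff_getElem.1 hx
    rw [List.pairwise_iff_getElem] at h2
    by_cases h0 : i = 0
    · subst h0
      exact (h2 0 1 hi (by omega) (by omega)).1
    · exact (h2 0 i (by omega) hi (by omega)).2.1
  obtain ⟨c, hc, hb, hp⟩ := hI _ _ hcc hnb hE
  exact ⟨c, hc, fun x _ => hb x, fun x y hx hy hxy => hp x y ⟨hx, hy, hxy⟩⟩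

end Pool.Agent.CCG
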