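import Pool.Agent.CCG.Stmts2
import Pool.Agent.CCG.Comp
import Pool.Agent.CCG.DIS

/-!
# EXS: the recursion for the number of colours
-/

namespace Pool.Agent.CCG

namespace EXS

open Classical in
/-- Members `v` of `P` go to the block `2 * g v`, all other vertices are alone. -/
noncomputable def bk (P : ℕ → Prop) (g : ℕ → ℕ) (v : ℕ) : ℕ := if P v then 2 * g v else 2 * v + 1

theorem bk_comp {P : ℕ → Prop} {g : ℕ → ℕ} (hP : ComputablePred P) (hg : Computable g) :
    Computable (bk P g) := by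
  classical
  have e1 : Computable fun v => 2 * g v :=
    (Primrec.nat_mul.to_comp).comp (Computable.const 2) hg
  have e2 : Computable fun v : ℕ => 2 * v + 1 :=
    (Primrec.nat_add.to_comp).comp ((Primrec.nat_mul.to_comp).comp (Computable.const 2)
      Computable.id) (Computable.const 1)
  refine (cp_ite (c := P) hP e1 e2).of_eq fun v => ?_
  unfold bk
  rfl

theorem bk_eq {P : ℕ → Prop} {g : ℕ → ℕ} {x y : ℕ} (h : bk P g x = bk P g y) (hne : x ≠ y) :
    P x ∧ P y ∧ g x = g y := by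
  unfold bk at h
  by_cases hx : P x <;> by_cases hy : P y
  · rw [if_pos hx, if_pos hy] at h
    exact ⟨hx, hy, by omega⟩
  · rw [if_pos hx, if_neg hy] at h
    omega
  · rw [if_neg hx, if_pos hy] at h
    omega
  · rw [if_neg hx, if_neg hy] at h
    omega

theorem bk_of {P : ℕ → Prop} {g : ℕ → ℕ} {x y : ℕ} (hx : P x) (hy : P y) (h : g x = g y) :
    bk P g x = bk P g y := by
  unfold bk
  rw [if_pos hx, if_pos hy, h]

theorem bk_clique {E lt : ℕ → ℕ → Prop} (hco : CoComp E lt) {P : ℕ → Prop} {g : ℕ → ℕ} {n : ℕ}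
    (hn : 2 ≤ n) {t : List ℕ} (ht : Cl (fun x y => E x y ∧ bk P g x = bk P g y) n t) :
    Cl E n t ∧ (∀ x ∈ t, P x) ∧ ∀ x ∈ t, ∀ y ∈ t, g x = g y := by
  obtain ⟨h1, h2⟩ := ht
  match t, h1, h2 with
  | [], h1, _ => simp at h1; omega
  | [_], h1, _ => simp at h1; omega
  | a :: b :: r, h1, h2 =>
    have h3 := List.pairwise_cons.1 h2
    have hP : ∀ x ∈ a :: b :: r, P x ∧ g a = g x := by
      intro x hx
      rcases List.mem_cons.1 hx with rfl | hx
      · have h4 := h3.1 b (by simp)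
        have h5 := bk_eq h4.2 ((hco.2.2 _ _).1 h4.1).1
        exact ⟨h5.1, rfl⟩
      · have h4 := h3.1 x hx
        have h5 := bk_eq h4.2 ((hco.2.2 _ _).1 h4.1).1
        exact ⟨h5.2.1, h5.2.2⟩
    exact ⟨⟨h1, h2.imp fun h => h.1⟩, fun x hx => (hP x hx).1,
      fun x hx y hy => (hP x hx).2.symm.trans (hP y hy).2⟩

theorem sameT_of_fst {E : ℕ → ℕ → Prop} {isC : ℕ → Prop} {ce : ℕ → List ℕ} {κ lev fst rk : ℕ → ℕ}
    (hL : LevData E isC ce κ lev fst rk) {x y : ℕ} (hx : Z0 E isC ce x) (hy : Z0 E isC ce y)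
    (h : fst x = fst y) : SameT E ce κ x y := by
  obtain ⟨-, -, ⟨h1, h2⟩, -⟩ := hL.fst_blk x hx
  obtain ⟨-, -, ⟨h3, h4⟩, -⟩ := hL.fst_blk y hy
  rw [h] at h1 h2
  have h5 : κ x = κ y := h1.symm.trans h3
  refine ⟨h5, fun z hz => ?_⟩
  rw [← h4 z hz]
  rw [← h5] at hz
  exact (h2 z hz).symm

theorem noBig_level {E lt : ℕ → ℕ → Prop} (hco : CoComp E lt) {isC : ℕ → Prop} {ce : ℕ → List ℕ}
    {κ lev fst rk : ℕ → ℕ} (hL : LevData E isC ce κ lev fst rk) {k : ℕ} (hk : 1 ≤ k) :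
    NoBig (fun x y => E x y ∧ bk (fun v => Z0 E isC ce v ∧ lev v = k) fst x =
      bk (fun v => Z0 E isC ce v ∧ lev v = k) fst y) k := by
  intro t ht
  obtain ⟨h1, h2, h3⟩ := bk_clique hco (by omega) ht
  have hne : t ≠ [] := by
    rintro rfl
    have := h1.1
    simp at this
  obtain ⟨a, ha⟩ := List.exists_mem_of_ne_nil t hne
  obtain ⟨d, hd, hmax⟩ := t.toFinset.exists_max_image (fun x => x) ⟨a, by simpa using ha⟩
  rw [List.mem_toFinset] at hd
  obtain ⟨hdz, hdl⟩ := h2 d hd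
  refine hL.lev_max d hdz ⟨t, by rw [hdl]; exact h1.1, fun x hx => hmax x (by simpa using hx),
    h1.2, fun x hx => ⟨(h2 x hx).1, sameT_of_fst hL (h2 x hx).1 hdz (h3 x hx d hd)⟩⟩

theorem noBig_zone {E lt : ℕ → ℕ → Prop} (hco : CoComp E lt) {isC : ℕ → Prop} {ce : ℕ → List ℕ}
    {zc : ℕ → ℕ} {w : ℕ} (hw : 2 ≤ w)
    (h : ∀ t, Cl E w t → (∀ x ∈ t, ¬ Z0 E isC ce x) → ∀ j, ¬ ∀ x ∈ t, zc x = j) :
    NoBig (fun x y => E x y ∧ bk (fun v => ¬ Z0 E isC ce v) zc x =
      bk (fun v => ¬ Z0 E isC ce v) zc y) (w - 1) := by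
  intro t ht
  rw [show w - 1 + 1 = w by omega] at ht
  obtain ⟨h1, h2, h3⟩ := bk_clique hco hw ht
  have hne : t ≠ [] := by
    rintro rfl
    have := h1.1
    simp at this
    omega
  obtain ⟨a, ha⟩ := List.exists_mem_of_ne_nil t hne
  exact h t h1 h2 (zc a) fun x hx => h3 x hx a ha

theorem rk_lt {E : ℕ → ℕ → Prop} {isC : ℕ → Prop} {ce : ℕ → List ℕ} {κ lev fst rk : ℕ → ℕ}
    (hL : LevData E isC ce κ lev fst rk) {x y : ℕ} (hx : Z0 E isC ce x) (hy : Z0 E isC ce y)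
    (hκ : κ x = κ y) (hl : lev x = lev y) (h : fst x < fst y) : rk x < rk y := by
  classical
  rw [hL.rk_eq x hx, hL.rk_eq y hy]
  obtain ⟨hf1, hf2, ⟨hf3, -⟩, hf4⟩ := hL.fst_blk x hx
  have hff : fst (fst x) = fst x := by
    obtain ⟨g1, g2⟩ := hL.fst_blk (fst x) hf2
    by_contra hne
    have hlt : fst (fst x) < fst x := lt_of_le_of_ne g1 hne
    refine hL.fst_min x hx _ hlt ?_
    obtain ⟨g3, ⟨g4, g5⟩, g6⟩ := g2
    obtain ⟨-, -, ⟨f3, f4⟩, f5⟩ := hL.fst_blk x hx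
    refine ⟨g3, ⟨g4.trans f3, fun z hz => ?_⟩, g6.trans f5⟩
    rw [g5 z (by rw [f3]; exact hz)]
    exact f4 z hz
  refine Finset.card_lt_card ⟨?_, ?_⟩
  · intro u hu
    simp only [Finset.mem_filter, Finset.mem_range] at hu ⊢
    obtain ⟨u1, u2, u3, u4, u5⟩ := hu
    exact ⟨by omega, u2, u3, u4.trans hκ, u5.trans hl⟩
  · intro hs
    have h1 : fst x ∈ (Finset.range (fst y)).filter
        (fun u => Z0 E isC ce u ∧ fst u = u ∧ κ u = κ y ∧ lev u = lev y) := by
      simp only [Finset.mem_filter, Finset.mem_range]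
      exact ⟨h, hf2, hff, hf3.trans hκ, hf4.trans hl⟩
    have h2 := hs h1
    simp at h2

/-- The code of a colour. -/
def code0 (a b c d : ℕ) : ℕ := Nat.pair 0 (Nat.pair a (Nat.pair b (Nat.pair c d)))

/-- The code of a colour. -/
def code1 (a b : ℕ) : ℕ := Nat.pair 1 (Nat.pair a b)

theorem code0_inj {a b c d a' b' c' d' : ℕ} (h : code0 a b c d = code0 a' b' c' d') :
    a = a' ∧ b = b' ∧ c = c' ∧ d = d' := by
  unfold code0 at h
  simpa [Nat.pair_eq_pair] using h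

theorem code1_inj {a b a' b' : ℕ} (h : code1 a b = code1 a' b') : a = a' ∧ b = b' := by
  unfold code1 at h
  simpa [Nat.pair_eq_pair] using h

theorem code_ne {a b c d a' b' : ℕ} : code0 a b c d ≠ code1 a' b' := by
  unfold code0 code1
  simp [Nat.pair_eq_pair]

/-- The set of codes. -/
def codes (w : ℕ) (f : ℕ → ℕ) : Finset ℕ :=
  ((Finset.range 43 ×ˢ ((Finset.Icc 1 (w - 1)).sigma fun k =>
    Finset.range (nbk w k) ×ˢ Finset.range (f k))).image
      (fun p => code0 p.1 p.2.1 p.2.2.1 p.2.2.2)) ∪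
  ((Finset.range 11 ×ˢ Finset.range (f (w - 1))).image (fun p => code1 p.1 p.2))

theorem codes_card (w : ℕ) (f : ℕ → ℕ) :
    (codes w f).card ≤ 43 * (∑ k ∈ Finset.Icc 1 (w - 1), nbk w k * f k) + 11 * f (w - 1) := by
  unfold codes
  refine (Finset.card_union_le _ _).trans (Nat.add_le_add ?_ ?_)
  · refine Finset.card_image_le.trans ?_
    rw [Finset.card_product, Finset.card_sigma, Finset.card_range]
    simp only [Finset.card_product, Finset.card_range, le_refl]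
  · refine Finset.card_image_le.trans ?_
    rw [Finset.card_product, Finset.card_range, Finset.card_range]

theorem mem0 {w : ℕ} {f : ℕ → ℕ} {a b c d : ℕ} (ha : a < 43) (hb : 1 ≤ b) (hb' : b < w)
    (hc : c < nbk w b) (hd : d < f b) : code0 a b c d ∈ codes w f := by
  unfold codes
  rw [Finset.mem_union]
  left
  rw [Finset.mem_image]
  refine ⟨(a, ⟨b, (c, d)⟩), ?_, rfl⟩
  simp only [Finset.mem_product, Finset.mem_range, Finset.mem_sigma, Finset.mem_Icc]
  exact ⟨ha, ⟨hb, by omega⟩, hc, hd⟩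

theorem mem1 {w : ℕ} {f : ℕ → ℕ} {a b : ℕ} (ha : a < 11) (hb : b < f (w - 1)) :
    code1 a b ∈ codes w f := by
  unfold codes
  rw [Finset.mem_union]
  right
  rw [Finset.mem_image]
  refine ⟨(a, b), ?_, rfl⟩
  simp only [Finset.mem_product, Finset.mem_range]
  exact ⟨ha, hb⟩

end EXS

open EXS in
theorem EXS_thm (h1 : Stmt_DAT2) (h2 : Stmt_LEV) (h3 : Stmt_RNK) (h4 : Stmt_CMP) : Stmt_EXS := by
  classical
  intro w f hw hf E lt hco hnb hE
  obtain ⟨isC, ce, κ, ℓ, zc, hC, hce, hκ, hℓ, hzc, hZ, hcen, hk0, hl43, hlne, hzc11, hzcl⟩ :=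
    h1 E lt w hw hco hnb hE
  obtain ⟨lev, fst, rk, hlev, hfst, hrk, hL⟩ := h2 E lt w isC ce κ hco hnb hE hZ hce hκ
  have hR := h3 E lt w isC ce κ lev fst rk hw hco hnb hcen hk0 hL
  -- the colourings of the levels
  have hlevel : ∀ k, ∃ c : ℕ → ℕ, Computable c ∧ (1 ≤ k → k < w → (∀ v, c v < f k) ∧
      ∀ x y, E x y → bk (fun v => Z0 E isC ce v ∧ lev v = k) fst x =
        bk (fun v => Z0 E isC ce v ∧ lev v = k) fst y → c x ≠ c y) := by
    intro k
    by_cases hk : 1 ≤ k ∧ k < w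
    · obtain ⟨c, c1, c2, c3⟩ := col_parts (hf k hk.1 hk.2) hco hE
        (blk := bk (fun v => Z0 E isC ce v ∧ lev v = k) fst)
        (bk_comp (cp_and hZ (cp_eq hlev (Computable.const k))) hfst)
        (noBig_level hco hL hk.1)
      exact ⟨c, c1, fun _ _ => ⟨c2, c3⟩⟩
    · exact ⟨fun _ => 0, Computable.const 0, fun h h' => absurd ⟨h, h'⟩ hk⟩
  choose c hc hc' using hlevel
  obtain ⟨C, hC1, hC2⟩ := finite_glue w c fun k _ => hc k
  obtain ⟨c', c1, c2, c3⟩ := col_parts (hf (w - 1) (by omega) (by omega)) hco hE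
    (blk := bk (fun v => ¬ Z0 E isC ce v) zc) (bk_comp (cp_not hZ) hzc)
    (noBig_zone hco hw hzcl)
  -- the colouring
  have hpair : ∀ g g' : ℕ → ℕ, Computable g → Computable g' →
      Computable fun v => Nat.pair (g v) (g' v) := fun g g' hg hg' =>
    (Primrec₂.natPair.to_comp).comp hg hg'
  have e0 : Computable fun v => code0 (ℓ v) (lev v) (rk v) (C (lev v) v) := by
    unfold code0
    exact hpair (fun _ => 0) _ (Computable.const 0) (hpair ℓ _ hℓ (hpair lev _ hlev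
      (hpair rk _ hrk (hC1.comp hlev Computable.id))))
  have e1 : Computable fun v => code1 (zc v) (c' v) := by
    unfold code1
    exact hpair (fun _ => 1) _ (Computable.const 1) (hpair zc c' hzc c1)
  have hcol : Computable fun v => if Z0 E isC ce v then code0 (ℓ v) (lev v) (rk v) (C (lev v) v)
      else code1 (zc v) (c' v) := cp_ite hZ e0 e1
  have hmem : ∀ v, (if Z0 E isC ce v then code0 (ℓ v) (lev v) (rk v) (C (lev v) v)
      else code1 (zc v) (c' v)) ∈ codes w f := by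
    intro v
    by_cases hv : Z0 E isC ce v
    · rw [if_pos hv]
      obtain ⟨r1, r2⟩ := hR v hv
      have r3 := (hL.lev_pos v hv).1
      refine mem0 (hl43 v) r3 r1 r2 ?_
      rw [hC2 _ r1]
      exact (hc' _ r3 r1).1 v
    · rw [if_neg hv]
      exact mem1 (hzc11 v) (c2 v)
  obtain ⟨q, q1, q2, q3⟩ := h4 _ (codes w f) hcol hmem
  refine ⟨q, q1, fun v => (q2 v).trans_le (codes_card w f), fun x y hxy hq => ?_⟩
  have hcc := q3 x y hq
  have hsymm : E y x := by
    have := (hco.2.2 x y).1 hxy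
    exact (hco.2.2 y x).2 ⟨fun e => this.1 e.symm, this.2.2, this.2.1⟩
  by_cases hx : Z0 E isC ce x <;> by_cases hy : Z0 E isC ce y
  · rw [if_pos hx, if_pos hy] at hcc
    obtain ⟨i1, i2, i3, i4⟩ := code0_inj hcc
    have hκκ : κ x = κ y := by
      by_contra hne
      exact hlne x y hx hy hxy hne i1
    by_cases hfe : fst x = fst y
    · obtain ⟨r1, r2⟩ := hR x hx
      have r3 := (hL.lev_pos x hx).1
      rw [← i2, hC2 _ r1, hC2 _ r1] at i4
      refine (hc' _ r3 r1).2 x y hxy ?_ i4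
      exact bk_of ⟨hx, rfl⟩ ⟨hy, i2.symm⟩ hfe
    · rcases Nat.lt_or_gt_of_ne hfe with h | h
      · exact (rk_lt hL hx hy hκκ i2 h).ne i3
      · exact (rk_lt hL hy hx hκκ.symm i2.symm h).ne i3.symm
  · rw [if_pos hx, if_neg hy] at hcc
    exact code_ne hcc
  · rw [if_neg hx, if_pos hy] at hcc
    exact code_ne hcc.symm
  · rw [if_neg hx, if_neg hy] at hcc
    obtain ⟨i1, i2⟩ := code1_inj hcc
    exact c3 x y hxy (bk_of hx hy i1) i2

end Pool.Agent.CCG
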