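import Pool.Agent.CCG.Stmts
import Pool.Agent.CCG.Comp

/-!
# From graphs on `ℕ` to graphs on a computable subset of `ℕ`
-/

namespace Pool.Agent.CCG

/-- `bnd` is at most `634 ^ (w - 1) * w!`. -/
theorem bnd_le (w : ℕ) : bnd w ≤ 634 ^ (w - 1) * w.factorial := by
  induction w with
  | zero => simp [bnd]
  | succ w ih =>
    rcases Nat.eq_zero_or_pos w with rfl | hw
    · simp [bnd]
    · have h1 : bnd (w + 1) = bnd w * (211 * (w + 1 + 4) + 1) := by
        unfold bnd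
        rw [Finset.prod_Icc_succ_top (by omega)]
      rw [h1]
      have h2 : 211 * (w + 1 + 4) + 1 ≤ 634 * (w + 1) := by omega
      calc bnd w * (211 * (w + 1 + 4) + 1)
          ≤ (634 ^ (w - 1) * w.factorial) * (634 * (w + 1)) := Nat.mul_le_mul ih h2
        _ = 634 ^ (w + 1 - 1) * (w + 1).factorial := by
            rw [Nat.factorial_succ]
            have : w + 1 - 1 = (w - 1) + 1 := by omega
            rw [this, pow_succ]
            ring

theorem bnd_pos (w : ℕ) : 0 < bnd w := by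
  unfold bnd
  exact Finset.prod_pos fun j _ => by omega

/-- The colouring theorem for a graph on a computable set of natural numbers. -/
theorem fin_thm (hI : Stmt_IND) (w : ℕ) (V : ℕ → Prop) (E lt : ℕ → ℕ → Prop)
    (hE : ComputablePred fun p : ℕ × ℕ => V p.1 ∧ V p.2 ∧ E p.1 p.2)
    (hirr : ∀ x, V x → ¬ lt x x)
    (htr : ∀ x y z, V x → V y → V z → lt x y → lt y z → lt x z)
    (hco : ∀ x y, V x → V y → (E x y ↔ (x ≠ y ∧ ¬ lt x y ∧ ¬ lt y x)))
    (hcl : ∀ t : List ℕ, t.length = w + 1 → (∀ x ∈ t, V x) → ¬ t.Pairwise E) :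
    ∃ c : ℕ → ℕ, Computable c ∧ (∀ x, V x → c x < bnd w) ∧
      ∀ x y, V x → V y → E x y → c x ≠ c y := by
  classical
  rcases Nat.eq_zero_or_pos w with rfl | hw
  · refine ⟨fun _ => 0, Computable.const 0, fun x _ => bnd_pos 0, ?_⟩
    intro x y hx hy hxy
    exact absurd (List.pairwise_singleton E x) (hcl [x] rfl (by simpa using hx))
  have hE2 : ∀ x y, (V x ∧ V y ∧ E x y) ↔ (x ≠ y ∧
      ¬ ((V x ∧ V y ∧ lt x y) ∨ (V x ∧ ¬ V y) ∨ (¬ V x ∧ ¬ V y ∧ x < y)) ∧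
      ¬ ((V y ∧ V x ∧ lt y x) ∨ (V y ∧ ¬ V x) ∨ (¬ V y ∧ ¬ V x ∧ y < x))) := by
    intro x y
    by_cases hx : V x <;> by_cases hy : V y
    · simp only [hx, hy, true_and, not_true_eq_false, and_false, false_and, or_false]
      exact hco x y hx hy
    · simp [hx, hy]
    · simp [hx, hy]
    · simp only [hx, hy, false_and, not_false_eq_true, true_and, false_or, false_iff]
      omega
  have hcc : CoComp (fun x y => V x ∧ V y ∧ E x y)
      (fun x y => (V x ∧ V y ∧ lt x y) ∨ (V x ∧ ¬ V y) ∨ (¬ V x ∧ ¬ V y ∧ x < y)) := by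
    refine ⟨?_, ?_, hE2⟩
    · rintro x (⟨h1, -, h2⟩ | ⟨h1, h2⟩ | ⟨-, -, h⟩)
      · exact hirr x h1 h2
      · exact h2 h1
      · omega
    · rintro x y z (⟨h1, h2, h3⟩ | ⟨h1, h2⟩ | ⟨h1, h2, h3⟩) (⟨h4, h5, h6⟩ | ⟨h4, h5⟩ | ⟨h4, h5, h6⟩)
      · exact Or.inl ⟨h1, h5, htr x y z h1 h2 h5 h3 h6⟩
      · exact Or.inr (Or.inl ⟨h1, h5⟩)
      · exact absurd h2 h4
      · exact absurd h4 h2
      · exact absurd h4 h2
      · exact Or.inr (Or.inl ⟨h1, h5⟩)
      · exact absurd h4 h2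
      · exact absurd h4 h2
      · exact Or.inr (Or.inr ⟨h1, h5, by omega⟩)
  have hnb : NoBig (fun x y => V x ∧ V y ∧ E x y) w := by
    rintro t ⟨h1, h2⟩
    refine hcl t h1 ?_ (h2.imp fun h => h.2.2)
    intro x hx
    obtain ⟨i, hi, rfl⟩ := List.mem_iff_getElem.1 hx
    rw [List.pairwise_iff_getElem] at h2
    by_cases h0 : i = 0
    · subst h0
      exact (h2 0 1 hi (by omega) (by omega)).1
    · exact (h2 0 i (by omega) hi (by omega)).2.1
  obtain ⟨c, hc, hb, hp⟩ := hI w _ _ hcc hnb hE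
  exact ⟨c, hc, fun x _ => hb x, fun x y hx hy hxy => hp x y ⟨hx, hy, hxy⟩⟩

end Pool.Agent.CCG
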