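import Pool.Agent.CCG.Stmts

/-!
# Module GAM: at most two centres at distance two from old vertices touching a new centre
-/

namespace Pool.Agent.CCG

namespace GAM

/-- The condition on a member of `F`. -/
def P (E : ℕ → ℕ → Prop) (isC : ℕ → Prop) (ce : ℕ → List ℕ) (C X : ℕ) : Prop :=
  ∃ d, d < C ∧ ¬ Z0 E isC ce d ∧ Nb E isC ce d X ∧ T E d (ce C) ∧
    ∀ B, B ≤ C → isC B → T E d (ce B) → B = C

lemma flip_coComp {E lt : ℕ → ℕ → Prop} (hc : CoComp E lt) : CoComp E (fun x y => lt y x) := by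
  obtain ⟨h1, h2, h3⟩ := hc
  refine ⟨h1, fun x y z hxy hyz => h2 _ _ _ hyz hxy, fun x y => ?_⟩
  rw [h3]
  tauto

lemma ord_step (h : Stmt_ORD) {E lt : ℕ → ℕ → Prop} {w : ℕ} {isC : ℕ → Prop} {ce : ℕ → List ℕ}
    (hw : 2 ≤ w) (hc : CoComp E lt) (hn : NoBig E w) (hcen : Centres E w isC ce) {C : ℕ}
    {X₁ X₂ : ℕ} (h1 : P E isC ce C X₁) (h2 : P E isC ce C X₂)
    (b2 : ∀ x ∈ ce X₂, ∀ y ∈ ce C, lt x y)
    (b12 : ∀ x ∈ ce X₁, ∀ y ∈ ce X₂, lt x y) : False := by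
  obtain ⟨ha, hb, -⟩ := h E lt w hw hc hn
  obtain ⟨-, htr, hE⟩ := hc
  obtain ⟨d, hdC, -, ⟨-, -, f, -, hdf, p, hp, hfp⟩, ⟨y, hy, hdy⟩, hlast⟩ := h1
  obtain ⟨d₂, hd₂C, -, ⟨hX₂, hX₂C, -⟩, -, -⟩ := h2
  have hcl := hcen.clique X₂ hX₂C
  have hne : ∃ x, x ∈ ce X₂ := by
    have hlen : (ce X₂).length = w := hcl.1
    cases hce : ce X₂ with
    | nil => rw [hce] at hlen; simp at hlen; omega
    | cons a l => exact ⟨a, by simp⟩
  obtain ⟨x₀, hx₀⟩ := hne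
  have hnT : ¬ T E d (ce X₂) := by
    intro hT
    have := hlast X₂ (by omega) hX₂C hT
    omega
  rcases hb (ce X₂) d hcl hnT with hlow | hup
  · have h3 : lt d y := htr _ _ _ (hlow x₀ hx₀) (b2 x₀ hx₀ y hy)
    exact ((hE d y).1 hdy).2.1 h3
  · have hfd : E f d := by
      rw [hE]
      have := (hE d f).1 hdf
      tauto
    exact ha (ce X₂) p d f hcl (fun x hx => b12 p hp x hx) hup hfp hfd

lemma key (h : Stmt_ORD) {E lt : ℕ → ℕ → Prop} {w : ℕ} {isC : ℕ → Prop} {ce : ℕ → List ℕ}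
    (hw : 2 ≤ w) (hc : CoComp E lt) (hn : NoBig E w) (hcen : Centres E w isC ce) {C : ℕ}
    {X₁ X₂ : ℕ} (h1 : P E isC ce C X₁) (h2 : P E isC ce C X₂) (hne : X₁ ≠ X₂)
    (b1 : ∀ x ∈ ce X₁, ∀ y ∈ ce C, lt x y)
    (b2 : ∀ x ∈ ce X₂, ∀ y ∈ ce C, lt x y) : False := by
  have hX₁C : isC X₁ := by
    obtain ⟨d, -, -, ⟨-, hX, -⟩, -⟩ := h1
    exact hX
  have hX₂C : isC X₂ := by
    obtain ⟨d, -, -, ⟨-, hX, -⟩, -⟩ := h2
    exact hX
  rcases (h E lt w hw hc hn).2.2 (ce X₁) (ce X₂) (hcen.clique _ hX₁C) (hcen.clique _ hX₂C)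
    (hcen.apart _ _ hX₁C hX₂C hne) with h12 | h21
  · exact ord_step h hw hc hn hcen h1 h2 b2 h12
  · exact ord_step h hw hc hn hcen h2 h1 b1 (fun x hx y hy => h21 y hy x hx)

end GAM

open GAM in
theorem GAM_thm (h : Stmt_ORD) : Stmt_GAM := by
  intro E lt w isC ce hw hc hn hcen C hC F hF
  have side : ∀ X ∈ F, (∀ x ∈ ce X, ∀ y ∈ ce C, lt x y) ∨ (∀ x ∈ ce X, ∀ y ∈ ce C, lt y x) := by
    intro X hX
    obtain ⟨d, hd, -, ⟨hXd, hXC, -⟩, -⟩ := hF X hX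
    exact (h E lt w hw hc hn).2.2 (ce X) (ce C) (hcen.clique _ hXC) (hcen.clique _ hC)
      (hcen.apart _ _ hXC hC (by omega))
  have below : ∀ X ∈ F, ∀ Y ∈ F, X ≠ Y → (∀ x ∈ ce X, ∀ y ∈ ce C, lt x y) →
      (∀ x ∈ ce Y, ∀ y ∈ ce C, lt x y) → False := fun X hX Y hY hne b1 b2 =>
    key h hw hc hn hcen (hF X hX) (hF Y hY) hne b1 b2
  have above : ∀ X ∈ F, ∀ Y ∈ F, X ≠ Y → (∀ x ∈ ce X, ∀ y ∈ ce C, lt y x) →
      (∀ x ∈ ce Y, ∀ y ∈ ce C, lt y x) → False := fun X hX Y hY hne b1 b2 =>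
    key (lt := fun x y => lt y x) h hw (flip_coComp hc) hn hcen (hF X hX) (hF Y hY) hne b1 b2
  by_contra hcard
  have h3 : 2 < F.card := by omega
  obtain ⟨a, b, c, ha, hb, hc', hab, hac, hbc⟩ := Finset.two_lt_card_iff.1 h3
  rcases side a ha with sa | sa <;> rcases side b hb with sb | sb <;>
    rcases side c hc' with sc | sc
  · exact below a ha b hb hab sa sb
  · exact below a ha b hb hab sa sb
  · exact below a ha c hc' hac sa sc
  · exact above b hb c hc' hbc sb sc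
  · exact below b hb c hc' hbc sb sc
  · exact above a ha c hc' hac sa sc
  · exact above a ha b hb hab sa sb
  · exact above a ha b hb hab sa sb

end Pool.Agent.CCG
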