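import Pool.Agent.CCG.Stmts2
import Pool.Agent.CCG.GAM

/-!
# Module GAM4: at most four centres at distance two from vertices touching a younger centre
-/

namespace Pool.Agent.CCG

namespace GAM4

/-- The condition on a member of `F`. -/
def P (E : ℕ → ℕ → Prop) (isC : ℕ → Prop) (ce : ℕ → List ℕ) (C X : ℕ) : Prop :=
  ∃ d, d < C ∧ ¬ Z0 E isC ce d ∧ Nb E isC ce d X ∧ T E d (ce C)

lemma P_isC {E : ℕ → ℕ → Prop} {isC : ℕ → Prop} {ce : ℕ → List ℕ} {C X : ℕ}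
    (h : P E isC ce C X) : isC X ∧ X < C := by
  obtain ⟨d, hd, -, ⟨hX, hXC, -⟩, -⟩ := h
  exact ⟨hXC, by omega⟩

lemma three (h : Stmt_ORD) {E lt : ℕ → ℕ → Prop} {w : ℕ} {isC : ℕ → Prop} {ce : ℕ → List ℕ}
    (hw : 2 ≤ w) (hc : CoComp E lt) (hn : NoBig E w) (hcen : Centres E w isC ce) {C : ℕ}
    {X₁ X₂ X₃ : ℕ} (h1 : P E isC ce C X₁) (h2 : P E isC ce C X₂) (h3 : P E isC ce C X₃)
    (b2 : ∀ x ∈ ce X₂, ∀ y ∈ ce C, lt x y)
    (b3 : ∀ x ∈ ce X₃, ∀ y ∈ ce C, lt x y)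
    (b12 : ∀ x ∈ ce X₁, ∀ y ∈ ce X₂, lt x y)
    (b23 : ∀ x ∈ ce X₂, ∀ y ∈ ce X₃, lt x y) : False := by
  obtain ⟨ha, hb, -⟩ := h E lt w hw hc hn
  obtain ⟨-, htr, hE⟩ := hc
  obtain ⟨hX₂C, -⟩ := P_isC h2
  obtain ⟨hX₃C, -⟩ := P_isC h3
  obtain ⟨d, hdC, -, ⟨-, -, f, -, hdf, p, hp, hfp⟩, ⟨y, hy, hdy⟩⟩ := h1
  have hcl := hcen.clique X₂ hX₂C
  have hsymm : ∀ a b, E a b → E b a := by
    intro a b hab
    rw [hE] at hab ⊢
    tauto
  have hne : ∃ x, x ∈ ce X₂ := by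
    have hlen : (ce X₂).length = w := hcl.1
    cases hce : ce X₂ with
    | nil => rw [hce] at hlen; simp at hlen; omega
    | cons a l => exact ⟨a, by simp⟩
  obtain ⟨x₀, hx₀⟩ := hne
  by_cases hT : T E d (ce X₂)
  · obtain ⟨p2, hp2, hdp2⟩ := hT
    exact ha (ce X₃) p2 y d (hcen.clique X₃ hX₃C) (fun x hx => b23 p2 hp2 x hx)
      (fun x hx => b3 x hx y hy) hdp2 hdy
  · rcases hb (ce X₂) d hcl hT with hlow | hup
    · have h3 : lt d y := htr _ _ _ (hlow x₀ hx₀) (b2 x₀ hx₀ y hy)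
      exact ((hE d y).1 hdy).2.1 h3
    · exact ha (ce X₂) p d f hcl (fun x hx => b12 p hp x hx) hup hfp (hsymm _ _ hdf)

lemma two (h : Stmt_ORD) {E lt : ℕ → ℕ → Prop} {w : ℕ} {isC : ℕ → Prop} {ce : ℕ → List ℕ}
    (hw : 2 ≤ w) (hc : CoComp E lt) (hn : NoBig E w) (hcen : Centres E w isC ce) {C : ℕ}
    (F : Finset ℕ) (hF : ∀ X ∈ F, P E isC ce C X)
    (hb : ∀ X ∈ F, ∀ x ∈ ce X, ∀ y ∈ ce C, lt x y) : F.card ≤ 2 := by
  by_contra hcard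
  have h3 : 2 < F.card := by omega
  obtain ⟨a, b, c, ha, hb', hc', hab, hac, hbc⟩ := Finset.two_lt_card_iff.1 h3
  have tot : ∀ X ∈ F, ∀ Y ∈ F, X ≠ Y → (∀ x ∈ ce X, ∀ y ∈ ce Y, lt x y) ∨
      (∀ x ∈ ce Y, ∀ y ∈ ce X, lt x y) := by
    intro X hX Y hY hne
    have hXC := (P_isC (hF X hX)).1
    have hYC := (P_isC (hF Y hY)).1
    rcases (h E lt w hw hc hn).2.2 (ce X) (ce Y) (hcen.clique _ hXC) (hcen.clique _ hYC)
      (hcen.apart _ _ hXC hYC hne) with h12 | h21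
    · exact Or.inl h12
    · exact Or.inr (fun x hx y hy => h21 y hy x hx)
  have go : ∀ X ∈ F, ∀ Y ∈ F, ∀ Z ∈ F, (∀ x ∈ ce X, ∀ y ∈ ce Y, lt x y) →
      (∀ x ∈ ce Y, ∀ y ∈ ce Z, lt x y) → False := by
    intro X hX Y hY Z hZ h12 h23
    exact three h hw hc hn hcen (hF X hX) (hF Y hY) (hF Z hZ) (hb Y hY) (hb Z hZ) h12 h23
  rcases tot a ha b hb' hab with s1 | s1
  · rcases tot b hb' c hc' hbc with s2 | s2
    · exact go a ha b hb' c hc' s1 s2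
    · rcases tot a ha c hc' hac with s3 | s3
      · exact go a ha c hc' b hb' s3 s2
      · exact go c hc' a ha b hb' s3 s1
  · rcases tot b hb' c hc' hbc with s2 | s2
    · rcases tot a ha c hc' hac with s3 | s3
      · exact go b hb' a ha c hc' s1 s3
      · exact go b hb' c hc' a ha s2 s3
    · exact go c hc' b hb' a ha s2 s1

end GAM4

open GAM4 in
theorem GAM4_thm (h : Stmt_ORD) : Stmt_GAM4 := by
  classical
  intro E lt w isC ce hw hc hn hcen C hC F hF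
  have hF' : ∀ X ∈ F, P E isC ce C X := hF
  have side : ∀ X ∈ F, (∀ x ∈ ce X, ∀ y ∈ ce C, lt x y) ∨ (∀ x ∈ ce X, ∀ y ∈ ce C, lt y x) := by
    intro X hX
    obtain ⟨hXC, hlt⟩ := P_isC (hF' X hX)
    exact (h E lt w hw hc hn).2.2 (ce X) (ce C) (hcen.clique _ hXC) (hcen.clique _ hC)
      (hcen.apart _ _ hXC hC (by omega))
  have h1 := two h hw hc hn hcen (F.filter (fun X => ∀ x ∈ ce X, ∀ y ∈ ce C, lt x y))
    (fun X hX => hF' X (Finset.mem_filter.1 hX).1) (fun X hX => (Finset.mem_filter.1 hX).2)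
  have h2 := two (lt := fun x y => lt y x) h hw (GAM.flip_coComp hc) hn hcen
    (F.filter (fun X => ¬ ∀ x ∈ ce X, ∀ y ∈ ce C, lt x y))
    (fun X hX => hF' X (Finset.mem_filter.1 hX).1) (fun X hX =>
      (side X (Finset.mem_filter.1 hX).1).resolve_left (Finset.mem_filter.1 hX).2)
  have h3 := Finset.card_filter_add_card_filter_not (s := F)
    (fun X => ∀ x ∈ ce X, ∀ y ∈ ce C, lt x y)
  omega

end Pool.Agent.CCG
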