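import Pool.Agent.CCG.Stmts
import Pool.Agent.CCG.Comp

/-!
# GRE: greedy colouring of a computable graph with few earlier neighbours
-/

set_option autoImplicit false

namespace Pool.Agent.CCG

open Computable

namespace GRE

/-- The greedy rule: `a` is the least label which is not the label of an earlier neighbour. -/
def Rule (Q : ℕ → ℕ → Prop) (l : List ℕ) (a : ℕ) : Prop :=
  (∀ X, X < l.length → (Q l.length X → ¬ l.getD X 0 = a)) ∧
    ∀ c, c < a → ∃ X, X < l.length ∧ (Q l.length X ∧ l.getD X 0 = c)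

theorem rule_cp (Q : ℕ → ℕ → Prop) (hQ : ComputablePred (fun p : ℕ × ℕ => Q p.1 p.2)) :
    ComputablePred fun x : List ℕ × ℕ => Rule Q x.1 x.2 := by
  refine cp_and ?_ ?_
  · refine cp_ball (α := List ℕ × ℕ) (t := fun x => x.1.length)
      (p := fun x X => Q x.1.length X → ¬ x.1.getD X 0 = x.2) (list_length.comp fst) ?_
    refine cp_imp ?_ (cp_not ?_)
    · exact cp_comp hQ ((list_length.comp (fst.comp fst)).pair snd)
    · exact cp_eq ((Primrec.list_getD 0).to_comp.comp (fst.comp fst) snd) (snd.comp fst)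
  · refine cp_ball (α := List ℕ × ℕ) (t := fun x => x.2)
      (p := fun x c => ∃ X, X < x.1.length ∧ (Q x.1.length X ∧ x.1.getD X 0 = c)) snd ?_
    refine cp_bex (α := (List ℕ × ℕ) × ℕ) (t := fun y => y.1.1.length)
      (p := fun y X => Q y.1.1.length X ∧ y.1.1.getD X 0 = y.2)
      (list_length.comp (fst.comp fst)) ?_
    refine cp_and ?_ ?_
    · exact cp_comp hQ ((list_length.comp (fst.comp (fst.comp fst))).pair snd)
    · exact cp_eq ((Primrec.list_getD 0).to_comp.comp (fst.comp (fst.comp fst)) snd)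
        (snd.comp fst)

theorem rule_ex (Q : ℕ → ℕ → Prop) (l : List ℕ) : ∃ a, Rule Q l a := by
  classical
  let S : Finset ℕ := (Finset.range l.length).image fun X => l.getD X 0
  have h1 : ∃ a, ∀ X, X < l.length → (Q l.length X → ¬ l.getD X 0 = a) := by
    obtain ⟨a, ha⟩ := Infinite.exists_notMem_finset S
    refine ⟨a, fun X hX _ h => ha ?_⟩
    exact Finset.mem_image.mpr ⟨X, Finset.mem_range.mpr hX, h⟩
  refine ⟨Nat.find h1, Nat.find_spec h1, fun c hc => ?_⟩
  have h2 := Nat.find_min h1 hc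
  push Not at h2
  exact h2

end GRE

open GRE in
/-- GRE. -/
theorem GRE_thm : Stmt_GRE := by
  classical
  intro Q k hQ hk
  obtain ⟨lam, hlam, hr⟩ := rec_choice (Φ := Rule Q) (rule_cp Q hQ) (rule_ex Q)
  have h1 : ∀ n X, X < n → Q n X → lam X ≠ lam n := by
    intro n X hX hq h
    have h2 := (hr n).1 X
    rw [hist_length, hist_getD, if_pos hX] at h2
    exact h2 hX hq h
  have h2 : ∀ n c, c < lam n → ∃ X, X < n ∧ Q n X ∧ lam X = c := by
    intro n c hc
    obtain ⟨X, hX, hq, h⟩ := (hr n).2 c hc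
    rw [hist_length] at hX hq
    rw [hist_getD, if_pos hX] at h
    exact ⟨X, hX, hq, h⟩
  refine ⟨lam, hlam, fun n => ?_, fun n X hX hq h => h1 n X hX hq h.symm⟩
  choose! g hg using h2 n
  have h3 := hk n ((Finset.range (lam n)).image g) (by
    intro X hX
    obtain ⟨c, hc, rfl⟩ := Finset.mem_image.mp hX
    have h4 := hg c (Finset.mem_range.mp hc)
    exact ⟨h4.1, h4.2.1⟩)
  rw [Finset.card_image_of_injOn, Finset.card_range] at h3
  · exact h3
  · intro c hc c' hc' h
    have e1 := (hg c (Finset.mem_range.mp hc)).2.2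
    have e2 := (hg c' (Finset.mem_range.mp hc')).2.2
    have h5 : g c = g c' := h
    rw [← e1, ← e2, h5]

end Pool.Agent.CCG
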