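import Pool.Agent.CCG.Stmts

/-!
# LABB: the number of labels
-/

namespace Pool.Agent.CCG

namespace LABB

variable {E : ℕ → ℕ → Prop} {act : ℕ → Prop} {κ ℓ : ℕ → ℕ}

theorem confAt_mono {n m A B : ℕ} (h : ConfAt E act κ n A B) (hnm : n ≤ m) :
    ConfAt E act κ m A B := by
  obtain ⟨h1, x, hx, y, hy, h2⟩ := h
  exact ⟨h1, x, hx.trans hnm, y, hy.trans hnm, h2⟩

theorem confAt_symm (hs : ∀ x y, E x y → E y x) {n A B : ℕ} (h : ConfAt E act κ n A B) :
    ConfAt E act κ n B A := by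
  obtain ⟨h1, x, hx, y, hy, h2, h3, h4, h5, h6⟩ := h
  exact ⟨h1.symm, y, hy, x, hx, h3, h2, h5, h4, hs _ _ h6⟩

theorem conf_of_confAt {n A B : ℕ} (h : ConfAt E act κ n A B) : Conf E act κ A B := by
  obtain ⟨h1, x, _, y, _, h2⟩ := h
  exact ⟨h1, x, y, h2⟩

/-- The data which belong to a label `c` of the cluster `B`. -/
def Dt (E : ℕ → ℕ → Prop) (act : ℕ → Prop) (κ ℓ : ℕ → ℕ) (B c u v u' : ℕ) : Prop :=
  act u ∧ κ u = B ∧ ℓ u = c ∧ v < u ∧ act v ∧ κ v = B ∧
    (∀ w, v < w → w < u → act w → κ w ≠ B) ∧ u' < u ∧ act u' ∧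
    ConfAt E act κ u B (κ u') ∧ ℓ u' = ℓ v

/-- Two labels with the same conflicting cluster. -/
theorem inj_aux (hs : ∀ x y, E x y → E y x) (hR : LabelRule E act κ ℓ) {B c₁ u₁ v₁ u₁' : ℕ}
    {c₂ u₂ v₂ u₂' : ℕ} (h₁ : Dt E act κ ℓ B c₁ u₁ v₁ u₁') (h₂ : Dt E act κ ℓ B c₂ u₂ v₂ u₂')
    (hk : κ u₁' = κ u₂') (hlt : u₁ < u₂) : False := by
  obtain ⟨a1, a2, a3, a4, a5, a6, a7, a8, a9, a10, a11⟩ := h₁
  obtain ⟨b1, b2, b3, b4, b5, b6, b7, b8, b9, b10, b11⟩ := h₂
  have hv : u₁ ≤ v₂ := by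
    by_contra hc
    push Not at hc
    exact b7 u₁ hc hlt a1 a2
  have hne : u₂' ≠ v₂ := by
    intro h
    apply b10.1
    rw [h, b6]
  rw [hk] at a10
  rcases lt_or_gt_of_ne hne with h | h
  · apply ((hR v₂).2 b5).1
    refine ⟨u₂', h, b9, ?_, b11⟩
    rw [b6]
    exact confAt_mono a10 hv
  · apply ((hR u₂').2 b9).1
    refine ⟨v₂, h, b5, ?_, b11.symm⟩
    rw [b6]
    exact confAt_symm hs (confAt_mono a10 (hv.trans h.le))

open Classical in
/-- The labels of the vertices before `n` of the cluster `B`. -/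
noncomputable def U (act : ℕ → Prop) (κ ℓ : ℕ → ℕ) (n B : ℕ) : Finset ℕ :=
  ((Finset.range n).filter (fun u => act u ∧ κ u = B)).image ℓ

theorem mem_U {n B c : ℕ} : c ∈ U act κ ℓ n B ↔ ∃ u, u < n ∧ act u ∧ κ u = B ∧ ℓ u = c := by
  classical
  rw [U, Finset.mem_image]
  constructor
  · rintro ⟨u, hu, rfl⟩
    rw [Finset.mem_filter, Finset.mem_range] at hu
    exact ⟨u, hu.1, hu.2.1, hu.2.2, rfl⟩
  · rintro ⟨u, h1, h2, h3, rfl⟩
    exact ⟨u, by rw [Finset.mem_filter, Finset.mem_range]; exact ⟨h1, h2, h3⟩, rfl⟩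

/-- The number of labels of a cluster. -/
theorem card_U (hs : ∀ x y, E x y → E y x) (hR : LabelRule E act κ ℓ) {Δ : ℕ}
    (hD : ∀ (A : ℕ) (F : Finset ℕ), (∀ B ∈ F, Conf E act κ A B) → F.card ≤ Δ) (n B : ℕ) :
    (U act κ ℓ n B).card ≤ Δ + 1 := by
  classical
  by_cases hex : ∃ u, act u ∧ κ u = B
  · -- the first vertex of the cluster
    let u₀ := Nat.find hex
    have hu₀ : act u₀ ∧ κ u₀ = B := Nat.find_spec hex
    have hu₀m : ∀ u, act u → κ u = B → u₀ ≤ u := fun u h1 h2 => Nat.find_min' hex ⟨h1, h2⟩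
    have key : ∀ c, c ∈ (U act κ ℓ n B).erase (ℓ u₀) → ∃ u v u', Dt E act κ ℓ B c u v u' := by
      intro c hc
      rw [Finset.mem_erase, mem_U] at hc
      obtain ⟨hc0, u, -, hu2, hu3, hu4⟩ := hc
      have hexc : ∃ u, act u ∧ κ u = B ∧ ℓ u = c := ⟨u, hu2, hu3, hu4⟩
      obtain ⟨w, hw, hwm⟩ : ∃ w, (act w ∧ κ w = B ∧ ℓ w = c) ∧
          ∀ u, act u → κ u = B → ℓ u = c → w ≤ u :=
        ⟨Nat.find hexc, Nat.find_spec hexc, fun u h1 h2 h3 => Nat.find_min' hexc ⟨h1, h2, h3⟩⟩
      have hw0 : u₀ < w := by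
        apply lt_of_le_of_ne (hu₀m w hw.1 hw.2.1)
        intro h
        apply hc0
        rw [h]
        exact hw.2.2.symm
      -- the preceding vertex
      let V := (Finset.range w).filter (fun v => act v ∧ κ v = B)
      have hV : V.Nonempty := ⟨u₀, by
        rw [Finset.mem_filter, Finset.mem_range]
        exact ⟨hw0, hu₀⟩⟩
      let v := V.max' hV
      have hvV : v ∈ V := Finset.max'_mem V hV
      have hv1 : v < w ∧ act v ∧ κ v = B := by
        rw [Finset.mem_filter, Finset.mem_range] at hvV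
        exact ⟨hvV.1, hvV.2⟩
      have hv2 : ∀ y, v < y → y < w → act y → κ y ≠ B := by
        intro y h1 h2 h3 h4
        have h5 : y ∈ V := by
          rw [Finset.mem_filter, Finset.mem_range]
          exact ⟨h2, h3, h4⟩
        have h6 := Finset.le_max' V y h5
        exact absurd h1 (not_lt.mpr h6)
      have hprev : Prev act κ w v := by
        refine ⟨hv1.1, hv1.2.1, hv1.2.2.trans hw.2.1.symm, fun y h1 h2 h3 => ?_⟩
        rw [hw.2.1]
        exact hv2 y h2 h1 h3
      have hvc : ℓ v ≠ c := by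
        intro h
        have := hwm v hv1.2.1 hv1.2.2 h
        exact absurd hv1.1 (not_lt.mpr this)
      have hforb : Forb E act κ ℓ w (ℓ v) := by
        by_contra hf
        have h1 := ((hR w).2 hw.1).2.1 v hprev hf
        apply hvc
        rw [← h1]
        exact hw.2.2
      obtain ⟨u', h1, h2, h3, h4⟩ := hforb
      rw [hw.2.1] at h3
      exact ⟨w, v, u', hw.1, hw.2.1, hw.2.2, hv1.1, hv1.2.1, hv1.2.2, hv2, h1, h2, h3, h4⟩
    choose! fu fv fu' hf using key
    have hinj : Set.InjOn (fun c => κ (fu' c)) ((U act κ ℓ n B).erase (ℓ u₀) : Finset ℕ) := by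
      intro c₁ hc₁ c₂ hc₂ h
      have h1 := hf c₁ hc₁
      have h2 := hf c₂ hc₂
      by_contra hne
      rcases lt_trichotomy (fu c₁) (fu c₂) with hlt | heq | hlt
      · exact inj_aux hs hR h1 h2 h hlt
      · apply hne
        rw [← h1.2.2.1, ← h2.2.2.1, heq]
      · exact inj_aux hs hR h2 h1 h.symm hlt
    have h1 := Finset.card_image_of_injOn hinj
    have h2 := hD B (((U act κ ℓ n B).erase (ℓ u₀)).image (fun c => κ (fu' c))) (by
      intro A hA
      obtain ⟨c, hc, rfl⟩ := Finset.mem_image.mp hA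
      exact conf_of_confAt (hf c hc).2.2.2.2.2.2.2.2.2.1)
    rw [h1] at h2
    have h3 := Finset.pred_card_le_card_erase (s := U act κ ℓ n B) (a := ℓ u₀)
    omega
  · have h1 : U act κ ℓ n B = ∅ := by
      rw [Finset.eq_empty_iff_forall_notMem]
      intro c hc
      rw [mem_U] at hc
      obtain ⟨u, -, h1, h2, -⟩ := hc
      exact hex ⟨u, h1, h2⟩
    rw [h1, Finset.card_empty]
    exact Nat.zero_le _

end LABB

open LABB in
theorem LABB_thm : Stmt_LABB := by
  classical
  intro E act κ ℓ Δ hs hR hD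
  constructor
  · intro v
    induction v using Nat.strong_induction_on with
    | _ n ih =>
      by_cases ha : act n
      · rcases ((hR n).2 ha).2.2 with ⟨v, hv, hv'⟩ | h
        · rw [hv']
          exact ih v hv.1
        · let G := ((Finset.range n).filter
            (fun u => act u ∧ Conf E act κ (κ n) (κ u))).image κ
          have hG : G.card ≤ Δ := by
            apply hD (κ n)
            intro B hB
            obtain ⟨u, hu, rfl⟩ := Finset.mem_image.mp hB
            exact (Finset.mem_filter.mp hu).2.2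
          have hsub : Finset.range (ℓ n) ⊆ G.biUnion (fun B => U act κ ℓ n B) := by
            intro c hc
            obtain ⟨u, h1, h2, h3, h4⟩ := h c (Finset.mem_range.mp hc)
            rw [Finset.mem_biUnion]
            refine ⟨κ u, Finset.mem_image.mpr ⟨u, ?_, rfl⟩, mem_U.mpr ⟨u, h1, h2, rfl, h4⟩⟩
            rw [Finset.mem_filter, Finset.mem_range]
            exact ⟨h1, h2, conf_of_confAt h3⟩
          have h1 := Finset.card_le_card hsub
          rw [Finset.card_range] at h1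
          have h2 := Finset.card_biUnion_le_card_mul G (fun B => U act κ ℓ n B) (Δ + 1)
            (fun B _ => card_U hs hR hD n B)
          exact (h1.trans h2).trans (Nat.mul_le_mul_right _ hG)
      · rw [(hR n).1 ha]
        exact Nat.zero_le _
  · have key : ∀ x y, x < y → act x → act y → E x y → κ x ≠ κ y → ℓ x ≠ ℓ y := by
      intro x y hxy hx hy hE hk h
      apply ((hR y).2 hy).1
      exact ⟨x, hxy, hx, ⟨hk.symm, y, le_refl y, x, hxy.le, hy, hx, rfl, rfl, hs _ _ hE⟩, h⟩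
    intro x y hx hy hE hk
    rcases lt_trichotomy x y with h | h | h
    · exact key x y h hx hy hE hk
    · exact absurd (congrArg κ h) hk
    · exact (key y x h hy hx (hs _ _ hE) hk.symm).symm

end Pool.Agent.CCG
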