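import Pool.Agent.CCG.Stmts
import Pool.Agent.CCG.Comp

/-!
# LABC: labels which follow the label rule can be computed
-/

namespace Pool.Agent.CCG

open Computable

namespace LABC

variable (E : ℕ → ℕ → Prop) (act : ℕ → Prop) (κ : ℕ → ℕ)

/-- The label `c` is forbidden after the history `l`. -/
def FL (l : List ℕ) (c : ℕ) : Prop :=
  ∃ u, u < l.length ∧ (act u ∧ ConfAt E act κ l.length (κ l.length) (κ u) ∧ l.getD u 0 = c)

/-- `v` precedes the new vertex in its cluster. -/
def PV (l : List ℕ) (v : ℕ) : Prop :=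
  act v ∧ κ v = κ l.length ∧ ∀ v', v' < l.length → (v < v' → act v' → ¬ κ v' = κ l.length)

/-- The rule for the history `l` and the new label `a`. -/
def Phi (l : List ℕ) (a : ℕ) : Prop :=
  (¬ act l.length → a = 0) ∧ (act l.length →
    ¬ FL E act κ l a ∧
    (∀ v, v < l.length → (PV act κ l v → ¬ FL E act κ l (l.getD v 0) → a = l.getD v 0)) ∧
    ((∃ v, v < l.length ∧ (PV act κ l v ∧ a = l.getD v 0)) ∨ ∀ c, c < a → FL E act κ l c))

variable {E act κ}

theorem cp_conf (hE : ComputablePred fun p : ℕ × ℕ => E p.1 p.2) (ha : ComputablePred act)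
    (hk : Computable κ) :
    ComputablePred fun x : ℕ × ℕ × ℕ => ConfAt E act κ x.1 x.2.1 x.2.2 := by
  refine cp_and (cp_not (cp_eq (fst.comp snd) (snd.comp snd))) ?_
  refine cp_bex_le (α := ℕ × ℕ × ℕ) (t := fun x => x.1)
    (p := fun x a => ∃ b, b ≤ x.1 ∧ (act a ∧ act b ∧ κ a = x.2.1 ∧ κ b = x.2.2 ∧ E a b)) fst ?_
  refine cp_bex_le (α := (ℕ × ℕ × ℕ) × ℕ) (t := fun y => y.1.1)
    (p := fun y b => act y.2 ∧ act b ∧ κ y.2 = y.1.2.1 ∧ κ b = y.1.2.2 ∧ E y.2 b)
    (fst.comp fst) ?_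
  refine cp_and (cp_comp ha (snd.comp fst)) (cp_and (cp_comp ha snd) (cp_and ?_ (cp_and ?_ ?_)))
  · exact cp_eq (hk.comp (snd.comp fst)) (fst.comp (snd.comp (fst.comp fst)))
  · exact cp_eq (hk.comp snd) (snd.comp (snd.comp (fst.comp fst)))
  · exact cp_comp hE ((snd.comp fst).pair snd)

theorem cp_FL (hE : ComputablePred fun p : ℕ × ℕ => E p.1 p.2) (ha : ComputablePred act)
    (hk : Computable κ) : ComputablePred fun x : List ℕ × ℕ => FL E act κ x.1 x.2 := by
  refine cp_bex (α := List ℕ × ℕ) (t := fun x => x.1.length)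
    (p := fun x u => act u ∧ ConfAt E act κ x.1.length (κ x.1.length) (κ u) ∧
      x.1.getD u 0 = x.2) (list_length.comp fst) ?_
  refine cp_and (cp_comp ha snd) (cp_and ?_ ?_)
  · exact cp_comp (cp_conf hE ha hk) ((list_length.comp (fst.comp fst)).pair
      ((hk.comp (list_length.comp (fst.comp fst))).pair (hk.comp snd)))
  · exact cp_eq ((Primrec.list_getD 0).to_comp.comp (fst.comp fst) snd) (snd.comp fst)

theorem cp_PV (ha : ComputablePred act) (hk : Computable κ) :
    ComputablePred fun x : List ℕ × ℕ => PV act κ x.1 x.2 := by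
  refine cp_and (cp_comp ha snd) (cp_and ?_ ?_)
  · exact cp_eq (hk.comp snd) (hk.comp (list_length.comp fst))
  · refine cp_ball (α := List ℕ × ℕ) (t := fun x => x.1.length)
      (p := fun x v' => x.2 < v' → act v' → ¬ κ v' = κ x.1.length) (list_length.comp fst) ?_
    refine cp_imp (cp_lt (snd.comp fst) snd) (cp_imp (cp_comp ha snd) (cp_not ?_))
    exact cp_eq (hk.comp snd) (hk.comp (list_length.comp (fst.comp fst)))

theorem cp_Phi (hE : ComputablePred fun p : ℕ × ℕ => E p.1 p.2) (ha : ComputablePred act)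
    (hk : Computable κ) : ComputablePred fun x : List ℕ × ℕ => Phi E act κ x.1 x.2 := by
  have hg : Computable fun y : (List ℕ × ℕ) × ℕ => y.1.1.getD y.2 0 :=
    (Primrec.list_getD 0).to_comp.comp (fst.comp fst) snd
  refine cp_and ?_ (cp_imp ?_ (cp_and ?_ (cp_and ?_ (cp_or ?_ ?_))))
  · exact cp_imp (cp_not (cp_comp ha (list_length.comp fst))) (cp_eq snd (const 0))
  · exact cp_comp ha (list_length.comp fst)
  · exact cp_not (cp_FL hE ha hk)
  · refine cp_ball (α := List ℕ × ℕ) (t := fun x => x.1.length)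
      (p := fun x v => PV act κ x.1 v → ¬ FL E act κ x.1 (x.1.getD v 0) → x.2 = x.1.getD v 0)
      (list_length.comp fst) ?_
    refine cp_imp ?_ (cp_imp (cp_not ?_) ?_)
    · exact cp_comp (cp_PV ha hk) ((fst.comp fst).pair snd)
    · exact cp_comp (cp_FL hE ha hk) ((fst.comp fst).pair hg)
    · exact cp_eq (snd.comp fst) hg
  · refine cp_bex (α := List ℕ × ℕ) (t := fun x => x.1.length)
      (p := fun x v => PV act κ x.1 v ∧ x.2 = x.1.getD v 0) (list_length.comp fst) ?_
    refine cp_and ?_ ?_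
    · exact cp_comp (cp_PV ha hk) ((fst.comp fst).pair snd)
    · exact cp_eq (snd.comp fst) hg
  · refine cp_ball (α := List ℕ × ℕ) (t := fun x => x.2)
      (p := fun x c => FL E act κ x.1 c) snd ?_
    exact cp_comp (cp_FL hE ha hk) ((fst.comp fst).pair snd)

theorem phi_ex (l : List ℕ) : ∃ a, Phi E act κ l a := by
  classical
  by_cases hact : act l.length
  · by_cases hp : ∃ v, v < l.length ∧ PV act κ l v ∧ ¬ FL E act κ l (l.getD v 0)
    · obtain ⟨v, hv, hv1, hv2⟩ := hp
      refine ⟨l.getD v 0, fun h => absurd hact h, fun _ => ⟨hv2, ?_, Or.inl ⟨v, hv, hv1, rfl⟩⟩⟩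
      intro v' hv' h1 _
      have he : v' = v := by
        rcases lt_trichotomy v' v with h | h | h
        · exact absurd hv1.2.1 (h1.2.2 v hv h hv1.1)
        · exact h
        · exact absurd h1.2.1 (hv1.2.2 v' hv' h h1.1)
      rw [he]
    · have h1 : ∃ a, ¬ FL E act κ l a := by
        obtain ⟨a, ha⟩ := Infinite.exists_notMem_finset
          ((Finset.range l.length).image fun u => l.getD u 0)
        refine ⟨a, fun ⟨u, hu, _, _, h⟩ => ha ?_⟩
        exact Finset.mem_image.mpr ⟨u, Finset.mem_range.mpr hu, h⟩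
      refine ⟨Nat.find h1, fun h => absurd hact h, fun _ => ⟨Nat.find_spec h1, ?_, Or.inr ?_⟩⟩
      · intro v hv hv1 hv2
        exact absurd ⟨v, hv, hv1, hv2⟩ hp
      · intro c hc
        by_contra h2
        exact Nat.find_min h1 hc h2
  · exact ⟨0, fun _ => rfl, fun h => absurd h hact⟩

theorem FL_hist (f : ℕ → ℕ) (n c : ℕ) :
    FL E act κ ((List.range n).map f) c ↔ Forb E act κ f n c := by
  unfold FL Forb
  rw [hist_length]
  constructor
  · rintro ⟨u, hu, h1, h2, h3⟩
    rw [hist_getD, if_pos hu] at h3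
    exact ⟨u, hu, h1, h2, h3⟩
  · rintro ⟨u, hu, h1, h2, h3⟩
    refine ⟨u, hu, h1, h2, ?_⟩
    rw [hist_getD, if_pos hu]
    exact h3

theorem PV_hist (f : ℕ → ℕ) (n v : ℕ) (h : Prev act κ n v) :
    PV act κ ((List.range n).map f) v := by
  unfold PV
  rw [hist_length]
  exact ⟨h.2.1, h.2.2.1, h.2.2.2⟩

theorem hist_PV (f : ℕ → ℕ) (n v : ℕ) (hv : v < n) (h : PV act κ ((List.range n).map f) v) :
    Prev act κ n v := by
  unfold PV at h
  rw [hist_length] at h
  exact ⟨hv, h.1, h.2.1, h.2.2⟩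

end LABC

open LABC in
/-- LABC. -/
theorem LABC_thm : Stmt_LABC := by
  intro E act κ hE ha hk
  obtain ⟨f, hf, hr⟩ := rec_choice (Φ := Phi E act κ) (cp_Phi hE ha hk) phi_ex
  refine ⟨f, hf, fun n => ?_⟩
  obtain ⟨h0, h1⟩ := hr n
  rw [hist_length] at h0 h1
  refine ⟨h0, fun hact => ?_⟩
  obtain ⟨h2, h3, h4⟩ := h1 hact
  rw [FL_hist] at h2
  refine ⟨h2, fun v hv hv2 => ?_, ?_⟩
  · have h5 := h3 v hv.1 (PV_hist f n v hv)
    rw [hist_getD, if_pos hv.1, FL_hist] at h5
    exact h5 hv2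
  · rcases h4 with ⟨v, hv, hv1, hv2⟩ | h4
    · rw [hist_getD, if_pos hv] at hv2
      exact Or.inl ⟨v, hist_PV f n v hv hv1, hv2⟩
    · refine Or.inr fun c hc => ?_
      have h6 := h4 c hc
      rwa [FL_hist] at h6

end Pool.Agent.CCG
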