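import Pool.Agent.CCG.Stmts2
import Pool.Agent.CCG.Comp

/-!
# LEV: levels, blocks and ranks are computable (helper68)
-/

namespace Pool.Agent.CCG

namespace LEV

open Computable

/-- Bounded counting. -/
theorem cp_count {α : Type*} [Primcodable α] {t : α → ℕ} {p : α → ℕ → Prop}
    [inst : ∀ a, DecidablePred (p a)] (ht : Computable t)
    (hp : ComputablePred fun x : α × ℕ => p x.1 x.2) :
    Computable fun a => ((Finset.range (t a)).filter (fun m => p a m)).card := by
  obtain ⟨f, hf, h⟩ := cp_bool hp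
  have h1 : Computable fun a : α => Nat.rec (motive := fun _ => ℕ) 0
      (fun y IH => cond (f (a, y)) (IH + 1) IH) (t a) :=
    Computable.nat_rec ht (const 0)
      ((Computable.cond (hf.comp (fst.pair (fst.comp snd))) (succ.comp (snd.comp snd))
        (snd.comp snd)).to₂)
  refine h1.of_eq fun a => ?_
  have key : ∀ n, (Nat.rec (motive := fun _ => ℕ) 0
      (fun y IH => cond (f (a, y)) (IH + 1) IH) n) =
      ((Finset.range n).filter (fun m => p a m)).card := by
    intro n
    induction n with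
    | zero => simp
    | succ n ih =>
      have h2 : (Nat.rec (motive := fun _ => ℕ) 0
        (fun y IH => cond (f (a, y)) (IH + 1) IH) (n + 1)) =
        cond (f (a, n)) ((Nat.rec (motive := fun _ => ℕ) 0
          (fun y IH => cond (f (a, y)) (IH + 1) IH) n) + 1) (Nat.rec (motive := fun _ => ℕ) 0
          (fun y IH => cond (f (a, y)) (IH + 1) IH) n) := rfl
      rw [h2, ih, Finset.range_add_one, Finset.filter_insert]
      by_cases h3 : p a n
      · rw [if_pos h3, (h (a, n)).2 h3, cond_true, Finset.card_insert_of_notMem]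
        simp
      · have h4 : f (a, n) = false := by
          rw [← Bool.not_eq_true]
          exact fun h5 => h3 ((h (a, n)).1 h5)
        rw [if_neg h3, h4, cond_false]
  exact key (t a)

/-- Finitely many computable predicates can be combined. -/
theorem cp_fin {α : Type*} [Primcodable α] {P : ℕ → α → Prop}
    (hP : ∀ j, ComputablePred (P j)) (r : ℕ) :
    ComputablePred fun x : α × ℕ => x.2 < r ∧ P x.2 x.1 := by
  induction r with
  | zero => exact (cp_const False).of_eq fun x => by simp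
  | succ r ih =>
    refine (cp_or ih (cp_and (cp_eq (α := α × ℕ) snd (const r))
      (cp_comp (hP r) (f := fun x : α × ℕ => x.1) fst))).of_eq fun x => ?_
    constructor
    · rintro (⟨h1, h2⟩ | ⟨h1, h2⟩)
      · exact ⟨by omega, h2⟩
      · refine ⟨by omega, ?_⟩
        rw [h1]
        exact h2
    · rintro ⟨h1, h2⟩
      by_cases h3 : x.2 = r
      · refine Or.inr ⟨h3, ?_⟩
        rw [h3] at h2
        exact h2
      · exact Or.inl ⟨by omega, h2⟩

variable {E : ℕ → ℕ → Prop} {isC : ℕ → Prop} {ce : ℕ → List ℕ} {κ : ℕ → ℕ}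

theorem cp_SameT {α : Type*} [Primcodable α] (hE : ComputablePred fun p : ℕ × ℕ => E p.1 p.2)
    (hce : Computable ce) (hκ : Computable κ) {f g : α → ℕ} (hf : Computable f)
    (hg : Computable g) : ComputablePred fun a => SameT E ce κ (f a) (g a) :=
  cp_and (cp_eq (hκ.comp hf) (hκ.comp hg))
    (cp_ball_list (p := fun a x => (E (f a) x ↔ E (g a) x)) (hce.comp (hκ.comp hg))
      (cp_iff (cp_comp hE ((hf.comp fst).pair snd)) (cp_comp hE ((hg.comp fst).pair snd))))

theorem cp_QK (hE : ComputablePred fun p : ℕ × ℕ => E p.1 p.2)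
    (hZ : ComputablePred fun v => Z0 E isC ce v)
    (hce : Computable ce) (hκ : Computable κ) (j : ℕ) :
    ComputablePred fun v => QK E isC ce κ j v v := by
  refine cp_tuple j (α := ℕ) (t := fun v => v)
    (p := fun v s => s.Pairwise E ∧ ∀ x ∈ s, Z0 E isC ce x ∧ SameT E ce κ x v) Computable.id ?_
  refine cp_and (cp_pairwise (l := fun x : ℕ × List ℕ => x.2) snd hE) ?_
  exact cp_ball_list (α := ℕ × List ℕ) (l := fun x => x.2)
    (p := fun x y => Z0 E isC ce y ∧ SameT E ce κ y x.1) snd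
    (cp_and (cp_comp hZ snd) (cp_SameT hE hce hκ snd (fst.comp fst)))

theorem sameT_refl (v : ℕ) : SameT E ce κ v v := ⟨rfl, fun _ _ => Iff.rfl⟩

theorem QK_one {v : ℕ} (h : Z0 E isC ce v) : QK E isC ce κ 1 v v := by
  refine ⟨[v], rfl, ?_, by simp, ?_⟩
  · intro x hx
    rw [List.mem_singleton] at hx
    rw [hx]
  · intro x hx
    rw [List.mem_singleton] at hx
    rw [hx]
    exact ⟨h, sameT_refl v⟩

theorem not_QK {w : ℕ} (h : NoBig E w) (n v : ℕ) : ¬ QK E isC ce κ (w + 1) n v := by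
  rintro ⟨t, h1, -, h2, -⟩
  exact h t ⟨h1, h2⟩

theorem exists_lev {w : ℕ} (h : NoBig E w) {v : ℕ} (hv : Z0 E isC ce v) :
    ∃ k, k < w + 1 ∧ (1 ≤ k ∧ QK E isC ce κ k v v ∧ ¬ QK E isC ce κ (k + 1) v v) := by
  classical
  have hw : 1 ≤ w := by
    by_contra hw
    have h0 : w = 0 := by omega
    subst h0
    exact not_QK h v v (QK_one (κ := κ) hv)
  have h1 := QK_one (κ := κ) hv
  have hle : Nat.findGreatest (fun j => QK E isC ce κ j v v) w ≤ w :=
    Nat.findGreatest_le _
  refine ⟨Nat.findGreatest (fun j => QK E isC ce κ j v v) w, by omega, ?_, ?_, ?_⟩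
  · exact Nat.le_findGreatest (P := fun j => QK E isC ce κ j v v) hw h1
  · exact Nat.findGreatest_spec (P := fun j => QK E isC ce κ j v v) hw h1
  · intro h2
    by_cases h3 : Nat.findGreatest (fun j => QK E isC ce κ j v v) w + 1 ≤ w
    · have h4 := Nat.le_findGreatest (P := fun j => QK E isC ce κ j v v) h3 h2
      omega
    · have h5 : Nat.findGreatest (fun j => QK E isC ce κ j v v) w = w := by omega
      rw [h5] at h2
      exact not_QK h v v h2

end LEV

open Computable in
open Classical in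
/-- LEV -/
theorem LEV_thm : Stmt_LEV := by
  intro E lt w isC ce κ _ hNB hE hZ hce hκ
  -- levels
  have hP : ∀ j, ComputablePred (fun v => 1 ≤ j ∧ QK E isC ce κ j v v ∧
      ¬ QK E isC ce κ (j + 1) v v) := fun j =>
    cp_and (cp_const _) (cp_and (LEV.cp_QK hE hZ hce hκ j) (cp_not (LEV.cp_QK hE hZ hce hκ (j + 1))))
  obtain ⟨lev, hlev, hlev'⟩ := choice (α := ℕ) (σ := ℕ)
    (p := fun v k => Z0 E isC ce v → k < w + 1 ∧ (1 ≤ k ∧ QK E isC ce κ k v v ∧
      ¬ QK E isC ce κ (k + 1) v v))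
    (cp_imp (cp_comp hZ fst) (LEV.cp_fin hP (w + 1))) (by
      intro v
      by_cases h : Z0 E isC ce v
      · obtain ⟨k, hk⟩ := LEV.exists_lev (κ := κ) hNB h
        exact ⟨k, fun _ => hk⟩
      · exact ⟨0, fun h' => absurd h' h⟩)
  -- blocks
  have hB : ∀ {f g : ℕ × ℕ → ℕ}, Computable f → Computable g →
      ComputablePred fun a => Blk E isC ce κ lev (f a) (g a) := fun hf hg =>
    cp_and (cp_comp hZ hf) (cp_and (LEV.cp_SameT hE hce hκ hf hg)
      (cp_eq (hlev.comp hf) (hlev.comp hg)))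
  have hB3 : ComputablePred fun x : (ℕ × ℕ) × ℕ => ¬ Blk E isC ce κ lev x.2 x.1.1 :=
    cp_not (cp_comp (hB fst snd) (f := fun x : (ℕ × ℕ) × ℕ => (x.2, x.1.1))
      (snd.pair (fst.comp fst)))
  obtain ⟨fs, hfs, hfs'⟩ := choice (α := ℕ) (σ := ℕ)
    (p := fun v m => Z0 E isC ce v → m ≤ v ∧ Blk E isC ce κ lev m v ∧
      ∀ u, u < m → ¬ Blk E isC ce κ lev u v)
    (cp_imp (cp_comp hZ fst) (cp_and (cp_le snd fst) (cp_and (hB snd fst)
      (cp_ball (α := ℕ × ℕ) (t := fun x => x.2)
        (p := fun x u => ¬ Blk E isC ce κ lev u x.1) snd hB3)))) (by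
      intro v
      by_cases h : Z0 E isC ce v
      · have hv : Blk E isC ce κ lev v v := ⟨h, LEV.sameT_refl v, rfl⟩
        have hex : ∃ u, Blk E isC ce κ lev u v := ⟨v, hv⟩
        exact ⟨Nat.find hex, fun _ => ⟨Nat.find_min' hex hv, Nat.find_spec hex,
          fun u hu => Nat.find_min hex hu⟩⟩
      · exact ⟨0, fun h' => absurd h' h⟩)
  -- ranks
  refine ⟨lev, fs, fun v => ((Finset.range (fs v)).filter
    (fun u => Z0 E isC ce u ∧ fs u = u ∧ κ u = κ v ∧ lev u = lev v)).card, hlev, hfs, ?_,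
    ⟨fun v hv => ⟨(hlev' v hv).2.1, (hlev' v hv).2.2.1⟩, fun v hv => (hlev' v hv).2.2.2,
      fun v hv => ⟨(hfs' v hv).1, (hfs' v hv).2.1⟩, fun v hv => (hfs' v hv).2.2,
      fun v _ => rfl⟩⟩
  exact LEV.cp_count (α := ℕ) (t := fun v => fs v)
    (p := fun v u => Z0 E isC ce u ∧ fs u = u ∧ κ u = κ v ∧ lev u = lev v) hfs
    (cp_and (cp_comp hZ snd) (cp_and (cp_eq (hfs.comp snd) snd)
      (cp_and (cp_eq (hκ.comp snd) (hκ.comp fst)) (cp_eq (hlev.comp snd) (hlev.comp fst)))))

end Pool.Agent.CCG
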