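import Pool.Agent.CCG.Stmts
import Pool.Agent.CCG.Comp

/-!
# SEL: computability of the zones and of selectors
-/

namespace Pool.Agent.CCG

namespace SEL

open Computable

variable {α : Type*} [Primcodable α]

theorem cp_T {E : ℕ → ℕ → Prop} (hE : ComputablePred fun p : ℕ × ℕ => E p.1 p.2) {f : α → ℕ}
    {g : α → List ℕ} (hf : Computable f) (hg : Computable g) :
    ComputablePred fun a => T E (f a) (g a) :=
  cp_bex_list (p := fun a x => E (f a) x) hg (cp_comp hE ((hf.comp fst).pair snd))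

theorem cp_Z0 {E : ℕ → ℕ → Prop} {isC : ℕ → Prop} {ce : ℕ → List ℕ}
    (hE : ComputablePred fun p : ℕ × ℕ => E p.1 p.2) (hC : ComputablePred isC)
    (hce : Computable ce) : ComputablePred fun v => Z0 E isC ce v :=
  cp_bex_le (t := fun v => v) (p := fun v m => isC m ∧ T E v (ce m)) Computable.id
    (cp_and (cp_comp hC snd) (cp_T hE fst (hce.comp snd)))

theorem cp_far {E : ℕ → ℕ → Prop} {ce : ℕ → List ℕ}
    (hE : ComputablePred fun p : ℕ × ℕ => E p.1 p.2)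
    (hce : Computable ce) :
    ComputablePred fun p : ℕ × ℕ => ∃ f, f < p.1 ∧ E p.1 f ∧ T E f (ce p.2) :=
  cp_bex (t := fun p : ℕ × ℕ => p.1) (p := fun p f => E p.1 f ∧ T E f (ce p.2)) fst
    (cp_and (cp_comp hE ((fst.comp fst).pair snd)) (cp_T hE snd (hce.comp (snd.comp fst))))

theorem cp_Nb {E : ℕ → ℕ → Prop} {isC : ℕ → Prop} {ce : ℕ → List ℕ}
    (hE : ComputablePred fun p : ℕ × ℕ => E p.1 p.2) (hC : ComputablePred isC)
    (hce : Computable ce) : ComputablePred fun p : ℕ × ℕ => Nb E isC ce p.1 p.2 :=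
  cp_and (cp_le snd fst) (cp_and (cp_comp hC snd) (cp_far hE hce))

theorem cp_exNb {E : ℕ → ℕ → Prop} {isC : ℕ → Prop} {ce : ℕ → List ℕ}
    (hE : ComputablePred fun p : ℕ × ℕ => E p.1 p.2) (hC : ComputablePred isC)
    (hce : Computable ce) : ComputablePred fun v => ∃ m, Nb E isC ce v m :=
  (cp_bex_le (t := fun v => v) (p := fun v m => Nb E isC ce v m) Computable.id
    (cp_Nb hE hC hce)).of_eq fun _ => ⟨fun ⟨m, _, h⟩ => ⟨m, h⟩, fun ⟨m, h⟩ => ⟨m, h.1, h⟩⟩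

theorem cp_exNb_ne {E : ℕ → ℕ → Prop} {isC : ℕ → Prop} {ce : ℕ → List ℕ} {κ : ℕ → ℕ}
    (hE : ComputablePred fun p : ℕ × ℕ => E p.1 p.2) (hC : ComputablePred isC)
    (hce : Computable ce) (hκ : Computable κ) :
    ComputablePred fun v => ∃ m, Nb E isC ce v m ∧ m ≠ κ v :=
  (cp_bex_le (t := fun v => v) (p := fun v m => Nb E isC ce v m ∧ m ≠ κ v) Computable.id
    (cp_and (cp_Nb hE hC hce) (cp_not (cp_eq snd (hκ.comp fst))))).of_eq fun _ =>
    ⟨fun ⟨m, _, h⟩ => ⟨m, h⟩, fun ⟨m, h⟩ => ⟨m, h.1.1, h⟩⟩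

end SEL

open Computable in
/-- SEL -/
theorem SEL_thm : Stmt_SEL := by
  intro E w isC ce hE hC hce hw
  have hZ := SEL.cp_Z0 hE hC hce
  have hN := SEL.cp_Nb hE hC hce
  have hX := SEL.cp_exNb hE hC hce
  refine ⟨hZ, hN, hX, SEL.cp_T hE fst (hce.comp snd), ?_⟩
  obtain ⟨κ, hκ, hκ'⟩ := choice (α := ℕ) (σ := ℕ)
    (p := fun v m => (Z0 E isC ce v → m ≤ v ∧ isC m ∧ T E v (ce m)) ∧
      (¬ Z0 E isC ce v → (∃ m', Nb E isC ce v m') → Nb E isC ce v m))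
    (cp_and
      (cp_imp (cp_comp hZ fst) (cp_and (cp_le snd fst) (cp_and (cp_comp hC snd)
        (SEL.cp_T hE fst (hce.comp snd)))))
      (cp_imp (cp_not (cp_comp hZ fst)) (cp_imp (cp_comp hX fst) hN))) (by
    intro v
    by_cases h : Z0 E isC ce v
    · obtain ⟨m, hm⟩ := h
      exact ⟨m, fun _ => hm, fun h' => absurd ⟨m, hm⟩ h'⟩
    · by_cases h2 : ∃ m', Nb E isC ce v m'
      · obtain ⟨m, hm⟩ := h2
        exact ⟨m, fun h' => absurd h' h, fun _ _ => hm⟩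
      · exact ⟨0, fun h' => absurd h' h, fun _ h' => absurd h' h2⟩)
  have hY := SEL.cp_exNb_ne hE hC hce hκ
  obtain ⟨γ, hγ, hγ'⟩ := choice (α := ℕ) (σ := ℕ)
    (p := fun v m => (∃ m', Nb E isC ce v m' ∧ m' ≠ κ v) → Nb E isC ce v m ∧ m ≠ κ v)
    (cp_imp (cp_comp hY fst) (cp_and hN (cp_not (cp_eq snd (hκ.comp fst))))) (by
    intro v
    by_cases h2 : ∃ m', Nb E isC ce v m' ∧ m' ≠ κ v
    · obtain ⟨m, hm⟩ := h2
      exact ⟨m, fun _ => hm⟩
    · exact ⟨0, fun h' => absurd h' h2⟩)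
  obtain ⟨idx, hidx, hidx'⟩ := choice (α := ℕ) (σ := ℕ)
    (p := fun v i => Z0 E isC ce v → i < w ∧ E v ((ce (κ v)).getD i 0))
    (cp_imp (cp_comp hZ fst) (cp_and (cp_lt snd (const w))
      (cp_comp hE (fst.pair ((Primrec.list_getD 0).to_comp.comp (hce.comp (hκ.comp fst)) snd)))))
    (by
    intro v
    by_cases h : Z0 E isC ce v
    · obtain ⟨-, hc, x, hx, hvx⟩ := (hκ' v).1 h
      obtain ⟨i, hi, rfl⟩ := List.mem_iff_getElem.1 hx
      refine ⟨i, fun _ => ⟨?_, ?_⟩⟩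
      · rw [← hw _ hc]
        exact hi
      · rw [List.getD_eq_getElem _ _ hi]
        exact hvx
    · exact ⟨0, fun h' => absurd h' h⟩)
  exact ⟨κ, γ, idx, hκ, hγ, hidx, hY, fun v h => (hκ' v).1 h, fun v h => (hκ' v).2 h,
    fun v _ h => hγ' v h, fun v h => hidx' v h⟩

end Pool.Agent.CCG
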