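import Pool.Agent.CCG.Stmts2
import Pool.Agent.CCG.Comp
import Pool.Agent.CCG.SEL

namespace Pool.Agent.CCG

namespace LEVb

open Computable

variable {α : Type*} [Primcodable α]

open Classical in
theorem cp_count {t : α → ℕ} {p : α → ℕ → Prop} (ht : Computable t)
    (hp : ComputablePred fun x : α × ℕ => p x.1 x.2) :
    Computable fun a => ((Finset.range (t a)).filter (p a)).card := by
  obtain ⟨f, hf, h⟩ := cp_bool hp
  have h1 : Computable fun a : α => Nat.rec (motive := fun _ => ℕ) 0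
      (fun m acc => cond (f (a, m)) (acc + 1) acc) (t a) := by
    refine Computable.nat_rec (h := fun a (x : ℕ × ℕ) => cond (f (a, x.1)) (x.2 + 1) x.2) ht
      (const 0) ?_
    refine Computable.cond (hf.comp (fst.pair (fst.comp snd))) ?_ (snd.comp snd)
    exact succ.comp (snd.comp snd)
  refine h1.of_eq fun a => ?_
  induction t a with
  | zero => simp
  | succ n ih =>
    rw [Finset.range_add_one, Finset.filter_insert]
    simp only [ih]
    by_cases h2 : p a n
    · rw [if_pos h2, Finset.card_insert_of_notMem (by simp), (h (a, n)).2 h2]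
      rfl
    · rw [if_neg h2]
      have : f (a, n) = false := by
        cases h3 : f (a, n)
        · rfl
        · exact absurd ((h (a, n)).1 h3) h2
      rw [this]
      rfl

theorem cp_SameT {E : ℕ → ℕ → Prop} {ce : ℕ → List ℕ} {κ : ℕ → ℕ}
    (hE : ComputablePred fun p : ℕ × ℕ => E p.1 p.2) (hce : Computable ce) (hκ : Computable κ)
    {u v : α → ℕ} (hu : Computable u) (hv : Computable v) :
    ComputablePred fun a => SameT E ce κ (u a) (v a) := by
  unfold SameT
  refine cp_and (cp_eq (hκ.comp hu) (hκ.comp hv)) ?_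
  refine cp_ball_list (l := fun a => ce (κ (v a))) (p := fun a x => (E (u a) x ↔ E (v a) x))
    (hce.comp (hκ.comp hv)) ?_
  exact cp_iff (cp_comp hE ((hu.comp fst).pair snd)) (cp_comp hE ((hv.comp fst).pair snd))

theorem cp_QK {E : ℕ → ℕ → Prop} {isC : ℕ → Prop} {ce : ℕ → List ℕ} {κ : ℕ → ℕ}
    (hE : ComputablePred fun p : ℕ × ℕ => E p.1 p.2) (hZ : ComputablePred fun v => Z0 E isC ce v)
    (hce : Computable ce) (hκ : Computable κ) (j : ℕ) :
    ComputablePred fun v => QK E isC ce κ j v v := by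
  unfold QK
  refine cp_tuple j (t := fun v => v)
    (p := fun v t => t.Pairwise E ∧ ∀ x ∈ t, Z0 E isC ce x ∧ SameT E ce κ x v) Computable.id ?_
  refine cp_and (cp_pairwise snd hE) ?_
  refine cp_ball_list (l := fun x : ℕ × List ℕ => x.2)
    (p := fun x y => Z0 E isC ce y ∧ SameT E ce κ y x.1) snd ?_
  exact cp_and (cp_comp hZ snd) (cp_SameT hE hce hκ snd (fst.comp fst))

theorem cp_fin {p : ℕ → ℕ → Prop} (hp : ∀ j, ComputablePred (p j)) (r : ℕ) :
    ComputablePred fun x : ℕ × ℕ => ∃ j, j < r ∧ (x.2 = j ∧ p j x.1) := by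
  induction r with
  | zero => exact (cp_const False).of_eq fun x => by simp
  | succ r ih =>
    refine (cp_or ih (cp_and (cp_eq snd (const r)) (cp_comp (hp r) fst))).of_eq fun x => ?_
    constructor
    · rintro (⟨j, hj, h⟩ | h)
      · exact ⟨j, by omega, h⟩
      · exact ⟨r, by omega, h⟩
    · rintro ⟨j, hj, h⟩
      rcases Nat.lt_succ_iff_lt_or_eq.1 hj with h1 | rfl
      · exact Or.inl ⟨j, h1, h⟩
      · exact Or.inr h

/-- monotonicity -/
theorem QK_mono {E : ℕ → ℕ → Prop} {isC : ℕ → Prop} {ce : ℕ → List ℕ} {κ : ℕ → ℕ} {j k n v : ℕ}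
    (hjk : j ≤ k) (h : QK E isC ce κ k n v) : QK E isC ce κ j n v := by
  obtain ⟨t, ht, hle, hp, hm⟩ := h
  exact ⟨t.take j, by simp [ht, hjk], fun x hx => hle x (List.mem_of_mem_take hx),
    hp.sublist (List.take_sublist _ _), fun x hx => hm x (List.mem_of_mem_take hx)⟩

end LEVb

open Computable in
theorem LEVb_thm : Stmt_LEV := by
  classical
  intro E lt w isC ce κ hC hB hE hZ hce hκ
  have hQ := LEVb.cp_QK hE hZ hce hκ
  have hself : ∀ v, SameT E ce κ v v := fun v => ⟨rfl, fun x _ => Iff.rfl⟩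
  obtain ⟨lev, hlev, hl⟩ := choice (α := ℕ) (σ := ℕ)
    (p := fun v k => Z0 E isC ce v → 1 ≤ k ∧ ∃ j, j < w + 1 ∧ (k = j ∧
      (QK E isC ce κ j v v ∧ ¬ QK E isC ce κ (j + 1) v v)))
    (cp_imp (cp_comp hZ fst) (cp_and (cp_le (const 1) snd)
      (LEVb.cp_fin (p := fun j v => QK E isC ce κ j v v ∧ ¬ QK E isC ce κ (j + 1) v v)
        (fun j => cp_and (hQ j) (cp_not (hQ (j + 1)))) (w + 1)))) (by
    intro v
    by_cases hv : Z0 E isC ce v
    · have h1 : QK E isC ce κ 1 v v := ⟨[v], rfl, by simp, by simp, by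
        intro x hx
        rw [List.mem_singleton] at hx
        subst hx
        exact ⟨hv, hself _⟩⟩
      have h2 : ¬ QK E isC ce κ (w + 1) v v := by
        rintro ⟨t, ht, -, hp, -⟩
        exact hB t ⟨ht, hp⟩
      have h0 : 1 ≤ w := by
        rcases Nat.eq_zero_or_pos w with rfl | h
        · exact absurd h1 h2
        · exact h
      refine ⟨Nat.findGreatest (fun j => QK E isC ce κ j v v) w, fun _ => ?_⟩
      have hs := Nat.findGreatest_spec (P := fun j => QK E isC ce κ j v v) h0 h1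
      have hg := Nat.le_findGreatest (P := fun j => QK E isC ce κ j v v) h0 h1
      refine ⟨hg, _, Nat.lt_succ_of_le (Nat.findGreatest_le w), rfl, hs, fun h => ?_⟩
      have h3 : Nat.findGreatest (fun j => QK E isC ce κ j v v) w < w := by
        rcases Nat.lt_or_ge (Nat.findGreatest (fun j => QK E isC ce κ j v v) w) w with h4 | h4
        · exact h4
        · exact absurd (LEVb.QK_mono (by omega) h) h2
      have := Nat.le_findGreatest (P := fun j => QK E isC ce κ j v v) h3 h
      omega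
    · exact ⟨0, fun h => absurd h hv⟩)
  have hl1 : ∀ v, Z0 E isC ce v → 1 ≤ lev v ∧ QK E isC ce κ (lev v) v v := by
    intro v hv
    obtain ⟨h1, j, -, h2, h3, -⟩ := hl v hv
    exact ⟨h1, h2 ▸ h3⟩
  have hl2 : ∀ v, Z0 E isC ce v → ¬ QK E isC ce κ (lev v + 1) v v := by
    intro v hv
    obtain ⟨-, j, -, h2, -, h4⟩ := hl v hv
    rw [h2]
    exact h4
  have hBlk : ComputablePred fun p : ℕ × ℕ => Blk E isC ce κ lev p.1 p.2 := by
    unfold Blk
    exact cp_and (cp_comp hZ fst) (cp_and (LEVb.cp_SameT hE hce hκ fst snd)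
      (cp_eq (hlev.comp fst) (hlev.comp snd)))
  obtain ⟨fs, hfs, hf⟩ := choice (α := ℕ) (σ := ℕ)
    (p := fun v m => Z0 E isC ce v → m ≤ v ∧ Blk E isC ce κ lev m v ∧
      ∀ u, u < m → ¬ Blk E isC ce κ lev u v)
    (cp_imp (cp_comp hZ fst) (cp_and (cp_le snd fst) (cp_and (cp_comp hBlk (snd.pair fst))
      (cp_ball (t := fun x : ℕ × ℕ => x.2) (p := fun x u => ¬ Blk E isC ce κ lev u x.1) snd
        (cp_not (cp_comp hBlk (snd.pair (fst.comp fst)))))))) (by
    intro v
    by_cases hv : Z0 E isC ce v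
    · have h1 : ∃ u, Blk E isC ce κ lev u v := ⟨v, hv, hself v, rfl⟩
      exact ⟨Nat.find h1, fun _ => ⟨Nat.find_min' h1 ⟨hv, hself v, rfl⟩, Nat.find_spec h1,
        fun u hu => Nat.find_min h1 hu⟩⟩
    · exact ⟨0, fun h => absurd h hv⟩)
  refine ⟨lev, fs, fun v => ((Finset.range (fs v)).filter
    (fun u => Z0 E isC ce u ∧ fs u = u ∧ κ u = κ v ∧ lev u = lev v)).card, hlev, hfs, ?_,
    hl1, hl2, fun v hv => ⟨(hf v hv).1, (hf v hv).2.1⟩, fun v hv => (hf v hv).2.2,
    fun v _ => ?_⟩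
  · refine (LEVb.cp_count (p := fun v u => Z0 E isC ce u ∧ fs u = u ∧ κ u = κ v ∧ lev u = lev v)
      hfs ?_).of_eq fun v => by congr
    exact cp_and (cp_comp hZ snd) (cp_and (cp_eq (hfs.comp snd) snd)
      (cp_and (cp_eq (hκ.comp snd) (hκ.comp fst)) (cp_eq (hlev.comp snd) (hlev.comp fst))))
  · congr

end Pool.Agent.CCG
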