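import Pool.Agent.CCG.Stmts

/-!
# NB2: at most two existing centres at distance two
-/

namespace Pool.Agent.CCG

namespace NB2

theorem symm_of {E lt : ℕ → ℕ → Prop} (h : CoComp E lt) {x y : ℕ} (hxy : E x y) : E y x := by
  have h1 := (h.2.2 x y).1 hxy
  exact (h.2.2 y x).2 ⟨h1.1.symm, h1.2.2, h1.2.1⟩

/-- Two different centres cannot both be above `z`. -/
theorem above {E lt : ℕ → ℕ → Prop} {w : ℕ} {isC : ℕ → Prop} {ce : ℕ → List ℕ}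
    (hord : Stmt_ORD) (hw : 2 ≤ w) (hE : CoComp E lt) (hN : NoBig E w)
    (hC : Centres E w isC ce) {z m₁ m₂ : ℕ}
    (h1 : Nb E isC ce z m₁) (h2 : Nb E isC ce z m₂)
    (a1 : ∀ x ∈ ce m₁, lt z x) (a2 : ∀ x ∈ ce m₂, lt z x)
    (hlt : ∀ x ∈ ce m₁, ∀ y ∈ ce m₂, lt x y) : False := by
  obtain ⟨f, hf, hzf, q, hq, hfq⟩ := h2.2.2
  exact (hord E lt w hw hE hN).1 (ce m₁) z q f (hC.clique m₁ h1.2.1) a1
    (fun x hx => hlt x hx q hq) (symm_of hE hzf) hfq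

/-- Two different centres cannot both be below `z`. -/
theorem below {E lt : ℕ → ℕ → Prop} {w : ℕ} {isC : ℕ → Prop} {ce : ℕ → List ℕ}
    (hord : Stmt_ORD) (hw : 2 ≤ w) (hE : CoComp E lt) (hN : NoBig E w)
    (hC : Centres E w isC ce) {z m₁ m₂ : ℕ}
    (h1 : Nb E isC ce z m₁) (h2 : Nb E isC ce z m₂)
    (a1 : ∀ x ∈ ce m₁, lt x z) (a2 : ∀ x ∈ ce m₂, lt x z)
    (hlt : ∀ x ∈ ce m₁, ∀ y ∈ ce m₂, lt x y) : False := by
  obtain ⟨f, hf, hzf, p, hp, hfp⟩ := h1.2.2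
  exact (hord E lt w hw hE hN).1 (ce m₂) p z f (hC.clique m₂ h2.2.1)
    (fun x hx => hlt p hp x hx) a2 hfp (symm_of hE hzf)

theorem same {E lt : ℕ → ℕ → Prop} {w : ℕ} {isC : ℕ → Prop} {ce : ℕ → List ℕ}
    (hord : Stmt_ORD) (hw : 2 ≤ w) (hE : CoComp E lt) (hN : NoBig E w)
    (hC : Centres E w isC ce) {z m₁ m₂ : ℕ}
    (h1 : Nb E isC ce z m₁) (h2 : Nb E isC ce z m₂)
    (hs : ((∀ x ∈ ce m₁, lt z x) ∧ (∀ x ∈ ce m₂, lt z x)) ∨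
      ((∀ x ∈ ce m₁, lt x z) ∧ (∀ x ∈ ce m₂, lt x z))) : m₁ = m₂ := by
  by_contra hne
  have hsep := (hord E lt w hw hE hN).2.2 (ce m₁) (ce m₂) (hC.clique m₁ h1.2.1)
    (hC.clique m₂ h2.2.1) (fun x hx => hC.apart m₁ m₂ h1.2.1 h2.2.1 hne x hx)
  rcases hsep with hlt | hgt
  · rcases hs with ⟨a1, a2⟩ | ⟨a1, a2⟩
    · exact above hord hw hE hN hC h1 h2 a1 a2 hlt
    · exact below hord hw hE hN hC h1 h2 a1 a2 hlt
  · have hlt : ∀ x ∈ ce m₂, ∀ y ∈ ce m₁, lt x y := fun x hx y hy => hgt y hy x hx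
    rcases hs with ⟨a1, a2⟩ | ⟨a1, a2⟩
    · exact above hord hw hE hN hC h2 h1 a2 a1 hlt
    · exact below hord hw hE hN hC h2 h1 a2 a1 hlt

end NB2

theorem NB2_thm (h : Stmt_ORD) : Stmt_NB2 := by
  intro E lt w isC ce hw hE hN hC z hz m₁ m₂ m₃ h1 h2 h3
  have side : ∀ m, Nb E isC ce z m → (∀ x ∈ ce m, lt z x) ∨ (∀ x ∈ ce m, lt x z) := by
    intro m hm
    refine (h E lt w hw hE hN).2.1 (ce m) z (hC.clique m hm.2.1) ?_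
    intro hT
    exact hz ⟨m, hm.1, hm.2.1, hT⟩
  rcases side m₁ h1 with s1 | s1 <;> rcases side m₂ h2 with s2 | s2 <;>
    rcases side m₃ h3 with s3 | s3
  · exact Or.inl (NB2.same h hw hE hN hC h1 h2 (Or.inl ⟨s1, s2⟩))
  · exact Or.inl (NB2.same h hw hE hN hC h1 h2 (Or.inl ⟨s1, s2⟩))
  · exact Or.inr (Or.inl (NB2.same h hw hE hN hC h1 h3 (Or.inl ⟨s1, s3⟩)))
  · exact Or.inr (Or.inr (NB2.same h hw hE hN hC h2 h3 (Or.inr ⟨s2, s3⟩)))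
  · exact Or.inr (Or.inr (NB2.same h hw hE hN hC h2 h3 (Or.inl ⟨s2, s3⟩)))
  · exact Or.inr (Or.inl (NB2.same h hw hE hN hC h1 h3 (Or.inr ⟨s1, s3⟩)))
  · exact Or.inl (NB2.same h hw hE hN hC h1 h2 (Or.inr ⟨s1, s2⟩))
  · exact Or.inl (NB2.same h hw hE hN hC h1 h2 (Or.inr ⟨s1, s2⟩))

end Pool.Agent.CCG
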