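import Pool.Agent.CCG.CLZ

/-!
# NB2: at most two centres at distance two
-/

namespace Pool.Agent.CCG

theorem NB2b_thm (hO : Stmt_ORD) : Stmt_NB2 := by
  intro E lt w isC ce hw h hN hC z hz m₁ m₂ m₃ h1 h2 h3
  by_contra hne
  push Not at hne
  obtain ⟨n12, n13, n23⟩ := hne
  have ex : ∀ m, isC m → (∀ y ∈ ce m, lt y z) → (∀ y ∈ ce m, lt z y) → False := by
    intro m hm g1 g2
    have hmm := hC.mem m hm
    exact h.1 z (h.2.1 z m z (g2 m hmm) (g1 m hmm))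
  rcases CLZ.opp hO hw h hN hC hz h1 h2 n12 with ⟨a1, a2⟩ | ⟨a1, a2⟩ <;>
    rcases CLZ.opp hO hw h hN hC hz h1 h3 n13 with ⟨b1, b2⟩ | ⟨b1, b2⟩ <;>
      rcases CLZ.opp hO hw h hN hC hz h2 h3 n23 with ⟨c1, c2⟩ | ⟨c1, c2⟩
  · exact ex _ h2.2.1 c1 a2
  · exact ex _ h3.2.1 c1 b2
  · exact ex _ h1.2.1 a1 b2
  · exact ex _ h1.2.1 a1 b2
  · exact ex _ h1.2.1 b1 a2
  · exact ex _ h1.2.1 b1 a2
  · exact ex _ h3.2.1 b1 c2
  · exact ex _ h2.2.1 a1 c2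

end Pool.Agent.CCG
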