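import Pool.Agent.CCG.Stmts2

/-!
# RNK: bounds for the level and the rank
-/

namespace Pool.Agent.CCG

namespace RNK

theorem nodup_of_clique {E lt : ℕ → ℕ → Prop} (hco : CoComp E lt) {w : ℕ} {A : List ℕ}
    (hA : Cl E w A) : A.Nodup := by
  refine hA.2.imp ?_
  intro a b hab
  exact ((hco.2.2 a b).mp hab).1

theorem card_subsets (A : Finset ℕ) (hA : A.Nonempty) :
    ((A.powerset.erase ∅).erase A).card = 2 ^ A.card - 2 := by
  have h1 : (∅ : Finset ℕ) ∈ A.powerset := Finset.empty_mem_powerset A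
  have h2 : A ∈ A.powerset.erase ∅ :=
    Finset.mem_erase.mpr ⟨hA.ne_empty, Finset.mem_powerset_self A⟩
  rw [Finset.card_erase_of_mem h2, Finset.card_erase_of_mem h1, Finset.card_powerset]
  omega

end RNK

open Classical in
theorem RNK_thm (h : Stmt_CNT) : Stmt_RNK := by
  intro E lt w isC ce κ lev fst rk hw hco hnb hcen hκ hL v hv
  have hbv := hL.fst_blk v hv
  obtain ⟨hfv, hZf, ⟨hκf, htf⟩, hlf⟩ := hbv
  have hCA : Cl E w (ce (κ v)) := hcen.clique _ (hκ v hv).2.1
  have hnd := RNK.nodup_of_clique hco hCA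
  have hAcard : (ce (κ v)).toFinset.card = w := by
    rw [List.toFinset_card_of_nodup hnd]
    exact hCA.1
  -- the first vertex of the block is its own first vertex
  have hff : fst (fst v) = fst v := by
    obtain ⟨h1, h2, ⟨h3, h4⟩, h5⟩ := hL.fst_blk (fst v) hZf
    by_contra hne
    refine hL.fst_min v hv (fst (fst v)) (lt_of_le_of_ne h1 hne) ⟨h2, ⟨h3.trans hκf, ?_⟩,
      h5.trans hlf⟩
    intro x hx
    have hx' : x ∈ ce (κ (fst v)) := by
      rw [hκf]
      exact hx
    exact (h4 x hx').trans (htf x hx)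
  set A := ce (κ v) with hAdef
  set k := lev v with hk
  have hk1 : 1 ≤ k := (hL.lev_pos v hv).1
  let P : ℕ → Prop := fun u => Z0 E isC ce u ∧ fst u = u ∧ κ u = κ v ∧ lev u = lev v
  set U := (Finset.range (fst v + 1)).filter P with hU
  have hUP : ∀ u ∈ U, Z0 E isC ce u ∧ fst u = u ∧ κ u = κ v ∧ lev u = lev v := fun u hu =>
    (Finset.mem_filter.mp hu).2
  have hfU : fst v ∈ U :=
    Finset.mem_filter.mpr ⟨Finset.mem_range.mpr (Nat.lt_succ_self _), hZf, hff, hκf, hlf⟩
  have hUcard : U.card = rk v + 1 := by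
    rw [hU, Finset.range_add_one, Finset.filter_insert, if_pos ⟨hZf, hff, hκf, hlf⟩,
      Finset.card_insert_of_notMem, hL.rk_eq v hv]
    intro hmem
    exact absurd (Finset.mem_range.mp (Finset.mem_filter.mp hmem).1) (lt_irrefl _)
  -- different elements of `U` have different types
  have hmemTy : ∀ u x, x ∈ Ty E A u ↔ x ∈ A ∧ E u x := by
    intro u x
    unfold Ty
    rw [Finset.mem_filter, List.mem_toFinset]
  have hkey : ∀ u ∈ U, ∀ u' ∈ U, Ty E A u = Ty E A u' → ¬ u < u' := by
    intro u hu u' hu' hT hlt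
    obtain ⟨a1, a2, a3, a4⟩ := hUP u hu
    obtain ⟨b1, b2, b3, b4⟩ := hUP u' hu'
    have hlt' : u < fst u' := by
      rw [b2]
      exact hlt
    refine hL.fst_min u' b1 u hlt' ⟨a1, ⟨a3.trans b3.symm, ?_⟩, a4.trans b4.symm⟩
    intro x hx
    rw [b3] at hx
    constructor
    · intro he
      exact ((hmemTy u' x).mp (hT ▸ (hmemTy u x).mpr ⟨hx, he⟩)).2
    · intro he
      exact ((hmemTy u x).mp (hT.symm ▸ (hmemTy u' x).mpr ⟨hx, he⟩)).2
  have hinj : ∀ u ∈ U, ∀ u' ∈ U, Ty E A u = Ty E A u' → u = u' := by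
    intro u hu u' hu' hT
    rcases lt_trichotomy u u' with h1 | h1 | h1
    · exact absurd h1 (hkey u hu u' hu' hT)
    · exact h1
    · exact absurd h1 (hkey u' hu' u hu hT.symm)
  -- the cliques
  have hex : ∀ u, ∃ t : List ℕ, u ∈ U → (t.length = k ∧ t.Pairwise E ∧
      ∀ x ∈ t, Ty E A x = Ty E A u) := by
    intro u
    by_cases hu : u ∈ U
    · obtain ⟨a1, a2, a3, a4⟩ := hUP u hu
      obtain ⟨t, ht1, ht2, ht3, ht4⟩ := (hL.lev_pos u a1).2
      refine ⟨t, fun _ => ⟨ht1.trans a4, ht3, ?_⟩⟩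
      intro x hx
      obtain ⟨c1, c2, c3⟩ := ht4 x hx
      ext y
      rw [hmemTy, hmemTy]
      constructor
      · rintro ⟨hy, he⟩
        have hy' : y ∈ ce (κ u) := by
          rw [a3]
          exact hy
        exact ⟨hy, (c3 y hy').mp he⟩
      · rintro ⟨hy, he⟩
        have hy' : y ∈ ce (κ u) := by
          rw [a3]
          exact hy
        exact ⟨hy, (c3 y hy').mpr he⟩
    · exact ⟨[], fun h => absurd h hu⟩
  choose K hK using hex
  have hCN : ∀ t : ℕ, (U.filter (fun u => (Ty E A u).card = t)).card ≤ 2 * (w / k) ∧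
      ((U.filter (fun u => (Ty E A u).card = t)).Nonempty → t + k ≤ w) := by
    intro t
    refine h E lt w A hco hnb hCA t k (U.filter (fun u => (Ty E A u).card = t)) K hk1 ?_ ?_ ?_
    · intro u hu
      exact hK u (Finset.mem_filter.mp hu).1
    · intro u hu
      exact (Finset.mem_filter.mp hu).2
    · intro u hu u' hu' hT
      exact hinj u (Finset.mem_filter.mp hu).1 u' (Finset.mem_filter.mp hu').1 hT
  have hpos : ∀ u ∈ U, 1 ≤ (Ty E A u).card := by
    intro u hu
    obtain ⟨a1, a2, a3, a4⟩ := hUP u hu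
    obtain ⟨x, hx, he⟩ := (hκ u a1).2.2
    rw [a3] at hx
    exact Finset.card_pos.mpr ⟨x, (hmemTy u x).mpr ⟨hx, he⟩⟩
  have hup : ∀ u ∈ U, (Ty E A u).card + k ≤ w := by
    intro u hu
    exact (hCN _).2 ⟨u, Finset.mem_filter.mpr ⟨hu, rfl⟩⟩
  have hkw : k < w := by
    have h1 := hpos _ hfU
    have h2 := hup _ hfU
    omega
  refine ⟨hkw, ?_⟩
  -- the first bound
  have hb1 : U.card ≤ (w - k) * (2 * (w / k)) := by
    have h1 : U = (Finset.Icc 1 (w - k)).biUnion
        (fun t => U.filter (fun u => (Ty E A u).card = t)) := by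
      ext u
      rw [Finset.mem_biUnion]
      constructor
      · intro hu
        refine ⟨(Ty E A u).card, Finset.mem_Icc.mpr ⟨hpos u hu, ?_⟩,
          Finset.mem_filter.mpr ⟨hu, rfl⟩⟩
        have := hup u hu
        omega
      · rintro ⟨t, _, hu⟩
        exact (Finset.mem_filter.mp hu).1
    calc U.card = ((Finset.Icc 1 (w - k)).biUnion
        (fun t => U.filter (fun u => (Ty E A u).card = t))).card := by rw [← h1]
      _ ≤ (Finset.Icc 1 (w - k)).card * (2 * (w / k)) :=
          Finset.card_biUnion_le_card_mul _ _ _ (fun t _ => (hCN t).1)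
      _ = (w - k) * (2 * (w / k)) := by
          rw [Nat.card_Icc]
          simp
  -- the second bound
  have hne : A.toFinset.Nonempty := by
    rw [← Finset.card_pos, hAcard]
    omega
  have hb2 : U.card ≤ 2 ^ w - 2 := by
    have h1 : U.card ≤ ((A.toFinset.powerset.erase ∅).erase A.toFinset).card := by
      refine Finset.card_le_card_of_injOn (fun u => Ty E A u) ?_ ?_
      · intro u hu
        have hu' : u ∈ U := hu
        have h2 := hpos u hu'
        have h3 := hup u hu'
        refine Finset.mem_coe.mpr (Finset.mem_erase.mpr ⟨?_, Finset.mem_erase.mpr ⟨?_, ?_⟩⟩)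
        · intro h4
          have h4' : Ty E A u = A.toFinset := h4
          rw [h4', hAcard] at h3
          omega
        · intro h4
          have h4' : Ty E A u = ∅ := h4
          rw [h4', Finset.card_empty] at h2
          omega
        · refine Finset.mem_powerset.mpr ?_
          intro x hx
          exact List.mem_toFinset.mpr ((hmemTy u x).mp hx).1
      · intro u hu u' hu' hT
        exact hinj u hu u' hu' hT
    rw [RNK.card_subsets _ hne, hAcard] at h1
    exact h1
  have h5 : U.card ≤ nbk w k := le_min hb1 hb2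
  show rk v < nbk w k
  omega

end Pool.Agent.CCG
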