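import Pool.Agent.CCG.Stmts2
import Pool.Agent.CCG.Comp
import Pool.Agent.CCG.SEL

/-!
# SEL2: computability of the zones and of the selectors (helper15)
-/

namespace Pool.Agent.CCG

namespace SEL2

open Computable

theorem cp_Two {E : ℕ → ℕ → Prop} {isC : ℕ → Prop} {ce : ℕ → List ℕ}
    (hE : ComputablePred fun p : ℕ × ℕ => E p.1 p.2) (hC : ComputablePred isC)
    (hce : Computable ce) : ComputablePred fun v => Two E isC ce v := by
  have hN := SEL.cp_Nb hE hC hce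
  have h1 : ComputablePred fun x : ℕ × ℕ =>
      ∃ m', m' ≤ x.1 ∧ (Nb E isC ce x.1 x.2 ∧ Nb E isC ce x.1 m' ∧ x.2 ≠ m') :=
    cp_bex_le (t := fun x : ℕ × ℕ => x.1)
      (p := fun x m' => Nb E isC ce x.1 x.2 ∧ Nb E isC ce x.1 m' ∧ x.2 ≠ m') fst
      (cp_and (cp_comp hN fst) (cp_and (cp_comp hN ((fst.comp fst).pair snd))
        (cp_not (cp_eq (snd.comp fst) snd))))
  refine (cp_bex_le (t := fun v => v)
    (p := fun v m => ∃ m', m' ≤ v ∧ (Nb E isC ce v m ∧ Nb E isC ce v m' ∧ m ≠ m'))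
    Computable.id h1).of_eq fun v => ?_
  constructor
  · rintro ⟨m, -, m', -, h⟩
    exact ⟨m, m', h⟩
  · rintro ⟨m, m', h⟩
    exact ⟨m, h.1.1, m', h.2.1.1, h⟩

/-- the largest centre at distance two -/
theorem exists_max {E : ℕ → ℕ → Prop} {isC : ℕ → Prop} {ce : ℕ → List ℕ} (z : ℕ)
    (h : ∃ m, Nb E isC ce z m) :
    ∃ m, Nb E isC ce z m ∧ ∀ m', Nb E isC ce z m' → m' ≤ m := by
  classical
  obtain ⟨m₀, hm₀⟩ := h
  refine ⟨Nat.findGreatest (fun m => Nb E isC ce z m) z, ?_, ?_⟩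
  · exact Nat.findGreatest_spec (P := fun m => Nb E isC ce z m) hm₀.1 hm₀
  · intro m' hm'
    exact Nat.le_findGreatest hm'.1 hm'

end SEL2

open Computable in
/-- SEL2 -/
theorem SEL2_thm : Stmt_SEL2 := by
  intro E isC ce hE hC hce
  have hZ := SEL.cp_Z0 hE hC hce
  have hN := SEL.cp_Nb hE hC hce
  have hX := SEL.cp_exNb hE hC hce
  refine ⟨hZ, hN, hX, SEL2.cp_Two hE hC hce, SEL.cp_T hE fst (hce.comp snd), ?_⟩
  obtain ⟨κ, hκ, hκ'⟩ := choice (α := ℕ) (σ := ℕ)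
    (p := fun v m => Z0 E isC ce v → m ≤ v ∧ isC m ∧ T E v (ce m))
    (cp_imp (cp_comp hZ fst) (cp_and (cp_le snd fst) (cp_and (cp_comp hC snd)
        (SEL.cp_T hE fst (hce.comp snd))))) (by
    intro v
    by_cases h : Z0 E isC ce v
    · obtain ⟨m, hm⟩ := h
      exact ⟨m, fun _ => hm⟩
    · exact ⟨0, fun h' => absurd h' h⟩)
  have hM : ComputablePred fun x : ℕ × ℕ =>
      ∀ m', m' ≤ x.1 → (Nb E isC ce x.1 m' → m' ≤ x.2) :=
    cp_ball_le (t := fun x : ℕ × ℕ => x.1) (p := fun x m' => Nb E isC ce x.1 m' → m' ≤ x.2) fst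
      (cp_imp (cp_comp hN ((fst.comp fst).pair snd)) (cp_le snd (snd.comp fst)))
  obtain ⟨γ, hγ, hγ'⟩ := choice (α := ℕ) (σ := ℕ)
    (p := fun z m => (∃ m', Nb E isC ce z m') → Nb E isC ce z m ∧
      ∀ m', m' ≤ z → (Nb E isC ce z m' → m' ≤ m))
    (cp_imp (cp_comp hX fst) (cp_and hN hM)) (by
    intro z
    by_cases h : ∃ m', Nb E isC ce z m'
    · obtain ⟨m, hm, hm'⟩ := SEL2.exists_max z h
      exact ⟨m, fun _ => ⟨hm, fun m' _ => hm' m'⟩⟩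
    · exact ⟨0, fun h' => absurd h' h⟩)
  exact ⟨κ, γ, hκ, hγ, hκ', fun z _ h => ⟨(hγ' z h).1, fun m hm => (hγ' z h).2 m hm.1 hm⟩⟩

end Pool.Agent.CCG
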