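import Pool.Agent.CCG.Stmts
import Pool.Agent.CCG.Comp

/-!
# STEP: a computable partition into classes without `w`-cliques
-/

namespace Pool.Agent.CCG

namespace STEP

/-- Vertices `d < C` which touch the new centre `C` and no other existing centre, and have a second
centre `γ d` at distance two. -/
def Q (E : ℕ → ℕ → Prop) (isC : ℕ → Prop) (ce : ℕ → List ℕ) (κ γ : ℕ → ℕ) (C X : ℕ) : Prop :=
  isC C ∧ ∃ d, d < C ∧ (¬ Z0 E isC ce d ∧ ((∃ m, Nb E isC ce d m ∧ m ≠ κ d) ∧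
    (γ d = X ∧ (T E d (ce C) ∧ ∀ B, B ≤ C → (isC B → T E d (ce B) → B = C)))))

theorem Q_comp (E : ℕ → ℕ → Prop) (isC : ℕ → Prop) (ce : ℕ → List ℕ) (κ γ : ℕ → ℕ)
    (hC : ComputablePred isC)
    (hZ : ComputablePred fun v => Z0 E isC ce v)
    (hT : ComputablePred fun p : ℕ × ℕ => T E p.1 (ce p.2))
    (hγ : Computable γ)
    (hN : ComputablePred fun v => ∃ m, Nb E isC ce v m ∧ m ≠ κ v) :
    ComputablePred fun p : ℕ × ℕ => Q E isC ce κ γ p.1 p.2 := by
  refine cp_and (cp_comp hC Computable.fst) ?_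
  refine cp_bex (α := ℕ × ℕ) (t := fun p => p.1)
    (p := fun p d => ¬ Z0 E isC ce d ∧ ((∃ m, Nb E isC ce d m ∧ m ≠ κ d) ∧
      (γ d = p.2 ∧ (T E d (ce p.1) ∧ ∀ B, B ≤ p.1 → (isC B → T E d (ce B) → B = p.1)))))
    Computable.fst ?_
  refine cp_and (cp_not (cp_comp hZ Computable.snd)) ?_
  refine cp_and (cp_comp hN Computable.snd) ?_
  refine cp_and (cp_eq (hγ.comp Computable.snd) (Computable.snd.comp Computable.fst)) ?_
  refine cp_and (cp_comp (p := fun p : ℕ × ℕ => T E p.1 (ce p.2)) hT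
    (Computable.snd.pair (Computable.fst.comp Computable.fst))) ?_
  refine cp_ball_le (α := (ℕ × ℕ) × ℕ) (t := fun x => x.1.1)
    (p := fun x B => isC B → T E x.2 (ce B) → B = x.1.1)
    (Computable.fst.comp Computable.fst) ?_
  refine cp_imp (cp_comp hC Computable.snd) ?_
  refine cp_imp (cp_comp (p := fun p : ℕ × ℕ => T E p.1 (ce p.2)) hT
    ((Computable.snd.comp Computable.fst).pair Computable.snd)) ?_
  exact cp_eq Computable.snd (Computable.fst.comp (Computable.fst.comp Computable.fst))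

theorem cls_comp (E : ℕ → ℕ → Prop) (w : ℕ) (isC : ℕ → Prop) (ce : ℕ → List ℕ)
    (κ γ idx ℓ lam : ℕ → ℕ)
    (hZ : ComputablePred fun v => Z0 E isC ce v)
    (hN : ComputablePred fun v => ∃ m, Nb E isC ce v m)
    (hN' : ComputablePred fun v => ∃ m, Nb E isC ce v m ∧ m ≠ κ v)
    (hγ : Computable γ) (hi : Computable idx) (hl : Computable ℓ) (hlam : Computable lam) :
    Computable (cls E w isC ce κ γ idx ℓ lam) := by
  classical
  have hadd : ∀ f g : ℕ → ℕ, Computable f → Computable g → Computable fun v => f v + g v :=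
    fun f g hf hg => (Primrec.nat_add.to_comp).comp hf hg
  have hmul : ∀ f g : ℕ → ℕ, Computable f → Computable g → Computable fun v => f v * g v :=
    fun f g hf hg => (Primrec.nat_mul.to_comp).comp hf hg
  have e1 : Computable fun v => 1 + (ℓ v * w + idx v) :=
    hadd (fun _ => 1) (fun v => ℓ v * w + idx v) (Computable.const 1)
      (hadd (fun v => ℓ v * w) idx (hmul ℓ (fun _ => w) hl (Computable.const w)) hi)
  have e2 : Computable fun v => 1 + 211 * w + (ℓ v * 4 + lam (γ v)) :=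
    hadd (fun _ => 1 + 211 * w) (fun v => ℓ v * 4 + lam (γ v)) (Computable.const _)
      (hadd (fun v => ℓ v * 4) (fun v => lam (γ v))
        (hmul ℓ (fun _ => 4) hl (Computable.const 4)) (hlam.comp hγ))
  have e3 : Computable fun v => 1 + 211 * w + (ℓ v * 4 + 3) :=
    hadd (fun _ => 1 + 211 * w) (fun v => ℓ v * 4 + 3) (Computable.const _)
      (hadd (fun v => ℓ v * 4) (fun _ => 3)
        (hmul ℓ (fun _ => 4) hl (Computable.const 4)) (Computable.const 3))
  have e4 := cp_ite (c := fun v => Z0 E isC ce v) hZ e1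
    (cp_ite (c := fun v => ∃ m, Nb E isC ce v m ∧ m ≠ κ v) hN' e2
      (cp_ite (c := fun v => ∃ m, Nb E isC ce v m) hN e3 (Computable.const 0)))
  refine e4.of_eq fun v => ?_
  unfold cls
  rfl

end STEP

theorem STEP_thm (h1 : Stmt_CEN) (h2 : Stmt_SEL) (h3 : Stmt_LABC) (h4 : Stmt_LABB) (h5 : Stmt_GRE)
    (h6 : Stmt_GAM) (h7 : Stmt_DEG) (h8 : Stmt_CLQ) : Stmt_STEP := by
  intro E lt w hw hco hnb hE
  obtain ⟨isC, ce, hC, hce, hcen⟩ := h1 E lt w hw hco hE
  obtain ⟨hZ, hNb, hNe, hT, κ, γ, idx, hκ, hγ, hidx, hN', k0, k1, g1, i1⟩ :=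
    h2 E w isC ce hE hC hce fun m hm => (hcen.clique m hm).1
  have hsymm : ∀ x y, E x y → E y x := fun x y h => by
    have := (hco.2.2 x y).1 h
    exact (hco.2.2 y x).2 ⟨fun e => this.1 e.symm, this.2.2, this.2.1⟩
  let act : ℕ → Prop := fun v => Z0 E isC ce v ∨ ∃ m, Nb E isC ce v m
  have hact : ComputablePred act := cp_or hZ hNe
  have hanch : ∀ v, act v → isC (κ v) ∧ Anch E ce v (κ v) := by
    intro v hv
    by_cases hz : Z0 E isC ce v
    · exact ⟨(k0 v hz).2.1, Or.inl (k0 v hz).2.2⟩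
    · obtain ⟨hle, hc, f, hf, hvf, hft⟩ := k1 v hz (hv.resolve_left hz)
      exact ⟨hc, Or.inr ⟨f, hvf, hft⟩⟩
  have hdeg := h7 E lt w isC ce act κ hw hco hnb hcen hanch
  obtain ⟨ℓ, hℓ, hrule⟩ := h3 E act κ hE hact hκ
  obtain ⟨hℓ1, hℓ2⟩ := h4 E act κ ℓ 14 hsymm hrule hdeg
  obtain ⟨lam, hlam, hlam1, hlam2⟩ := h5 (STEP.Q E isC ce κ γ) 2
    (STEP.Q_comp E isC ce κ γ hC hZ hT hγ hN') (by
      intro C F hF
      by_cases hFe : F = ∅
      · subst hFe; simp
      obtain ⟨X0, hX0⟩ := Finset.nonempty_iff_ne_empty.2 hFe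
      have hCC : isC C := (hF X0 hX0).2.1
      refine h6 E lt w isC ce hw hco hnb hcen C hCC F fun X hX => ?_
      obtain ⟨-, -, d, hd, hz, hn, hg, ht, hb⟩ := hF X hX
      exact ⟨d, hd, hz, hg ▸ (g1 d hz hn).1, ht, hb⟩)
  have hdata : StepData E w isC ce κ γ idx ℓ lam :=
    { cen := hcen
      kap0 := k0
      kap1 := k1
      gam := g1
      idx := i1
      lab_le := fun v => hℓ1 v
      lab := hℓ2
      lam_le := hlam1
      lam := by
        intro C d hCC hd hz hn ht hb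
        have hγd : γ d ≤ d := (g1 d hz hn).1.1
        exact hlam2 C (γ d) (by omega) ⟨hCC, d, hd, hz, hn, rfl, ht, hb⟩ }
  exact ⟨cls E w isC ce κ γ idx ℓ lam,
    STEP.cls_comp E w isC ce κ γ idx ℓ lam hZ hNe hN' hγ hidx hℓ hlam,
    h8 E lt w isC ce κ γ idx ℓ lam hw hco hnb hdata⟩

end Pool.Agent.CCG
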