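import Pool.Agent.CCG.Defs

/-!
# Computable colourings of co-comparability graphs: the statements of the modules
-/

namespace Pool.Agent.CCG

/-- There is no clique with `w + 1` elements. -/
def NoBig (E : ℕ → ℕ → Prop) (w : ℕ) : Prop := ∀ t, ¬ Cl E (w + 1) t

/-- ORD: a maximum clique separates what lies below it from what lies above it. -/
def Stmt_ORD : Prop :=
  ∀ (E lt : ℕ → ℕ → Prop) (w : ℕ), 2 ≤ w → CoComp E lt → NoBig E w →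
    (∀ (B : List ℕ) (p q f : ℕ), Cl E w B → (∀ x ∈ B, lt p x) → (∀ x ∈ B, lt x q) →
      E f p → E f q → False) ∧
    (∀ (B : List ℕ) (v : ℕ), Cl E w B → ¬ T E v B → (∀ x ∈ B, lt v x) ∨ (∀ x ∈ B, lt x v)) ∧
    (∀ A B : List ℕ, Cl E w A → Cl E w B → (∀ x ∈ A, ¬ T E x B) →
      (∀ x ∈ A, ∀ y ∈ B, lt x y) ∨ (∀ x ∈ A, ∀ y ∈ B, lt y x))

/-- NB2: a vertex which touches no existing centre has at most two existing centres at distance
two. -/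
def Stmt_NB2 : Prop :=
  ∀ (E lt : ℕ → ℕ → Prop) (w : ℕ) (isC : ℕ → Prop) (ce : ℕ → List ℕ), 2 ≤ w → CoComp E lt →
    NoBig E w → Centres E w isC ce → ∀ z, ¬ Z0 E isC ce z → ∀ m₁ m₂ m₃,
      Nb E isC ce z m₁ → Nb E isC ce z m₂ → Nb E isC ce z m₃ → m₁ = m₂ ∨ m₁ = m₃ ∨ m₂ = m₃

/-- GAM: when the centre `C` is created, at most two centres `X` are at distance two from old
vertices `d` which touch `C` and no other existing centre. -/
def Stmt_GAM : Prop :=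
  ∀ (E lt : ℕ → ℕ → Prop) (w : ℕ) (isC : ℕ → Prop) (ce : ℕ → List ℕ), 2 ≤ w → CoComp E lt →
    NoBig E w → Centres E w isC ce → ∀ C, isC C → ∀ F : Finset ℕ,
      (∀ X ∈ F, ∃ d, d < C ∧ ¬ Z0 E isC ce d ∧ Nb E isC ce d X ∧ T E d (ce C) ∧
        ∀ B, B ≤ C → isC B → T E d (ce B) → B = C) → F.card ≤ 2

/-- DEG: a cluster is joined to at most 14 other clusters. -/
def Stmt_DEG : Prop :=
  ∀ (E lt : ℕ → ℕ → Prop) (w : ℕ) (isC : ℕ → Prop) (ce : ℕ → List ℕ) (act : ℕ → Prop)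
    (κ : ℕ → ℕ), 2 ≤ w → CoComp E lt → NoBig E w → Centres E w isC ce →
    (∀ v, act v → isC (κ v) ∧ Anch E ce v (κ v)) →
    ∀ (A : ℕ) (F : Finset ℕ), (∀ B ∈ F, Conf E act κ A B) → F.card ≤ 14

/-- LABC: labels which follow the label rule can be computed. -/
def Stmt_LABC : Prop :=
  ∀ (E : ℕ → ℕ → Prop) (act : ℕ → Prop) (κ : ℕ → ℕ),
    ComputablePred (fun p : ℕ × ℕ => E p.1 p.2) → ComputablePred act → Computable κ →
    ∃ ℓ : ℕ → ℕ, Computable ℓ ∧ LabelRule E act κ ℓ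

/-- LABB: if every cluster is joined to at most `Δ` others then labels which follow the label rule
are at most `Δ * (Δ + 1)`, and adjacent vertices of different clusters have different labels. -/
def Stmt_LABB : Prop :=
  ∀ (E : ℕ → ℕ → Prop) (act : ℕ → Prop) (κ ℓ : ℕ → ℕ) (Δ : ℕ), (∀ x y, E x y → E y x) →
    LabelRule E act κ ℓ →
    (∀ (A : ℕ) (F : Finset ℕ), (∀ B ∈ F, Conf E act κ A B) → F.card ≤ Δ) →
    (∀ v, ℓ v ≤ Δ * (Δ + 1)) ∧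
      ∀ x y, act x → act y → E x y → κ x ≠ κ y → ℓ x ≠ ℓ y

/-- GRE: greedy colouring of a computable graph in which every vertex has at most `k` earlier
neighbours. -/
def Stmt_GRE : Prop :=
  ∀ (Q : ℕ → ℕ → Prop) (k : ℕ), ComputablePred (fun p : ℕ × ℕ => Q p.1 p.2) →
    (∀ (C : ℕ) (F : Finset ℕ), (∀ X ∈ F, X < C ∧ Q C X) → F.card ≤ k) →
    ∃ lam : ℕ → ℕ, Computable lam ∧ (∀ C, lam C ≤ k) ∧
      ∀ C X, X < C → Q C X → lam C ≠ lam X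

/-- CEN: the centres can be computed. -/
def Stmt_CEN : Prop :=
  ∀ (E lt : ℕ → ℕ → Prop) (w : ℕ), 2 ≤ w → CoComp E lt →
    ComputablePred (fun p : ℕ × ℕ => E p.1 p.2) →
    ∃ (isC : ℕ → Prop) (ce : ℕ → List ℕ), ComputablePred isC ∧ Computable ce ∧
      Centres E w isC ce

/-- SEL: computability of the zones and of selectors. -/
def Stmt_SEL : Prop :=
  ∀ (E : ℕ → ℕ → Prop) (w : ℕ) (isC : ℕ → Prop) (ce : ℕ → List ℕ),
    ComputablePred (fun p : ℕ × ℕ => E p.1 p.2) → ComputablePred isC → Computable ce →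
    (∀ m, isC m → (ce m).length = w) →
    ComputablePred (fun v => Z0 E isC ce v) ∧
    ComputablePred (fun p : ℕ × ℕ => Nb E isC ce p.1 p.2) ∧
    ComputablePred (fun v => ∃ m, Nb E isC ce v m) ∧
    ComputablePred (fun p : ℕ × ℕ => T E p.1 (ce p.2)) ∧
    ∃ κ γ idx : ℕ → ℕ, Computable κ ∧ Computable γ ∧ Computable idx ∧
      ComputablePred (fun v => ∃ m, Nb E isC ce v m ∧ m ≠ κ v) ∧
      (∀ v, Z0 E isC ce v → κ v ≤ v ∧ isC (κ v) ∧ T E v (ce (κ v))) ∧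
      (∀ v, ¬ Z0 E isC ce v → (∃ m, Nb E isC ce v m) → Nb E isC ce v (κ v)) ∧
      (∀ v, ¬ Z0 E isC ce v → (∃ m, Nb E isC ce v m ∧ m ≠ κ v) →
        Nb E isC ce v (γ v) ∧ γ v ≠ κ v) ∧
      (∀ v, Z0 E isC ce v → idx v < w ∧ E v ((ce (κ v)).getD (idx v) 0))

/-- All data of one step. -/
structure StepData (E : ℕ → ℕ → Prop) (w : ℕ) (isC : ℕ → Prop) (ce : ℕ → List ℕ)
    (κ γ idx ℓ lam : ℕ → ℕ) : Prop where
  cen : Centres E w isC ce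
  kap0 : ∀ v, Z0 E isC ce v → κ v ≤ v ∧ isC (κ v) ∧ T E v (ce (κ v))
  kap1 : ∀ v, ¬ Z0 E isC ce v → (∃ m, Nb E isC ce v m) → Nb E isC ce v (κ v)
  gam : ∀ v, ¬ Z0 E isC ce v → (∃ m, Nb E isC ce v m ∧ m ≠ κ v) →
    Nb E isC ce v (γ v) ∧ γ v ≠ κ v
  idx : ∀ v, Z0 E isC ce v → idx v < w ∧ E v ((ce (κ v)).getD (idx v) 0)
  lab_le : ∀ v, ℓ v ≤ 210
  lab : ∀ x y, (Z0 E isC ce x ∨ ∃ m, Nb E isC ce x m) → (Z0 E isC ce y ∨ ∃ m, Nb E isC ce y m) →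
    E x y → κ x ≠ κ y → ℓ x ≠ ℓ y
  lam_le : ∀ C, lam C ≤ 2
  lam : ∀ C d, isC C → d < C → ¬ Z0 E isC ce d → (∃ m, Nb E isC ce d m ∧ m ≠ κ d) →
    T E d (ce C) → (∀ B, B ≤ C → isC B → T E d (ce B) → B = C) → lam C ≠ lam (γ d)

open Classical in
/-- The class of the vertex `v`. -/
noncomputable def cls (E : ℕ → ℕ → Prop) (w : ℕ) (isC : ℕ → Prop) (ce : ℕ → List ℕ)
    (κ γ idx ℓ lam : ℕ → ℕ) (v : ℕ) : ℕ :=
  if Z0 E isC ce v then 1 + (ℓ v * w + idx v)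
  else if ∃ m, Nb E isC ce v m ∧ m ≠ κ v then 1 + 211 * w + (ℓ v * 4 + lam (γ v))
  else if ∃ m, Nb E isC ce v m then 1 + 211 * w + (ℓ v * 4 + 3)
  else 0

/-- CLQ: no class contains a `w`-clique. -/
def Stmt_CLQ : Prop :=
  ∀ (E lt : ℕ → ℕ → Prop) (w : ℕ) (isC : ℕ → Prop) (ce : ℕ → List ℕ) (κ γ idx ℓ lam : ℕ → ℕ),
    2 ≤ w → CoComp E lt → NoBig E w → StepData E w isC ce κ γ idx ℓ lam →
    (∀ v, cls E w isC ce κ γ idx ℓ lam v < 211 * (w + 4) + 1) ∧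
    ∀ t, Cl E w t → ∀ k, ¬ ∀ x ∈ t, cls E w isC ce κ γ idx ℓ lam x = k

/-- STEP: a computable partition into `211 * (w + 4) + 1` classes without `w`-cliques. -/
def Stmt_STEP : Prop :=
  ∀ (E lt : ℕ → ℕ → Prop) (w : ℕ), 2 ≤ w → CoComp E lt → NoBig E w →
    ComputablePred (fun p : ℕ × ℕ => E p.1 p.2) →
    ∃ cl : ℕ → ℕ, Computable cl ∧ (∀ v, cl v < 211 * (w + 4) + 1) ∧
      ∀ t, Cl E w t → ∀ k, ¬ ∀ x ∈ t, cl x = k

/-- The number of colours. -/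
def bnd (w : ℕ) : ℕ := ∏ j ∈ Finset.Icc 2 w, (211 * (j + 4) + 1)

/-- IND: the colouring theorem for graphs on `ℕ`. -/
def Stmt_IND : Prop :=
  ∀ (w : ℕ) (E lt : ℕ → ℕ → Prop), CoComp E lt → NoBig E w →
    ComputablePred (fun p : ℕ × ℕ => E p.1 p.2) →
    ∃ c : ℕ → ℕ, Computable c ∧ (∀ v, c v < bnd w) ∧ ∀ x y, E x y → c x ≠ c y

end Pool.Agent.CCG
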