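import Pool.Agent.CCG.Stmts

/-!
# The exponential bound: definitions and statements
-/

namespace Pool.Agent.CCG

/-- Computable co-comparability graphs on `ℕ` without cliques of size `w + 1` have computable
colourings with `N` colours. -/
def Col (w N : ℕ) : Prop :=
  ∀ E lt : ℕ → ℕ → Prop, CoComp E lt → NoBig E w →
    ComputablePred (fun p : ℕ × ℕ => E p.1 p.2) →
    ∃ c : ℕ → ℕ, Computable c ∧ (∀ v, c v < N) ∧ ∀ x y, E x y → c x ≠ c y

/-- `z` has two centres at distance two. -/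
def Two (E : ℕ → ℕ → Prop) (isC : ℕ → Prop) (ce : ℕ → List ℕ) (z : ℕ) : Prop :=
  ∃ m m', Nb E isC ce z m ∧ Nb E isC ce z m' ∧ m ≠ m'

/-- DEG6: a cluster of vertices which touch their centre is joined to at most 6 others. -/
def Stmt_DEG6 : Prop :=
  ∀ (E lt : ℕ → ℕ → Prop) (w : ℕ) (isC : ℕ → Prop) (ce : ℕ → List ℕ) (act : ℕ → Prop)
    (κ : ℕ → ℕ), 2 ≤ w → CoComp E lt → NoBig E w → Centres E w isC ce →
    (∀ v, act v → isC (κ v) ∧ T E v (ce (κ v))) →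
    ∀ (A : ℕ) (F : Finset ℕ), (∀ B ∈ F, Conf E act κ A B) → F.card ≤ 6

/-- GAM4: at most four centres `X` are at distance two from vertices `d` which touch the younger
centre `C`. -/
def Stmt_GAM4 : Prop :=
  ∀ (E lt : ℕ → ℕ → Prop) (w : ℕ) (isC : ℕ → Prop) (ce : ℕ → List ℕ), 2 ≤ w → CoComp E lt →
    NoBig E w → Centres E w isC ce → ∀ C, isC C → ∀ F : Finset ℕ,
      (∀ X ∈ F, ∃ d, d < C ∧ ¬ Z0 E isC ce d ∧ Nb E isC ce d X ∧ T E d (ce C)) → F.card ≤ 4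

/-- CLZ: classes without `w`-cliques outside `Z0`. -/
def Stmt_CLZ : Prop :=
  ∀ (E lt : ℕ → ℕ → Prop) (w : ℕ) (isC : ℕ → Prop) (ce : ℕ → List ℕ) (γ μ : ℕ → ℕ),
    2 ≤ w → CoComp E lt → NoBig E w → Centres E w isC ce →
    (∀ z, ¬ Z0 E isC ce z → (∃ m, Nb E isC ce z m) →
      Nb E isC ce z (γ z) ∧ ∀ m, Nb E isC ce z m → m ≤ γ z) →
    (∀ C d, isC C → d < C → ¬ Z0 E isC ce d → (∃ m, Nb E isC ce d m) → T E d (ce C) →
      μ C ≠ μ (γ d)) →
    ∀ t, Cl E w t → (∀ x ∈ t, ¬ Z0 E isC ce x) →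
      (¬ ∀ x ∈ t, ¬ ∃ m, Nb E isC ce x m) ∧
      (∀ j, ¬ ∀ x ∈ t, (∃ m, Nb E isC ce x m) ∧ ¬ Two E isC ce x ∧ μ (γ x) = j) ∧
      (∀ j, ¬ ∀ x ∈ t, Two E isC ce x ∧ μ (γ x) = j)

/-- SEL2: computability of the zones and of the selectors. -/
def Stmt_SEL2 : Prop :=
  ∀ (E : ℕ → ℕ → Prop) (isC : ℕ → Prop) (ce : ℕ → List ℕ),
    ComputablePred (fun p : ℕ × ℕ => E p.1 p.2) → ComputablePred isC → Computable ce →
    ComputablePred (fun v => Z0 E isC ce v) ∧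
    ComputablePred (fun p : ℕ × ℕ => Nb E isC ce p.1 p.2) ∧
    ComputablePred (fun v => ∃ m, Nb E isC ce v m) ∧
    ComputablePred (fun v => Two E isC ce v) ∧
    ComputablePred (fun p : ℕ × ℕ => T E p.1 (ce p.2)) ∧
    ∃ κ γ : ℕ → ℕ, Computable κ ∧ Computable γ ∧
      (∀ v, Z0 E isC ce v → κ v ≤ v ∧ isC (κ v) ∧ T E v (ce (κ v))) ∧
      (∀ z, ¬ Z0 E isC ce z → (∃ m, Nb E isC ce z m) →
        Nb E isC ce z (γ z) ∧ ∀ m, Nb E isC ce z m → m ≤ γ z)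

/-- DAT2: the data of one step can be computed. -/
def Stmt_DAT2 : Prop :=
  ∀ (E lt : ℕ → ℕ → Prop) (w : ℕ), 2 ≤ w → CoComp E lt → NoBig E w →
    ComputablePred (fun p : ℕ × ℕ => E p.1 p.2) →
    ∃ (isC : ℕ → Prop) (ce : ℕ → List ℕ) (κ ℓ zc : ℕ → ℕ),
      ComputablePred isC ∧ Computable ce ∧ Computable κ ∧ Computable ℓ ∧ Computable zc ∧
      ComputablePred (fun v => Z0 E isC ce v) ∧ Centres E w isC ce ∧
      (∀ v, Z0 E isC ce v → κ v ≤ v ∧ isC (κ v) ∧ T E v (ce (κ v))) ∧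
      (∀ v, ℓ v < 43) ∧
      (∀ x y, Z0 E isC ce x → Z0 E isC ce y → E x y → κ x ≠ κ y → ℓ x ≠ ℓ y) ∧
      (∀ v, zc v < 11) ∧
      ∀ t, Cl E w t → (∀ x ∈ t, ¬ Z0 E isC ce x) → ∀ j, ¬ ∀ x ∈ t, zc x = j

/-- `u` and `v` belong to the same centre and have the same neighbours on it. -/
def SameT (E : ℕ → ℕ → Prop) (ce : ℕ → List ℕ) (κ : ℕ → ℕ) (u v : ℕ) : Prop :=
  κ u = κ v ∧ ∀ x ∈ ce (κ v), (E u x ↔ E v x)

/-- There is a clique with `j` elements, all at most `n`, in the type class of `v`. -/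
def QK (E : ℕ → ℕ → Prop) (isC : ℕ → Prop) (ce : ℕ → List ℕ) (κ : ℕ → ℕ) (j n v : ℕ) : Prop :=
  ∃ t : List ℕ, t.length = j ∧ (∀ x ∈ t, x ≤ n) ∧
    (t.Pairwise E ∧ ∀ x ∈ t, Z0 E isC ce x ∧ SameT E ce κ x v)

/-- `u` belongs to the block of `v`: same type and same level. -/
def Blk (E : ℕ → ℕ → Prop) (isC : ℕ → Prop) (ce : ℕ → List ℕ) (κ lev : ℕ → ℕ) (u v : ℕ) : Prop :=
  Z0 E isC ce u ∧ (SameT E ce κ u v ∧ lev u = lev v)

open Classical in
/-- The level, the first vertex of the block and the rank of the block. -/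
structure LevData (E : ℕ → ℕ → Prop) (isC : ℕ → Prop) (ce : ℕ → List ℕ)
    (κ lev fst rk : ℕ → ℕ) : Prop where
  /-- `lev v` is the largest size of a clique in the part of the type class of `v` which exists
  at time `v` -/
  lev_pos : ∀ v, Z0 E isC ce v → 1 ≤ lev v ∧ QK E isC ce κ (lev v) v v
  lev_max : ∀ v, Z0 E isC ce v → ¬ QK E isC ce κ (lev v + 1) v v
  fst_blk : ∀ v, Z0 E isC ce v → fst v ≤ v ∧ Blk E isC ce κ lev (fst v) v
  fst_min : ∀ v, Z0 E isC ce v → ∀ u, u < fst v → ¬ Blk E isC ce κ lev u v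
  /-- the number of earlier blocks of the same level in the same cluster -/
  rk_eq : ∀ v, Z0 E isC ce v → rk v = ((Finset.range (fst v)).filter
    (fun u => Z0 E isC ce u ∧ fst u = u ∧ κ u = κ v ∧ lev u = lev v)).card

/-- LEV: levels, blocks and ranks are computable. -/
def Stmt_LEV : Prop :=
  ∀ (E lt : ℕ → ℕ → Prop) (w : ℕ) (isC : ℕ → Prop) (ce : ℕ → List ℕ) (κ : ℕ → ℕ),
    CoComp E lt → NoBig E w →
    ComputablePred (fun p : ℕ × ℕ => E p.1 p.2) → ComputablePred (fun v => Z0 E isC ce v) →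
    Computable ce → Computable κ →
    ∃ lev fst rk : ℕ → ℕ, Computable lev ∧ Computable fst ∧ Computable rk ∧
      LevData E isC ce κ lev fst rk

open Classical in
/-- The set of neighbours of `u` on the clique `A`. -/
noncomputable def Ty (E : ℕ → ℕ → Prop) (A : List ℕ) (u : ℕ) : Finset ℕ :=
  A.toFinset.filter (fun a => E u a)

/-- CNT: cliques of size `k` in distinct type classes with `t` neighbours on the maximum clique
`A`: there are at most `2 * (w / k)` of them, and `t + k ≤ w`. -/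
def Stmt_CNT : Prop :=
  ∀ (E lt : ℕ → ℕ → Prop) (w : ℕ) (A : List ℕ), CoComp E lt → NoBig E w → Cl E w A →
    ∀ (t k : ℕ) (U : Finset ℕ) (K : ℕ → List ℕ), 1 ≤ k →
      (∀ u ∈ U, (K u).length = k ∧ (K u).Pairwise E ∧ ∀ x ∈ K u, Ty E A x = Ty E A u) →
      (∀ u ∈ U, (Ty E A u).card = t) →
      (∀ u ∈ U, ∀ v ∈ U, Ty E A u = Ty E A v → u = v) →
      U.card ≤ 2 * (w / k) ∧ (U.Nonempty → t + k ≤ w)

/-- Bound for the number of blocks of level `k` in a cluster. -/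
def nbk (w k : ℕ) : ℕ := min ((w - k) * (2 * (w / k))) (2 ^ w - 2)

/-- RNK: bounds for the level and the rank. -/
def Stmt_RNK : Prop :=
  ∀ (E lt : ℕ → ℕ → Prop) (w : ℕ) (isC : ℕ → Prop) (ce : ℕ → List ℕ) (κ lev fst rk : ℕ → ℕ),
    2 ≤ w → CoComp E lt → NoBig E w → Centres E w isC ce →
    (∀ v, Z0 E isC ce v → κ v ≤ v ∧ isC (κ v) ∧ T E v (ce (κ v))) →
    LevData E isC ce κ lev fst rk →
    ∀ v, Z0 E isC ce v → lev v < w ∧ rk v < nbk w (lev v)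

/-- CMP: a computable function with values in a finite set can be compressed. -/
def Stmt_CMP : Prop :=
  ∀ (c : ℕ → ℕ) (S : Finset ℕ), Computable c → (∀ v, c v ∈ S) →
    ∃ c' : ℕ → ℕ, Computable c' ∧ (∀ v, c' v < S.card) ∧ ∀ x y, c' x = c' y → c x = c y

/-- EXS: the recursion for the number of colours. -/
def Stmt_EXS : Prop :=
  ∀ (w : ℕ) (f : ℕ → ℕ), 2 ≤ w → (∀ k, 1 ≤ k → k < w → Col k (f k)) →
    Col w (43 * (∑ k ∈ Finset.Icc 1 (w - 1), nbk w k * f k) + 11 * f (w - 1))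

/-- ARI: arithmetic of the recursion. -/
def Stmt_ARI : Prop :=
  ∃ f : ℕ → ℕ, f 1 = 1 ∧ (∀ w, 1 ≤ w → f w ≤ 100 ^ (w - 1)) ∧
    ∀ w : ℕ, 2 ≤ w →
      43 * (∑ k ∈ Finset.Icc 1 (w - 1), nbk w k * f k) + 11 * f (w - 1) ≤ f w

/-- EXP: the exponential bound. -/
def Stmt_EXP : Prop := ∀ w : ℕ, 1 ≤ w → Col w (100 ^ (w - 1))

end Pool.Agent.CCG
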